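import Pool.Agent.W910.BG.Defs

/-!
# Graphs without odd cycles
-/

set_option autoImplicit false

namespace Pool.Agent.W910.BG

section walks

variable {V : Type*} {G : SimpleGraph V}

theorem edge_path {u v : V} (p : G.Walk v u) (hp : p.IsPath) (h : s(u, v) ∈ p.edges) :
    p.length = 1 := by
  cases p with
  | nil => simp at h
  | @cons _ w _ h' p' =>
    rw [SimpleGraph.Walk.cons_isPath_iff] at hp
    rw [SimpleGraph.Walk.edges_cons, List.mem_cons] at h
    rcases h with h | h
    · rw [Sym2.eq_iff] at h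
      have hw : u = w := by
        rcases h with ⟨h1, h2⟩ | ⟨h1, -⟩
        · exact absurd h2 h'.ne
        · exact h1
      subst hw
      have h2 := (SimpleGraph.Walk.isPath_iff_nil.1 hp.1).length_eq_zero
      rw [SimpleGraph.Walk.length_cons, h2]
    · exact absurd (p'.snd_mem_support_of_mem_edges h) hp.2

theorem exists_path (hG : ∀ (x : V) (w : G.Walk x x), w.IsCycle → Even w.length) {v u : V}
    (p : G.Walk v u) : ∃ q : G.Walk v u, q.IsPath ∧ (Even p.length ↔ Even q.length) := by
  classical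
  induction p with
  | nil => exact ⟨.nil, by simp, Iff.rfl⟩
  | @cons v w u h p ih =>
    obtain ⟨q, hq, h1⟩ := ih
    by_cases hv : v ∈ q.support
    · refine ⟨q.dropUntil v hv, hq.dropUntil hv, ?_⟩
      have h2 : Even (SimpleGraph.Walk.cons h (q.takeUntil v hv)).length := by
        by_cases he : s(v, w) ∈ (q.takeUntil v hv).edges
        · have h3 := edge_path (q.takeUntil v hv) (hq.takeUntil hv) he
          rw [SimpleGraph.Walk.length_cons, h3]
          exact ⟨1, rfl⟩
        · exact hG _ _ ((SimpleGraph.Walk.cons_isCycle_iff _ _).2 ⟨hq.takeUntil hv, he⟩)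
      have h4 : q.length = (q.takeUntil v hv).length + (q.dropUntil v hv).length := by
        rw [← SimpleGraph.Walk.length_append, SimpleGraph.Walk.take_spec]
      rw [SimpleGraph.Walk.length_cons] at h2 ⊢
      rw [Nat.even_add_one, h1, h4, Nat.even_add]
      rw [Nat.even_add_one] at h2
      tauto
    · refine ⟨.cons h q, (SimpleGraph.Walk.cons_isPath_iff _ _).2 ⟨hq, hv⟩, ?_⟩
      rw [SimpleGraph.Walk.length_cons, SimpleGraph.Walk.length_cons, Nat.even_add_one,
        Nat.even_add_one, h1]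

theorem loop_even (hG : ∀ (x : V) (w : G.Walk x x), w.IsCycle → Even w.length) {x : V}
    (w : G.Walk x x) : Even w.length := by
  obtain ⟨q, hq, h⟩ := exists_path hG w
  rw [h, (SimpleGraph.Walk.isPath_iff_nil.1 hq).length_eq_zero]
  exact ⟨0, rfl⟩

end walks

open MeasureTheory

variable {X : Type} [MeasurableSpace X] {G : SimpleGraph X} {e : X → ℕ → ℕ}

/-- The image of the graph in the Baire space. -/
def im (G : SimpleGraph X) (e : X → ℕ → ℕ) (he : Function.Injective e) :
    SimpleGraph (ℕ → ℕ) where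
  Adj a b := ∃ x y, G.Adj x y ∧ e x = a ∧ e y = b
  symm := ⟨fun _ _ ⟨x, y, h, h1, h2⟩ => ⟨y, x, h.symm, h2, h1⟩⟩
  loopless := ⟨fun a ⟨x, y, h, h1, h2⟩ => h.ne (he (h1.trans h2.symm))⟩

theorem im_adj (he : Function.Injective e) {x y : X} (h : G.Adj x y) :
    (im G e he).Adj (e x) (e y) := ⟨x, y, h, rfl, rfl⟩

theorem im_borel [StandardBorelSpace X] (hB : MeasurableSet {p : X × X | G.Adj p.1 p.2})
    (hm : Measurable e) (he : Function.Injective e) :
    MeasurableSet {p : (ℕ → ℕ) × (ℕ → ℕ) | (im G e he).Adj p.1 p.2} := by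
  have h1 : MeasurableEmbedding (Prod.map e e) :=
    (hm.prodMap hm).measurableEmbedding (he.prodMap he)
  have h2 : {p : (ℕ → ℕ) × (ℕ → ℕ) | (im G e he).Adj p.1 p.2} =
      Prod.map e e '' {p : X × X | G.Adj p.1 p.2} := by
    ext ⟨a, b⟩
    constructor
    · intro h
      obtain ⟨x, y, h3, h4, h5⟩ := h
      exact ⟨(x, y), h3, Prod.ext h4 h5⟩
    · rintro ⟨⟨x, y⟩, h3, h4⟩
      obtain ⟨h5, h6⟩ := Prod.ext_iff.1 h4
      exact ⟨x, y, h3, h5, h6⟩
  rw [h2]
  exact h1.measurableSet_image.2 hB

theorem im_wp (hG : ∀ (x : X) (w : G.Walk x x), w.IsCycle → Even w.length)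
    (he : Function.Injective e) (y : ℕ → ℕ) : ¬ WP (im G e he) true y y := by
  classical
  have h1 : G.Colorable 2 := SimpleGraph.two_colorable_iff_forall_loop_even.2
    fun u w => loop_even hG w
  have h2 : (im G e he).Colorable 2 := by
    obtain ⟨C⟩ := h1
    refine ⟨SimpleGraph.Coloring.mk (fun y => if h : ∃ x, e x = y then C h.choose else 0) ?_⟩
    intro a b hab
    obtain ⟨x, y, h3, rfl, rfl⟩ := hab
    have h4 : ∃ x', e x' = e x := ⟨x, rfl⟩
    have h5 : ∃ y', e y' = e y := ⟨y, rfl⟩
    have h6 : h4.choose = x := he h4.choose_spec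
    have h7 : h5.choose = y := he h5.choose_spec
    change (if h : ∃ x', e x' = e x then C h.choose else 0) ≠
      if h : ∃ y', e y' = e y then C h.choose else 0
    rw [dif_pos h4, dif_pos h5, h6, h7]
    exact C.valid h3
  rintro ⟨w, hw⟩
  obtain ⟨k, hk⟩ := SimpleGraph.two_colorable_iff_forall_loop_even.1 h2 y w
  rw [hk] at hw
  simp at hw

end Pool.Agent.W910.BG
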