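import Pool.Agent.W910.BG.Point

/-!
# The generic colouring
-/

set_option autoImplicit false
set_option linter.unusedSectionVars false

namespace Pool.Agent.W910.BG

open Pool.Agent.W868 Pool.Agent.W868.PName Pool.Agent.W910.SY Topology Filter
open ZFSet (pair)

variable {I : Type} {Γ : SimpleGraph (ℕ → ℕ)}

/-! ### Names and Borel sets -/

theorem baire_coord (f : NR I) (n m : ℕ) : BaireMeasurableSet {x : X I | f.1 x n = m} := by
  have ho : IsOpen {x : X I | ∀ᶠ y in 𝓝 x, f.1 y n = m} := isOpen_setOfPred_eventually_nhds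
  refine ho.baireMeasurableSet.congr ?_
  have h2 : {x : X I | ∀ᶠ y in 𝓝 x, f.1 y n = f.1 x n} ∈ residual (X I) := by
    refine residual_of_dense_open ?_ (f.2.2 n)
    have h3 : {x : X I | ∀ᶠ y in 𝓝 x, f.1 y n = f.1 x n} =
        ⋃ m, {x : X I | ∀ᶠ y in 𝓝 x, f.1 y n = m} := by
      ext x
      simp only [Set.mem_ofPred_eq, Set.mem_iUnion]
      constructor
      · intro h
        exact ⟨_, h⟩
      · rintro ⟨m, h⟩
        have h4 : f.1 x n = m := h.self_of_nhds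
        rw [h4]
        exact h
    rw [h3]
    exact isOpen_iUnion fun m => isOpen_setOfPred_eventually_nhds
  filter_upwards [h2] with x hx
  apply propext
  constructor
  · intro h
    exact Filter.Eventually.self_of_nhds (show ∀ᶠ y in 𝓝 x, f.1 y n = m from h)
  · intro h
    have h5 : f.1 x n = m := h
    have h6 : ∀ᶠ y in 𝓝 x, f.1 y n = f.1 x n := hx
    rw [h5] at h6
    exact h6

theorem baire_pre (f g : NR I) {B : Set ((ℕ → ℕ) × (ℕ → ℕ))} (hB : MeasurableSet B) :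
    BaireMeasurableSet {x : X I | (f.1 x, g.1 x) ∈ B} := by
  let m : MeasurableSpace (X I) := eventuallyMeasurableSpace (borel _) (residual _)
  have h1 : ∀ f : NR I, @Measurable (X I) (ℕ → ℕ) m _ f.1 := by
    intro f
    refine @measurable_pi_lambda (X I) ℕ (fun _ => ℕ) m _ _ fun n => ?_
    refine @measurable_to_countable' ℕ (X I) _ _ m _ fun k => ?_
    exact baire_coord f n k
  have h2 : @Measurable (X I) ((ℕ → ℕ) × (ℕ → ℕ)) m _ fun x => (f.1 x, g.1 x) :=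
    Measurable.prodMk (h1 f) (h1 g)
  exact h2 hB

/-- Borel properties of names are decided by the conditions of a dense set. -/
theorem dec_dense (f g : NR I) {B : Set ((ℕ → ℕ) × (ℕ → ℕ))} (hB : MeasurableSet B)
    (q : Q I Γ) : ∃ r ≤ q, r ∈ {r : Q I Γ | On r.2.1 (fun x => (f.1 x, g.1 x) ∈ B) ∨
      On r.2.1 fun x => (f.1 x, g.1 x) ∉ B} := by
  obtain ⟨u, hu, h1⟩ := (baire_pre f g hB).residualEq_isOpen
  rw [Filter.eventuallyEq_set] at h1
  by_cases h2 : (q.2.1 ∩ u).Nonempty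
  · obtain ⟨W, hW1, hW2⟩ := exists_sub q.2.2.1 hu h2
    exact ⟨cut q W, cut_le hW1, Or.inl (h1.mono fun x hx hxW => hx.2 (hW2 hxW))⟩
  · refine ⟨q, le_rfl, Or.inr (h1.mono fun x hx hxW hB => h2 ⟨x, hxW, hx.1 hB⟩)⟩

/-! ### Rules -/

variable (I Γ) in
open Classical in
/-- Rules for the colouring. -/
noncomputable def ruC : Set (Rule (Q I Γ)) :=
  {r1 (fun (f : NR I) _ => Sys.nm (Q I Γ) {r | ∃ h, (f, h) ∈ r.1.1}),
   r1 (fun (f : NR I) p => if h : ∃ h : NC I, (f, h) ∈ p.1.1 then check (cd h.choose) else emp),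
   r1 (fun (h : NC I) _ => Sys.nm (Q I Γ) {r | ∃ b, ∀ x ∈ r.2.1, h.1 x = b}),
   r2 (fun (f g : NR I) _ => Sys.nm (Q I Γ)
     {r | On r.2.1 (fun x => (f.1 x, g.1 x) ∈ {p : (ℕ → ℕ) × (ℕ → ℕ) | p.1 = p.2}) ∨
       On r.2.1 fun x => (f.1 x, g.1 x) ∉ {p : (ℕ → ℕ) × (ℕ → ℕ) | p.1 = p.2}}),
   r2 (fun (f g : NR I) _ => Sys.nm (Q I Γ)
     {r | On r.2.1 (fun x => (f.1 x, g.1 x) ∈ {p : (ℕ → ℕ) × (ℕ → ℕ) | Γ.Adj p.1 p.2}) ∨
       On r.2.1 fun x => (f.1 x, g.1 x) ∉ {p : (ℕ → ℕ) × (ℕ → ℕ) | Γ.Adj p.1 p.2}}),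
   r2 (fun (f g : NR I) p => check (cd {x : X I | x ∈ p.2.1 → ¬ f.1 x = g.1 x})),
   r2 (fun (f g : NR I) p => check (cd {x : X I | x ∈ p.2.1 → ¬ Γ.Adj (f.1 x) (g.1 x)})),
   r2 (fun (f g : NC I) p => check (cd {x : X I | x ∈ p.2.1 → (f.1 x).xor (g.1 x) = true})),
   r2 (fun (f g : NC I) p => check (cd {x : X I | x ∈ p.2.1 → (f.1 x).xor (g.1 x) = false})),
   r1 (fun (h : NC I) p => check (cd {x : X I | x ∈ p.2.1 → h.1 x = true})),
   r1 (fun (h : NC I) p => check (cd {x : X I | x ∈ p.2.1 → h.1 x = false})),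
   r1 (fun (f : NR I) _ => realN Γ f),
   r0 (fun y _ => if h : ∃ f : NR I, y = realN Γ f then check (cd h.choose) else emp)}

section

variable {π : Pkg (Q I Γ)} {R : Set (Rule (Q I Γ))} (hR : ClR R π) (hP : ruP I Γ ⊆ R)
  (hC : ruC I Γ ⊆ R) {x : X I} (hx : ∀ k, x ∈ (π.g k).2.1)
  (hx' : ∀ A : Set (X I), Hul π A → A ∈ residual (X I) → x ∈ A)

include hR hP hC hx hx'

open Classical in
/-- Every name has a colour. -/
theorem exists_col (hE : S_EXT) (hΓ : ∀ y, ¬ WP Γ true y y) {f : NR I} (hf : Hul π f) :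
    ∃ (h : NC I) (k : ℕ), Hul π h ∧ (f, h) ∈ (π.g k).1.1 := by
  have h1 := r1_mem hR (F := fun (f : NR I) _ => Sys.nm (Q I Γ) {r | ∃ h, (f, h) ∈ r.1.1})
    (hC (by simp [ruC])) hf 0
  obtain ⟨k, -, h2⟩ := gen_dense' π (m := 0) h1 (fun r ⟨h, hh⟩ q hq => ⟨h, hq.1 hh⟩) (by
    intro q _
    obtain ⟨S, hS, hfS⟩ := f.2.1
    obtain ⟨r', hr', T, hST, -, -, hT⟩ := hE I Γ hΓ q.1 S hS
    obtain ⟨h, hh⟩ := hT f fun y z hyz => hfS y z fun i hi => hyz i (hST hi)
    exact ⟨(r', q.2), ⟨hr', le_rfl⟩, h, hh⟩)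
  have h3 : ∃ h : NC I, (f, h) ∈ (π.g k).1.1 := h2
  have h4 := r1_mem hR (F := fun (f : NR I) p => if h : ∃ h : NC I, (f, h) ∈ p.1.1 then
    (check (cd h.choose) : PName (Q I Γ)) else emp) (hC (by simp [ruC])) hf k
  simp only [dif_pos h3] at h4
  exact ⟨_, k, h4, h3.choose_spec⟩

/-- The colour of a name at the generic point. -/
theorem col_mem {f : NR I} (hf : Hul π f) {h : NC I} (hh : Hul π h) {k : ℕ}
    (hfh : (f, h) ∈ (π.g k).1.1) : pair (code (f.1 x)) (bn (h.1 x)) ∈ π.val (colN I Γ) := by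
  have h1 := r1_mem hR (F := fun (h : NC I) _ => Sys.nm (Q I Γ) {r | ∃ b, ∀ x ∈ r.2.1, h.1 x = b})
    (hC (by simp [ruC])) hh 0
  obtain ⟨m, hm, b, hb⟩ := gen_dense' π (m := k) h1
    (fun r ⟨m, hm⟩ q hq => ⟨m, fun y hy => hm y (hq.2 hy)⟩) (by
    intro q _
    obtain ⟨y, hyq, hy⟩ := h.2.2.inter_open_nonempty _ q.2.2.1 q.2.2.2
    obtain ⟨V, hV, hVo, hyV⟩ := eventually_nhds_iff.1 (show ∀ᶠ z in 𝓝 y, h.1 z = h.1 y from hy)
    obtain ⟨W, hW1, hW2⟩ := exists_sub q.2.2.1 hVo ⟨y, hyq, hyV⟩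
    exact ⟨cut q W, cut_le hW1, h.1 y, fun z hz => hV z (hW2 hz)⟩)
  have h2 : realN Γ f ∈ π.N := r1_mem hR (F := fun (f : NR I) _ => realN Γ f)
    (hC (by simp [ruC])) hf 0
  have h3 : (check (bn b) : PName (Q I Γ)) ∈ π.N := π.nat_Z _
  have h4 : h.1 x = b := hb x (hx m)
  have h5 : El (colN I Γ) (opN (realN Γ f) (check (bn b))) (π.g m) :=
    ⟨⟨((f, b), π.g m), h, (π.g_anti hm).1 hfh, hb⟩, rfl, rfl⟩
  have h6 := π.val_mem_val (π.opN_mem h2 h3) h5 le_rfl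
  rw [π.val_opN h2 h3, val_realN hR hP hx hf] at h6
  have h7 : π.val (check (bn b)) = bn b := π.hat_nat _
  rwa [h7, ← h4] at h6

/-- Two names with the same value have the same colour. -/
theorem col_eq {f g : NR I} (hf : Hul π f) (hg : Hul π g) {h j : NC I} (hh : Hul π h)
    (hj : Hul π j) {k : ℕ} (hfh : (f, h) ∈ (π.g k).1.1) (hgj : (g, j) ∈ (π.g k).1.1)
    (h0 : f.1 x = g.1 x) : h.1 x = j.1 x := by
  have h1 := r2_mem hR (F := fun (f g : NR I) _ => Sys.nm (Q I Γ)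
     {r | On r.2.1 (fun x => (f.1 x, g.1 x) ∈ {p : (ℕ → ℕ) × (ℕ → ℕ) | p.1 = p.2}) ∨
       On r.2.1 fun x => (f.1 x, g.1 x) ∉ {p : (ℕ → ℕ) × (ℕ → ℕ) | p.1 = p.2}})
    (hC (by simp [ruC])) hf hg 0
  obtain ⟨m, hm, h2⟩ := gen_dense' π (m := k) h1 (by
    rintro r (hr | hr) q hq
    · exact Or.inl (hr.mono fun y hy hyq => hy (hq.2 hyq))
    · exact Or.inr (hr.mono fun y hy hyq => hy (hq.2 hyq)))
    (fun q _ => dec_dense f g (measurableSet_eq_fun measurable_fst measurable_snd) q)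
  rcases h2 with h2 | h2
  · have h3 : On (π.g m).2.1 fun y => WP Γ false (f.1 y) (g.1 y) :=
      h2.mono fun y hy hym => by
        have h4 : f.1 y = g.1 y := hy hym
        change WP Γ false (f.1 y) (g.1 y)
        rw [h4]
        exact ⟨SimpleGraph.Walk.nil, by simp⟩
    have h5 := (π.g m).1.2.1 _ ((π.g_anti hm).1 hfh) _ ((π.g_anti hm).1 hgj) false _
      (π.g m).2.2.1 h3
    have h6 := r2_mem hR (F := fun (f g : NC I) p => (check (cd {x : X I | x ∈ p.2.1 →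
      (f.1 x).xor (g.1 x) = false}) : PName (Q I Γ))) (hC (by simp [ruC])) hh hj m
    have h7 : (h.1 x).xor (j.1 x) = false := hx' _ h6 h5 (hx m)
    simpa using h7
  · exfalso
    have h6 := r2_mem hR (F := fun (f g : NR I) p => (check (cd {x : X I | x ∈ p.2.1 →
      ¬ f.1 x = g.1 x}) : PName (Q I Γ))) (hC (by simp [ruC])) hf hg m
    exact hx' _ h6 h2 (hx m) h0

/-- Neighbours have different colours. -/
theorem col_ne (hB : MeasurableSet {p : (ℕ → ℕ) × (ℕ → ℕ) | Γ.Adj p.1 p.2}) {f g : NR I}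
    (hf : Hul π f) (hg : Hul π g) {h j : NC I} (hh : Hul π h)
    (hj : Hul π j) {k : ℕ} (hfh : (f, h) ∈ (π.g k).1.1) (hgj : (g, j) ∈ (π.g k).1.1)
    (h0 : Γ.Adj (f.1 x) (g.1 x)) : h.1 x ≠ j.1 x := by
  have h1 := r2_mem hR (F := fun (f g : NR I) _ => Sys.nm (Q I Γ)
     {r | On r.2.1 (fun x => (f.1 x, g.1 x) ∈ {p : (ℕ → ℕ) × (ℕ → ℕ) | Γ.Adj p.1 p.2}) ∨
       On r.2.1 fun x => (f.1 x, g.1 x) ∉ {p : (ℕ → ℕ) × (ℕ → ℕ) | Γ.Adj p.1 p.2}})
    (hC (by simp [ruC])) hf hg 0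
  obtain ⟨m, hm, h2⟩ := gen_dense' π (m := k) h1 (by
    rintro r (hr | hr) q hq
    · exact Or.inl (hr.mono fun y hy hyq => hy (hq.2 hyq))
    · exact Or.inr (hr.mono fun y hy hyq => hy (hq.2 hyq)))
    (fun q _ => dec_dense f g hB q)
  rcases h2 with h2 | h2
  · have h3 : On (π.g m).2.1 fun y => WP Γ true (f.1 y) (g.1 y) :=
      h2.mono fun y hy hym => by
        have h4 : Γ.Adj (f.1 y) (g.1 y) := hy hym
        exact ⟨SimpleGraph.Walk.cons h4 SimpleGraph.Walk.nil, by simp⟩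
    have h5 := (π.g m).1.2.1 _ ((π.g_anti hm).1 hfh) _ ((π.g_anti hm).1 hgj) true _
      (π.g m).2.2.1 h3
    have h6 := r2_mem hR (F := fun (f g : NC I) p => (check (cd {x : X I | x ∈ p.2.1 →
      (f.1 x).xor (g.1 x) = true}) : PName (Q I Γ))) (hC (by simp [ruC])) hh hj m
    have h7 : (h.1 x).xor (j.1 x) = true := hx' _ h6 h5 (hx m)
    intro h8
    rw [h8] at h7
    simp at h7
  · exfalso
    have h6 := r2_mem hR (F := fun (f g : NR I) p => (check (cd {x : X I | x ∈ p.2.1 →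
      ¬ Γ.Adj (f.1 x) (g.1 x)}) : PName (Q I Γ))) (hC (by simp [ruC])) hf hg m
    exact hx' _ h6 h2 (hx m) h0

open Classical in
/-- The elements of the colouring. -/
theorem of_col {z : ZFSet.{0}} (hz : z ∈ π.val (colN I Γ)) : ∃ (f : NR I) (b : Bool), Hul π f ∧
    z = pair (code (f.1 x)) (bn b) ∧ ∀ (j : NC I) (k : ℕ), Hul π j → (f, j) ∈ (π.g k).1.1 →
      j.1 x = b := by
  obtain ⟨w, hw, c, ⟨⟨⟨⟨f₀, b⟩, q⟩, h, hh, hb⟩, rfl, rfl⟩, ⟨k, hk⟩, rfl⟩ := π.mem_val.1 hz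
  have h1 : realN Γ f₀ ∈ π.N := π.fst_mem hw
  have h2 : ∃ f : NR I, realN Γ f₀ = realN Γ f := ⟨f₀, rfl⟩
  have h3 := r0_mem hR (F := fun y _ => if h : ∃ f : NR I, y = realN Γ f then
    (check (cd h.choose) : PName (Q I Γ)) else emp) (hC (by simp [ruC])) h1 0
  simp only [dif_pos h2] at h3
  obtain ⟨f, hf, hff⟩ : ∃ f : NR I, Hul π f ∧ realN Γ f₀ = realN Γ f := ⟨_, h3, h2.choose_spec⟩
  have h4 : (check (bn b) : PName (Q I Γ)) ∈ π.N := π.nat_Z _
  have h7 : π.val (check (bn b)) = bn b := π.hat_nat _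
  have hwN : opN (realN Γ f₀) (check (bn b)) ∈ π.N := hw
  refine ⟨f, b, hf, ?_, fun j m hj hfj => ?_⟩
  · change π.val (opN (realN Γ f₀) (check (bn b))) = _
    rw [hff, π.val_opN (hff ▸ h1) h4, val_realN hR hP hx hf, h7]
  · -- the two names agree at almost all points
    have h8 : ∀ (n m : ℕ) (U : U0 I), (∀ y ∈ U.1, f₀.1 y n = m) → ∀ y ∈ U.1, f.1 y n = m := by
      intro n m U hU
      have h9 : El (realN Γ f) (check (pair (nat n) (nat m))) (⊤, U) := by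
        rw [← hff]
        exact ⟨⟨((n, m), U), hU⟩, rfl, rfl⟩
      obtain ⟨⟨⟨⟨n', m'⟩, U'⟩, hU'⟩, e1, e2⟩ := h9
      have e3 := ZFSet.pair_inj.1 (check_injective e1)
      have e4 : n' = n := nat_injective e3.1
      have e5 : m' = m := nat_injective e3.2
      have e6 : U' = U := (Prod.ext_iff.1 e2).2
      subst e4 e5 e6
      exact hU'
    have h9 : On Set.univ fun y => WP Γ false (f₀.1 y) (f.1 y) := by
      have h10 : ∀ n, ∀ᶠ y in residual (X I), f₀.1 y n = f.1 y n := by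
        intro n
        have h11 : Dense {y : X I | ∀ᶠ z in 𝓝 y, f₀.1 z n = f₀.1 y n} := f₀.2.2 n
        have h12 : {y : X I | ∀ᶠ z in 𝓝 y, f₀.1 z n = f₀.1 y n} =
            ⋃ m, {y : X I | ∀ᶠ z in 𝓝 y, f₀.1 z n = m} := by
          ext y
          simp only [Set.mem_ofPred_eq, Set.mem_iUnion]
          constructor
          · intro h
            exact ⟨_, h⟩
          · rintro ⟨m, h⟩
            have h4 : f₀.1 y n = m := h.self_of_nhds
            rw [h4]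
            exact h
        have h13 : IsOpen {y : X I | ∀ᶠ z in 𝓝 y, f₀.1 z n = f₀.1 y n} := by
          rw [h12]
          exact isOpen_iUnion fun m => isOpen_setOfPred_eventually_nhds
        filter_upwards [residual_of_dense_open h13 h11] with y hy
        obtain ⟨V, hV, hVo, hyV⟩ := eventually_nhds_iff.1
          (show ∀ᶠ z in 𝓝 y, f₀.1 z n = f₀.1 y n from hy)
        exact (h8 n (f₀.1 y n) ⟨V, hVo, y, hyV⟩ (fun z hz => hV z hz) y hyV).symm
      filter_upwards [eventually_countable_forall.2 h10] with y hy _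
      have h14 : f₀.1 y = f.1 y := funext hy
      change WP Γ false (f₀.1 y) (f.1 y)
      rw [h14]
      exact ⟨SimpleGraph.Walk.nil, by simp⟩
    have hm1 := π.g_anti (le_max_left k m)
    have hm2 := π.g_anti (le_max_right k m)
    have h15 := (π.g (max k m)).1.2.1 _ ((hm1.1) (hk.1 hh)) _ (hm2.1 hfj) false _ isOpen_univ h9
    have h16 : On (π.g (max k m)).2.1 fun y => j.1 y = b := by
      filter_upwards [h15] with y hy hyk
      have h17 := hy trivial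
      have h18 : h.1 y = b := hb y (hk.2 (hm1.2 hyk))
      rw [h18] at h17
      cases hjb : j.1 y <;> cases b <;> simp_all
    cases b with
    | true =>
      have h6 := r1_mem hR (F := fun (h : NC I) p => (check (cd {x : X I | x ∈ p.2.1 →
        h.1 x = true}) : PName (Q I Γ))) (hC (by simp [ruC])) hj (max k m)
      exact hx' _ h6 h16 (hx _)
    | false =>
      have h6 := r1_mem hR (F := fun (h : NC I) p => (check (cd {x : X I | x ∈ p.2.1 →
        h.1 x = false}) : PName (Q I Γ))) (hC (by simp [ruC])) hj (max k m)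
      exact hx' _ h6 h16 (hx _)

end

end Pool.Agent.W910.BG
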