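import Pool.Agent.W910.SY.Defs

/-!
# Two-colourings of Borel bipartite graphs without ultrafilters: the notion of forcing
-/

set_option autoImplicit false
set_option linter.unusedSectionVars false

namespace Pool.Agent.W910.BG

open Topology Filter

/-- The space of all sequences, indexed by `I`, of elements of `2^ω`. -/
abbrev X (I : Type) : Type := I → ℕ → Bool

/-- `f` depends only on the coordinates in `S`. -/
def SupOn {I : Type} {α : Type*} (S : Set I) (f : X I → α) : Prop :=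
  ∀ x y : X I, (∀ i ∈ S, x i = y i) → f x = f y

/-- `f` is locally constant on a dense open set. -/
def LC {I : Type} {α : Type*} (f : X I → α) : Prop := Dense {x | ∀ᶠ y in 𝓝 x, f y = f x}

/-- Names for elements of the Baire space. -/
def NR (I : Type) : Type :=
  {f : X I → ℕ → ℕ // (∃ S : Set I, S.Countable ∧ SupOn S f) ∧ ∀ n, LC fun x => f x n}

/-- Names for colours. -/
def NC (I : Type) : Type := {h : X I → Bool // (∃ S : Set I, S.Countable ∧ SupOn S h) ∧ LC h}

/-- There is a walk in the graph `Γ` from `y` to `z` whose length has the parity `i`. -/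
def WP (Γ : SimpleGraph (ℕ → ℕ)) (i : Bool) (y z : ℕ → ℕ) : Prop :=
  ∃ w : Γ.Walk y z, w.length.bodd = i

/-- `φ` holds at almost all points of `U`, in the sense of category. -/
def On {I : Type} (U : Set (X I)) (φ : X I → Prop) : Prop := ∀ᶠ x in residual (X I), x ∈ U → φ x

/-- The partial colouring `r` is proper. -/
def C2 {I : Type} (Γ : SimpleGraph (ℕ → ℕ)) (r : Set (NR I × NC I)) : Prop :=
  ∀ t ∈ r, ∀ t' ∈ r, ∀ (i : Bool) (U : Set (X I)), IsOpen U →
    On U (fun x => WP Γ i (t.1.1 x) (t'.1.1 x)) → On U fun x => (t.2.1 x).xor (t'.2.1 x) = i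

/-- The names in `r` depend only on the coordinates in `S`. -/
def Sp {I : Type} (S : Set I) (r : Set (NR I × NC I)) : Prop :=
  ∀ t ∈ r, SupOn S t.1.1 ∧ SupOn S t.2.1

/-- `r` colours all names that depend only on the coordinates in `S`. -/
def Tot {I : Type} (S : Set I) (r : Set (NR I × NC I)) : Prop :=
  ∀ f : NR I, SupOn S f.1 → ∃ h, (f, h) ∈ r

/-- Proper partial colourings with countable support. -/
def D (I : Type) (Γ : SimpleGraph (ℕ → ℕ)) : Type :=
  {r : Set (NR I × NC I) // C2 Γ r ∧ ∃ S : Set I, S.Countable ∧ Sp S r}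

/-- Cohen conditions. -/
def U0 (I : Type) : Type := {U : Set (X I) // IsOpen U ∧ U.Nonempty}

variable {I : Type} {Γ : SimpleGraph (ℕ → ℕ)}

instance : PartialOrder (D I Γ) where
  le r s := s.1 ⊆ r.1
  le_refl r := subset_rfl
  le_trans r s t h h' := h'.trans h
  le_antisymm r s h h' := Subtype.ext (h'.antisymm h)

instance : OrderTop (D I Γ) where
  top := ⟨∅, fun t ht => ht.elim, ∅, Set.countable_empty, fun t ht => ht.elim⟩
  le_top r := Set.empty_subset _

instance : PartialOrder (U0 I) where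
  le U V := U.1 ⊆ V.1
  le_refl r := subset_rfl
  le_trans r s t h h' := h.trans h'
  le_antisymm r s h h' := Subtype.ext (h.antisymm h')

instance : OrderTop (U0 I) where
  top := ⟨Set.univ, isOpen_univ, Set.univ_nonempty⟩
  le_top U := Set.subset_univ _

/-- The notion of forcing. -/
abbrev Q (I : Type) (Γ : SimpleGraph (ℕ → ℕ)) : Type := D I Γ × U0 I

/-! ### The action of the homeomorphisms -/

theorem fin_sup {g : X I → Bool} (hg : Continuous g) : ∃ S : Set I, S.Finite ∧ SupOn S g := by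
  classical
  have h2 : ∀ x : X I, ∃ (s : Finset I) (t : I → Set (ℕ → Bool)), (∀ i ∈ s, IsOpen (t i)) ∧
      (∀ i ∈ s, x i ∈ t i) ∧ ∀ y : X I, (∀ i ∈ s, y i ∈ t i) → g y = g x := by
    intro x
    have ho : IsOpen {y | g y = g x} := (isOpen_discrete {g x}).preimage hg
    obtain ⟨s, t, h3, h4⟩ := isOpen_pi_iff.1 ho x rfl
    exact ⟨s, t, fun i hi => (h3 i hi).1, fun i hi => (h3 i hi).2, fun y hy => h4 hy⟩
  choose s t ht hx hs using h2
  have hc : IsCompact (Set.univ : Set (X I)) := isCompact_univ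
  obtain ⟨A, -, hA⟩ := hc.elim_nhds_subcover (fun x => {y | ∀ i ∈ s x, y i ∈ t x i}) (by
    intro x _
    refine IsOpen.mem_nhds ?_ (hx x)
    have h5 : {y : X I | ∀ i ∈ s x, y i ∈ t x i} = ⋂ i ∈ s x, (fun y : X I => y i) ⁻¹' t x i := by
      ext y
      simp
    rw [h5]
    exact isOpen_biInter_finset fun i hi => (ht x i hi).preimage (continuous_apply i))
  refine ⟨⋃ x ∈ A, (s x : Set I), A.finite_toSet.biUnion fun x _ => (s x).finite_toSet, ?_⟩
  intro y z hyz
  obtain ⟨x, hxA, hy⟩ := Set.mem_iUnion₂.1 (hA (Set.mem_univ y))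
  have hz : ∀ i ∈ s x, z i ∈ t x i := by
    intro i hi
    rw [← hyz i (Set.mem_iUnion₂.2 ⟨x, hxA, hi⟩)]
    exact hy i hi
  rw [hs x y hy, hs x z hz]

theorem ctb_sup (θ : X I ≃ₜ X I) {S : Set I} (hS : S.Countable) : ∃ T : Set I, T.Countable ∧
    ∀ x y : X I, (∀ i ∈ T, x i = y i) → ∀ i ∈ S, θ x i = θ y i := by
  have h1 : ∀ (i : I) (n : ℕ), ∃ T : Set I, T.Finite ∧ SupOn T fun x => θ x i n := fun i n =>
    fin_sup ((continuous_apply n).comp ((continuous_apply i).comp θ.continuous))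
  choose T hT hT' using h1
  refine ⟨⋃ i ∈ S, ⋃ n, T i n, hS.biUnion fun i _ => Set.countable_iUnion fun n =>
    (hT i n).countable, fun x y h i hi => ?_⟩
  funext n
  exact hT' i n x y fun j hj => h j (Set.mem_iUnion₂.2 ⟨i, hi, Set.mem_iUnion.2 ⟨n, hj⟩⟩)

theorem SupOn.comp_homeo {α : Type*} {f : X I → α} {S : Set I} (hS : S.Countable)
    (hf : SupOn S f) (θ : X I ≃ₜ X I) : ∃ T : Set I, T.Countable ∧ SupOn T fun x => f (θ x) := by
  obtain ⟨T, h1, h2⟩ := ctb_sup θ hS
  exact ⟨T, h1, fun x y h => hf _ _ (h2 x y h)⟩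

theorem LC.comp_homeo {α : Type*} {f : X I → α} (hf : LC f) (θ : X I ≃ₜ X I) :
    LC fun x => f (θ x) := by
  have h1 : {x | ∀ᶠ y in 𝓝 x, f (θ y) = f (θ x)} = θ ⁻¹' {x | ∀ᶠ y in 𝓝 x, f y = f x} := by
    ext x
    simp only [Set.mem_ofPred_eq, Set.mem_preimage]
    rw [← θ.map_nhds_eq x, eventually_map]
  unfold LC
  rw [h1]
  exact hf.preimage θ.isOpenMap

/-- The action on names. -/
def smR (θ : X I ≃ₜ X I) (f : NR I) : NR I :=
  ⟨fun x => f.1 (θ.symm x), by
    obtain ⟨S, h1, h2⟩ := f.2.1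
    exact h2.comp_homeo h1 θ.symm, fun n => (f.2.2 n).comp_homeo θ.symm⟩

/-- The action on names of colours. -/
def smC (θ : X I ≃ₜ X I) (h : NC I) : NC I :=
  ⟨fun x => h.1 (θ.symm x), by
    obtain ⟨S, h1, h2⟩ := h.2.1
    exact h2.comp_homeo h1 θ.symm, h.2.2.comp_homeo θ.symm⟩

/-- The action on pairs. -/
def smP (θ : X I ≃ₜ X I) (t : NR I × NC I) : NR I × NC I := (smR θ t.1, smC θ t.2)

theorem smP_mul (θ η : X I ≃ₜ X I) (t : NR I × NC I) : smP (θ * η) t = smP θ (smP η t) := rfl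

theorem smP_one (t : NR I × NC I) : smP 1 t = t := rfl

theorem on_homeo {U : Set (X I)} {φ : X I → Prop} (θ : X I ≃ₜ X I) (h : On U φ) :
    On (θ ⁻¹' U) fun x => φ (θ x) := by
  unfold On at *
  have h1 := h
  rw [← θ.residual_map_eq, eventually_map] at h1
  exact h1

theorem c2_homeo {r : Set (NR I × NC I)} (hr : C2 Γ r) (θ : X I ≃ₜ X I) : C2 Γ (smP θ '' r) := by
  rintro _ ⟨t, ht, rfl⟩ _ ⟨t', ht', rfl⟩ i U hU h
  have h1 := hr t ht t' ht' i (θ ⁻¹' U) (hU.preimage θ.continuous) (by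
    refine (on_homeo θ h).mono fun x hx hxU => ?_
    have h2 := hx hxU
    simp only [smP, smR, θ.symm_apply_apply] at h2
    exact h2)
  have h2 := on_homeo θ.symm h1
  refine h2.mono fun x hx hxU => hx ?_
  change θ (θ.symm x) ∈ U
  rwa [θ.apply_symm_apply]

theorem sp_homeo {r : Set (NR I × NC I)} {S : Set I} (hS : S.Countable) (hr : Sp S r)
    (θ : X I ≃ₜ X I) : ∃ T : Set I, T.Countable ∧ Sp T (smP θ '' r) := by
  obtain ⟨T, h1, h2⟩ := ctb_sup θ.symm hS
  refine ⟨T, h1, ?_⟩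
  rintro _ ⟨t, ht, rfl⟩
  exact ⟨fun x y h => (hr t ht).1 _ _ (h2 x y h), fun x y h => (hr t ht).2 _ _ (h2 x y h)⟩

/-- The action on colourings. -/
def smD (θ : X I ≃ₜ X I) (r : D I Γ) : D I Γ :=
  ⟨smP θ '' r.1, c2_homeo r.2.1 θ, by
    obtain ⟨S, h1, h2⟩ := r.2.2
    exact sp_homeo h1 h2 θ⟩

/-- The action on open sets. -/
def smU (θ : X I ≃ₜ X I) (U : U0 I) : U0 I :=
  ⟨θ '' U.1, θ.isOpenMap _ U.2.1, U.2.2.image _⟩

theorem smD_mul (θ η : X I ≃ₜ X I) (r : D I Γ) : smD (θ * η) r = smD θ (smD η r) := by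
  apply Subtype.ext
  simp only [smD, Set.image_image]
  rfl

theorem smD_one (r : D I Γ) : smD 1 r = r := by
  apply Subtype.ext
  simp only [smD, smP_one, Set.image_id']

theorem smU_mul (θ η : X I ≃ₜ X I) (U : U0 I) : smU (θ * η) U = smU θ (smU η U) := by
  apply Subtype.ext
  simp only [smU, Set.image_image]
  rfl

theorem smU_one (U : U0 I) : smU 1 U = U := by
  apply Subtype.ext
  exact Set.image_id U.1

/-- The action on the conditions. -/
def smQ (θ : X I ≃ₜ X I) : Q I Γ ≃o Q I Γ where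
  toFun q := (smD θ q.1, smU θ q.2)
  invFun q := (smD θ⁻¹ q.1, smU θ⁻¹ q.2)
  left_inv q := by
    simp only [← smD_mul, ← smU_mul, inv_mul_cancel, smD_one, smU_one]
  right_inv q := by
    simp only [← smD_mul, ← smU_mul, mul_inv_cancel, smD_one, smU_one]
  map_rel_iff' := by
    intro a b
    have key : ∀ (η : X I ≃ₜ X I) (a b : Q I Γ), a ≤ b →
        ((smD η a.1, smU η a.2) : Q I Γ) ≤ (smD η b.1, smU η b.2) := fun η a b h =>
      ⟨Set.image_mono h.1, Set.image_mono h.2⟩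
    constructor
    · intro h
      have h1 : ((smD θ⁻¹ (smD θ a.1), smU θ⁻¹ (smU θ a.2)) : Q I Γ) ≤
        (smD θ⁻¹ (smD θ b.1), smU θ⁻¹ (smU θ b.2)) := key θ⁻¹ _ _ h
      simp only [← smD_mul, ← smU_mul, inv_mul_cancel, smD_one, smU_one] at h1
      exact h1
    · exact key θ a b

/-- The homeomorphisms that do not change the coordinates in `S`. -/
def Fx (S : Set I) : Subgroup (X I ≃ₜ X I) where
  carrier := {θ | ∀ x, ∀ i ∈ S, θ x i = x i}
  one_mem' := fun _ _ _ => rfl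
  mul_mem' := by
    intro θ η h h' x i hi
    rw [Homeomorph.mul_apply, h _ i hi, h' _ i hi]
  inv_mem' := by
    intro θ h x i hi
    have h1 := h (θ⁻¹ x) i hi
    rw [← Homeomorph.mul_apply, mul_inv_cancel, Homeomorph.one_apply] at h1
    exact h1.symm

theorem mem_Fx {S : Set I} {θ : X I ≃ₜ X I} : θ ∈ Fx S ↔ ∀ x, ∀ i ∈ S, θ x i = x i := Iff.rfl

variable (I Γ) in
/-- The group of the homeomorphisms, and the subgroups that fix countably many coordinates. -/
def sys : SY.Sys (Q I Γ) where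
  G := X I ≃ₜ X I
  grp := inferInstance
  ac :=
    { toFun := smQ
      map_one' := by
        refine RelIso.ext fun q => ?_
        exact Prod.ext (smD_one _) (smU_one _)
      map_mul' := by
        intro θ η
        refine RelIso.ext fun q => ?_
        exact Prod.ext (smD_mul _ _ _) (smU_mul _ _ _) }
  top := fun θ => Prod.ext (Subtype.ext (Set.image_empty _))
    (Subtype.ext (Set.image_univ_of_surjective θ.surjective))
  F := {H | ∃ S : Set I, S.Countable ∧ H = Fx S}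
  ne := ⟨_, ∅, Set.countable_empty, rfl⟩
  conj := by
    rintro _ ⟨S, hS, rfl⟩ θ
    obtain ⟨T, h1, h2⟩ := ctb_sup θ⁻¹ hS
    refine ⟨_, ⟨T, h1, rfl⟩, fun k hk x i hi => ?_⟩
    change θ⁻¹ (k (θ x)) i = x i
    rw [h2 (k (θ x)) (θ x) (fun j hj => hk _ j hj) i hi]
    change (θ⁻¹ * θ) x i = x i
    rw [inv_mul_cancel]
    rfl
  dir := by
    intro H hH
    choose S hS hH using hH
    refine ⟨_, ⟨⋃ n, S n, Set.countable_iUnion hS, rfl⟩, fun n θ hθ => ?_⟩
    rw [hH n]
    exact fun x i hi => hθ x i (Set.mem_iUnion.2 ⟨n, hi⟩)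

end Pool.Agent.W910.BG
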