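import Pool.Agent.W910.BG.Stm

set_option autoImplicit false

namespace Pool.Agent.W910.BG.T_AMA

open Topology Filter Pool.Agent.W910.BG

variable {I : Type} {Γ : SimpleGraph (ℕ → ℕ)}

theorem lc_open {α : Type*} (f : X I → α) : IsOpen {x | ∀ᶠ y in 𝓝 x, f y = f x} := by
  rw [isOpen_iff_mem_nhds]
  intro x hx
  have h1 : ∀ᶠ y in 𝓝 x, ∀ᶠ z in 𝓝 y, f z = f x := eventually_eventually_nhds.2 hx
  have h2 : ∀ᶠ y in 𝓝 x, ∀ᶠ z in 𝓝 y, f z = f y := by
    filter_upwards [h1, hx] with y hy hy'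
    rw [hy']
    exact hy
  exact h2

theorem lc_res {α : Type*} {f : X I → α} (h : LC f) :
    ∀ᶠ x in residual (X I), ∀ᶠ y in 𝓝 x, f y = f x :=
  residual_of_dense_open (lc_open f) h

theorem mix_cont (T : Set I) (y0 : X I) : Continuous fun x : X I => mix T x y0 := by
  classical
  refine continuous_pi fun i => ?_
  unfold mix
  by_cases hi : i ∈ T
  · simp only [hi, if_true]
    exact continuous_apply i
  · simp only [hi, if_false]
    exact continuous_const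

theorem wp_symm {i : Bool} {y z : ℕ → ℕ} (h : WP Γ i y z) : WP Γ i z y := by
  obtain ⟨w, hw⟩ := h
  exact ⟨w.reverse, by rw [SimpleGraph.Walk.length_reverse]; exact hw⟩

theorem wp_trans {i : Bool} {x y z : ℕ → ℕ} (h : WP Γ i x z) (h' : WP Γ i y z) :
    WP Γ false x y := by
  obtain ⟨w, hw⟩ := h
  obtain ⟨w', hw'⟩ := h'
  refine ⟨w.append w'.reverse, ?_⟩
  rw [SimpleGraph.Walk.length_append, SimpleGraph.Walk.length_reverse, Nat.bodd_add, hw, hw']
  cases i <;> rfl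

theorem bx (a b c i : Bool) (h1 : a.xor c = false) (h2 : c.xor b = i) : a.xor b = i := by
  cases a <;> cases b <;> cases c <;> simp_all

theorem meets {U : Set (X I)} (hU : IsOpen U) (hne : U.Nonempty) {φ : X I → Prop}
    (h : ∀ᶠ x in residual (X I), φ x) : ∃ x ∈ U, φ x := by
  have h1 : Dense {x | φ x} := dense_of_mem_residual h
  obtain ⟨x, hx, hx'⟩ := h1.inter_open_nonempty U hU hne
  exact ⟨x, hx, hx'⟩

theorem key (hKU : S_KU) (S J₀ J₁ : Set I) (hS : S.Countable) (_hJ₀ : J₀.Countable)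
    (hJ₁ : J₁.Countable) (hd0 : Disjoint S J₀) (hd2 : Disjoint J₀ J₁)
    (r₀ r₁ r₂ : Set (NR I × NC I)) (_hsp : Sp S r₀) (htot : Tot S r₀) (h01 : r₀ ⊆ r₁)
    (h02 : r₀ ⊆ r₂) (hc1 : C2 Γ r₁) (hc2 : C2 Γ r₂) (hsp1 : Sp (S ∪ J₀) r₁)
    (hsp2 : Sp (S ∪ J₁) r₂) (t : NR I × NC I) (ht : t ∈ r₁) (t' : NR I × NC I) (ht' : t' ∈ r₂)
    (i : Bool) (U : Set (X I)) (hU : IsOpen U)
    (hW : On U (fun x => WP Γ i (t.1.1 x) (t'.1.1 x))) :
    On U fun x => (t.2.1 x).xor (t'.2.1 x) = i := by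
  classical
  filter_upwards [lc_res t.2.2.2, lc_res t'.2.2.2] with x0 h1 h2 hx0
  by_contra hne
  have hV : U ∩ {y | t.2.1 y = t.2.1 x0 ∧ t'.2.1 y = t'.2.1 x0} ∈ 𝓝 x0 :=
    Filter.inter_mem (hU.mem_nhds hx0) (h1.and h2)
  obtain ⟨V, hVs, hVo, hxV⟩ := mem_nhds_iff.1 hV
  obtain ⟨s, u, hu, hsV⟩ := isOpen_pi_iff.1 hVo x0 hxV
  set T : Set I := S ∪ J₁ with hT
  set BT : Set (X I) := {x | ∀ a ∈ s, a ∈ T → x a ∈ u a} with hBT
  set BC : Set (X I) := {x | ∀ a ∈ s, a ∉ T → x a ∈ u a} with hBC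
  have hBTo : IsOpen BT := by
    have e : BT = ⋂ a ∈ s, ⋂ (_ : a ∈ T), (fun x : X I => x a) ⁻¹' u a := by
      ext x
      simp [hBT]
    rw [e]
    refine isOpen_biInter_finset fun a ha => isOpen_iInter_of_finite fun _ => ?_
    exact (hu a ha).1.preimage (continuous_apply a)
  have hBCo : IsOpen BC := by
    have e : BC = ⋂ a ∈ s, ⋂ (_ : a ∉ T), (fun x : X I => x a) ⁻¹' u a := by
      ext x
      simp [hBC]
    rw [e]
    refine isOpen_biInter_finset fun a ha => isOpen_iInter_of_finite fun _ => ?_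
    exact (hu a ha).1.preimage (continuous_apply a)
  have hB : BT ∩ BC ⊆ V := by
    rintro x ⟨hx1, hx2⟩
    apply hsV
    intro a ha
    by_cases haT : a ∈ T
    · exact hx1 a ha haT
    · exact hx2 a ha haT
  have hx0T : x0 ∈ BT := fun a ha _ => (hu a ha).2
  have hx0C : x0 ∈ BC := fun a ha _ => (hu a ha).2
  -- the residual set
  have hA : ∀ᶠ z in residual (X I), (z ∈ BT ∩ BC → WP Γ i (t.1.1 z) (t'.1.1 z)) ∧
      ∀ n, ∀ᶠ y in 𝓝 z, t.1.1 y n = t.1.1 z n := by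
    refine Filter.Eventually.and ?_ ?_
    · filter_upwards [hW] with z hz hzB
      exact hz (hVs (hB hzB)).1
    · rw [eventually_countable_forall]
      exact fun n => lc_res (t.1.2.2 n)
  have hTc : T.Countable := hS.union hJ₁
  have hku := hKU I T hTc _ hA
  obtain ⟨y0, hy0C, hy0⟩ := meets hBCo ⟨x0, hx0C⟩ hku
  have hsup : SupOn S (fun x => t.1.1 (mix T x y0)) := by
    intro x y hxy
    apply (hsp1 t ht).1
    rintro a (ha | ha)
    · have haT : a ∈ T := Or.inl ha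
      simp only [mix, haT, if_true]
      exact hxy a ha
    · have haT : a ∉ T := by
        rintro (h | h)
        · exact Set.disjoint_left.1 hd0 h ha
        · exact Set.disjoint_left.1 hd2 ha h
      simp only [mix, haT, if_false]
  have hLC : ∀ n, LC fun x => t.1.1 (mix T x y0) n := by
    intro n
    have h3 : ∀ᶠ x in residual (X I), ∀ᶠ y in 𝓝 x,
        t.1.1 (mix T y y0) n = t.1.1 (mix T x y0) n := by
      filter_upwards [hy0] with x hx
      exact ((mix_cont T y0).tendsto x).eventually (hx.2 n)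
    exact dense_of_mem_residual h3
  obtain ⟨k, hk⟩ := htot ⟨fun x => t.1.1 (mix T x y0), ⟨S, hS, hsup⟩, hLC⟩ hsup
  -- `v` and `f'`
  have hw2 : ∀ᶠ x in residual (X I), x ∈ BT →
      WP Γ i (t.1.1 (mix T x y0)) (t'.1.1 x) := by
    filter_upwards [hy0] with x hx hxT
    have hmem : mix T x y0 ∈ BT ∩ BC := by
      refine ⟨fun a ha haT => ?_, fun a ha haT => ?_⟩
      · simp only [mix, haT, if_true]
        exact hxT a ha haT
      · simp only [mix, haT, if_false]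
        exact hy0C a ha haT
    have h4 := hx.1 hmem
    have h5 : t'.1.1 (mix T x y0) = t'.1.1 x := by
      apply (hsp2 t' ht').1
      intro a ha
      have haT : a ∈ T := ha
      simp only [mix, haT, if_true]
    rw [h5] at h4
    exact h4
  have g2 := hc2 _ (h02 hk) t' ht' i BT hBTo hw2
  have hw1 : ∀ᶠ x in residual (X I), x ∈ BT ∩ BC →
      WP Γ false (t.1.1 x) (t.1.1 (mix T x y0)) := by
    filter_upwards [hw2, hW] with x hx1 hx2 hxB
    exact wp_trans (hx2 (hVs (hB hxB)).1) (hx1 hxB.1)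
  have g1 := hc1 t ht _ (h01 hk) false (BT ∩ BC) (hBTo.inter hBCo) hw1
  have hfin : ∀ᶠ x in residual (X I), x ∈ BT ∩ BC → (t.2.1 x).xor (t'.2.1 x) = i := by
    filter_upwards [g1, g2] with x hx1 hx2 hxB
    exact bx _ _ _ _ (hx1 hxB) (hx2 hxB.1)
  obtain ⟨x, hxB, hx⟩ := meets (hBTo.inter hBCo) ⟨x0, hx0T, hx0C⟩ hfin
  have e3 := hx hxB
  have e4 := (hVs (hB hxB)).2
  rw [e4.1, e4.2] at e3
  exact hne e3

theorem main (hKU : S_KU) : S_AMA := by
  intro I Γ _ S J₀ J₁ hS hJ₀ hJ₁ hd0 hd1 hd2 r₀ r₁ r₂ hsp htot h01 h02 hc1 hc2 hsp1 hsp2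
  have K := key (Γ := Γ) hKU S J₀ J₁ hS hJ₀ hJ₁ hd0 hd2 r₀ r₁ r₂ hsp htot h01 h02 hc1 hc2 hsp1 hsp2
  rintro t (ht | ht) t' (ht' | ht') i U hU hW
  · exact hc1 t ht t' ht' i U hU hW
  · exact K t ht t' ht' i U hU hW
  · have := K t' ht' t ht i U hU (hW.mono fun x hx hxU => wp_symm (hx hxU))
    refine this.mono fun x hx hxU => ?_
    exact (Bool.xor_comm _ _).trans (hx hxU)
  · exact hc2 t ht t' ht' i U hU hW

end Pool.Agent.W910.BG.T_AMA
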