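import Pool.Agent.W910.BG.Stm

/-!
# Three copies of a condition
-/

set_option autoImplicit false

namespace Pool.Agent.W910.BG.T_CONF

open Topology Filter Pool.Agent.W910.BG

section
variable {I : Type} {Γ : SimpleGraph (ℕ → ℕ)}

/-- a homeomorphism from an involution -/
def invo (T : X I → X I) (hc : Continuous T) (hi : ∀ x, T (T x) = x) : X I ≃ₜ X I :=
  ⟨⟨T, T, hi, hi⟩, hc, hc⟩

/-- permutation of the coordinates by an involution -/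
def sw (σ : I → I) (hσ : ∀ a, σ (σ a) = a) : X I ≃ₜ X I :=
  invo (fun x a => x (σ a)) (by fun_prop) (fun x => by funext a; simp [hσ])

theorem sw_apply (σ : I → I) (hσ : ∀ a, σ (σ a) = a) (x : X I) (a : I) :
    sw σ hσ x a = x (σ a) := rfl

open Classical in
/-- shear -/
noncomputable def shf (a b : I) (A : ℕ → Bool) (x : X I) : X I :=
  Function.update x a (fun n => ((x a n).xor (x b n)).xor (A n))

theorem shf_same (a b : I) (A : ℕ → Bool) (x : X I) :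
    shf a b A x a = fun n => ((x a n).xor (x b n)).xor (A n) := by
  simp [shf]

theorem shf_ne (a b : I) (A : ℕ → Bool) (x : X I) {i : I} (hi : i ≠ a) : shf a b A x i = x i := by
  simp [shf, hi]

/-- shear -/
noncomputable def shr (a b : I) (hab : a ≠ b) (A : ℕ → Bool) : X I ≃ₜ X I :=
  invo (shf a b A) (by
    classical
    unfold shf
    refine continuous_id.update a ?_
    refine continuous_pi fun n => ?_
    have h1 : Continuous fun p : Bool × Bool => (p.1.xor p.2).xor (A n) :=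
      continuous_of_discreteTopology
    have h2 : Continuous fun x : X I => (x a n, x b n) := by fun_prop
    exact h1.comp h2) (fun x => by
    funext i
    by_cases hi : i = a
    · rw [hi, shf_same]
      funext n
      rw [shf_same, shf_ne a b A x hab.symm]
      change ((((x a n).xor (x b n)).xor (A n)).xor (x b n)).xor (A n) = x a n
      cases x a n <;> cases x b n <;> cases A n <;> rfl
    · rw [shf_ne a b A _ hi, shf_ne a b A _ hi])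

theorem shr_apply (a b : I) (hab : a ≠ b) (A : ℕ → Bool) (x : X I) :
    shr a b hab A x = shf a b A x := rfl

/-- cylinders -/
theorem cyl {U : Set (X I)} (hU : IsOpen U) {p : X I} (hp : p ∈ U) :
    ∃ (s : Finset I) (N : ℕ), ∀ x : X I, (∀ a ∈ s, ∀ n < N, x a n = p a n) → x ∈ U := by
  classical
  obtain ⟨s, u, h1, h2⟩ := isOpen_pi_iff.1 hU p hp
  have h3 : ∀ a, ∃ F : Finset ℕ, a ∈ s → ∀ y : ℕ → Bool, (∀ n ∈ F, y n = p a n) → y ∈ u a := by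
    intro a
    by_cases ha : a ∈ s
    · obtain ⟨F, v, h4, h5⟩ := isOpen_pi_iff.1 (h1 a ha).1 (p a) (h1 a ha).2
      refine ⟨F, fun _ y hy => h5 fun n hn => ?_⟩
      rw [hy n hn]
      exact (h4 n hn).2
    · exact ⟨∅, fun h => absurd h ha⟩
  choose F hF using h3
  obtain ⟨N, hN⟩ : ∃ N : ℕ, ∀ a ∈ s, ∀ n ∈ F a, n < N := by
    refine ⟨((s.biUnion F).sup id) + 1, fun a ha n hn => ?_⟩
    have : n ≤ (s.biUnion F).sup id :=
      Finset.le_sup (f := id) (Finset.mem_biUnion.2 ⟨a, ha, hn⟩)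
    omega
  refine ⟨s, N, fun x hx => h2 fun a ha => hF a ha (x a) fun n hn => hx a ha n (hN a ha n hn)⟩

open Classical in
/-- exchange of `a` and `j a` for `a ∈ J` -/
noncomputable def ex (J : Set I) (j : I → I) (a : I) : I :=
  if a ∈ J then j a else if h : ∃ b ∈ J, j b = a then h.choose else a

theorem ex_mem {J : Set I} {j : I → I} {a : I} (h : a ∈ J) : ex J j a = j a := by
  simp [ex, h]

theorem ex_img {J : Set I} {j : I → I} (hj : ∀ a ∈ J, j a ∉ J) (hi : Set.InjOn j J) {a : I}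
    (h : a ∈ J) : ex J j (j a) = a := by
  have h1 : ∃ b ∈ J, j b = j a := ⟨a, h, rfl⟩
  unfold ex
  rw [if_neg (hj a h), dif_pos h1]
  exact hi h1.choose_spec.1 h h1.choose_spec.2

theorem ex_out {J : Set I} {j : I → I} {a : I} (h : a ∉ J) (h' : ∀ b ∈ J, j b ≠ a) :
    ex J j a = a := by
  unfold ex
  rw [if_neg h, dif_neg]
  rintro ⟨b, hb, hb'⟩
  exact h' b hb hb'

theorem ex_ex {J : Set I} {j : I → I} (hj : ∀ a ∈ J, j a ∉ J) (hi : Set.InjOn j J) (a : I) :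
    ex J j (ex J j a) = a := by
  by_cases h : a ∈ J
  · rw [ex_mem h, ex_img hj hi h]
  · by_cases h' : ∃ b ∈ J, j b = a
    · obtain ⟨b, hb, rfl⟩ := h'
      rw [ex_img hj hi hb, ex_mem hb]
    · push Not at h'
      rw [ex_out h h', ex_out h h']

/-- names only depend on the coordinates -/
theorem smP_congr {W : Set I} {r : Set (NR I × NC I)} (hr : Sp W r) (T T' : X I ≃ₜ X I)
    (h : ∀ x, ∀ i ∈ W, T x i = T' x i) : smP T.symm '' r = smP T'.symm '' r := by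
  refine Set.image_congr fun t ht => ?_
  refine Prod.ext (Subtype.ext (funext fun x => ?_)) (Subtype.ext (funext fun x => ?_))
  · exact (hr t ht).1 _ _ (h x)
  · exact (hr t ht).2 _ _ (h x)

theorem smP_id {W : Set I} {r : Set (NR I × NC I)} (hr : Sp W r) (T : X I ≃ₜ X I)
    (h : ∀ x, ∀ i ∈ W, T x i = x i) : smP T.symm '' r = r := by
  rw [smP_congr hr T (Homeomorph.refl _) h]
  exact Set.image_id' r

theorem sp_comp {W W' : Set I} {r : Set (NR I × NC I)} (hr : Sp W r) (T : X I ≃ₜ X I)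
    (h : ∀ x y : X I, (∀ i ∈ W', x i = y i) → ∀ i ∈ W, T x i = T y i) :
    Sp W' (smP T.symm '' r) := by
  rintro _ ⟨t, ht, rfl⟩
  exact ⟨fun x y hxy => (hr t ht).1 _ _ (h x y hxy), fun x y hxy => (hr t ht).2 _ _ (h x y hxy)⟩

theorem smP_trans (r : Set (NR I × NC I)) (Z P : X I ≃ₜ X I) :
    smP (Z.trans P).symm '' r = smP Z.symm '' (smP P.symm '' r) := by
  rw [Set.image_image]
  rfl

theorem c2_three {r r' r'' : Set (NR I × NC I)} (h1 : C2 Γ (r ∪ r')) (h2 : C2 Γ (r ∪ r''))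
    (h3 : C2 Γ (r' ∪ r'')) : C2 Γ (r ∪ r' ∪ r'') := by
  rintro t ((ht | ht) | ht) t' ((ht' | ht') | ht')
  · exact h1 t (Or.inl ht) t' (Or.inl ht')
  · exact h1 t (Or.inl ht) t' (Or.inr ht')
  · exact h2 t (Or.inl ht) t' (Or.inr ht')
  · exact h1 t (Or.inr ht) t' (Or.inl ht')
  · exact h1 t (Or.inr ht) t' (Or.inr ht')
  · exact h3 t (Or.inl ht) t' (Or.inr ht')
  · exact h2 t (Or.inr ht) t' (Or.inl ht')
  · exact h3 t (Or.inr ht) t' (Or.inl ht')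
  · exact h3 t (Or.inr ht) t' (Or.inr ht')

theorem exists_j (hI : Uncountable I) (J W : Set I) (hJ : J.Countable) (hW : W.Countable) :
    ∃ j₁ j₂ : I → I, Set.InjOn j₁ J ∧ Set.InjOn j₂ J ∧ (∀ a, j₁ a ∉ W) ∧ (∀ a, j₂ a ∉ W) ∧
      ∀ a b, j₁ a ≠ j₂ b := by
  have hinf : (Wᶜ : Set I).Infinite := by
    intro h
    have h1 : (Set.univ : Set I).Countable := by
      rw [← Set.union_compl_self W]
      exact hW.union h.countable
    exact hI.not_countable (Set.countable_univ_iff.1 h1)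
  have := hinf.to_subtype
  let E := Infinite.natEmbedding (Wᶜ : Set I)
  obtain ⟨G, hG⟩ := Set.countable_iff_exists_injOn.1 hJ
  refine ⟨fun a => E (2 * G a), fun a => E (2 * G a + 1), ?_, ?_, fun a => (E _).2,
    fun a => (E _).2, ?_⟩
  · intro a ha b hb h
    have h1 := E.injective (Subtype.ext h)
    exact hG ha hb (by omega)
  · intro a ha b hb h
    have h1 := E.injective (Subtype.ext h)
    exact hG ha hb (by omega)
  · intro a b h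
    have h1 := E.injective (Subtype.ext h)
    omega

end

theorem main (hAMA : S_AMA) : S_CONF := by
  intro I Γ hI hΓ S r₀ r₁ U₁ β e hS hr₀ hTot hle hβ
  classical
  obtain ⟨S₁, hS₁, hr₁⟩ := r₁.2.2
  obtain ⟨p, hp⟩ := U₁.2.2
  obtain ⟨s, N, hs⟩ := cyl U₁.2.1 hp
  obtain ⟨J₀, hJ₀⟩ : ∃ J₀ : Set I, J₀ = (S₁ ∪ {β}) \ S := ⟨_, rfl⟩
  have hJ₀c : J₀.Countable := by
    rw [hJ₀]
    exact (hS₁.union (Set.countable_singleton β)).mono Set.sdiff_subset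
  have hβJ : β ∈ J₀ := by
    rw [hJ₀]
    exact ⟨Or.inr rfl, hβ⟩
  have hJS : ∀ i ∈ J₀, i ∉ S := by
    intro i hi
    rw [hJ₀] at hi
    exact hi.2
  have hsub : ∀ i ∈ S₁, i ∈ S ∪ J₀ := fun i hi => by
    by_cases h : i ∈ S
    · exact Or.inl h
    · right
      rw [hJ₀]
      exact ⟨Or.inl hi, h⟩
  have hsp₁ : Sp (S ∪ J₀) r₁.1 := fun t ht =>
    ⟨fun x y h => (hr₁ t ht).1 x y fun i hi => h i (hsub i hi),
      fun x y h => (hr₁ t ht).2 x y fun i hi => h i (hsub i hi)⟩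
  obtain ⟨j₁, j₂, i₁, i₂, w₁, w₂, hne⟩ := exists_j hI J₀ (S ∪ J₀ ∪ (s : Set I)) hJ₀c
    ((hS.union hJ₀c).union s.countable_toSet)
  have n₁ : ∀ a ∈ J₀, j₁ a ∉ J₀ := fun a _ h => w₁ a (Or.inl (Or.inr h))
  have n₂ : ∀ a ∈ J₀, j₂ a ∉ J₀ := fun a _ h => w₂ a (Or.inl (Or.inr h))
  have m₁ : ∀ a, j₁ a ∉ S := fun a h => w₁ a (Or.inl (Or.inl h))
  have m₂ : ∀ a, j₂ a ∉ S := fun a h => w₂ a (Or.inl (Or.inl h))
  have l₁ : ∀ a, j₁ a ∉ s := fun a h => w₁ a (Or.inr h)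
  have l₂ : ∀ a, j₂ a ∉ s := fun a h => w₂ a (Or.inr h)
  obtain ⟨P₁, hP₁⟩ : ∃ P : X I ≃ₜ X I, ∀ x a, P x a = x (ex J₀ j₁ a) :=
    ⟨sw (ex J₀ j₁) (ex_ex n₁ i₁), fun x a => rfl⟩
  obtain ⟨P₂, hP₂⟩ : ∃ P : X I ≃ₜ X I, ∀ x a, P x a = x (ex J₀ j₂ a) :=
    ⟨sw (ex J₀ j₂) (ex_ex n₂ i₂), fun x a => rfl⟩
  obtain ⟨A, hA⟩ : ∃ A : ℕ → Bool, ∀ n, A n = if n < N then p β n else e :=
    ⟨fun n => if n < N then p β n else e, fun n => rfl⟩
  obtain ⟨b₁, hb₁⟩ : ∃ b, b = j₁ β := ⟨_, rfl⟩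
  obtain ⟨b₂, hb₂⟩ : ∃ b, b = j₂ β := ⟨_, rfl⟩
  have hb₁β : b₁ ≠ β := fun h => n₁ β hβJ (by rw [← hb₁, h]; exact hβJ)
  have hb₂β : b₂ ≠ β := fun h => n₂ β hβJ (by rw [← hb₂, h]; exact hβJ)
  have hb₁₂ : b₁ ≠ b₂ := by
    rw [hb₁, hb₂]
    exact hne β β
  obtain ⟨Z₀, hZ₀b, hZ₀⟩ : ∃ Z : X I ≃ₜ X I,
      (∀ x n, Z x b₂ n = ((x b₁ n).xor (x β n)).xor (A n)) ∧
      ∀ x i, i ≠ b₁ → i ≠ b₂ → Z x i = x i := by
    refine ⟨(shr b₁ β hb₁β A).trans (sw (Equiv.swap b₁ b₂) (by simp)), fun x n => ?_,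
      fun x i h1 h2 => ?_⟩
    · change shf b₁ β A x (Equiv.swap b₁ b₂ b₂) n = _
      rw [Equiv.swap_apply_right, shf_same]
    · change shf b₁ β A x (Equiv.swap b₁ b₂ i) = _
      rw [Equiv.swap_apply_of_ne_of_ne h1 h2, shf_ne _ _ _ _ h1]
  obtain ⟨Z₁, hZ₁b, hZ₁⟩ : ∃ Z : X I ≃ₜ X I,
      (∀ x n, Z x b₂ n = ((x β n).xor (x b₁ n)).xor (A n)) ∧
      ∀ x i, i ≠ β → i ≠ b₂ → Z x i = x i := by
    refine ⟨(shr β b₁ hb₁β.symm A).trans (sw (Equiv.swap β b₂) (by simp)), fun x n => ?_,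
      fun x i h1 h2 => ?_⟩
    · change shf β b₁ A x (Equiv.swap β b₂ b₂) n = _
      rw [Equiv.swap_apply_right, shf_same]
    · change shf β b₁ A x (Equiv.swap β b₂ i) = _
      rw [Equiv.swap_apply_of_ne_of_ne h1 h2, shf_ne _ _ _ _ h1]
  -- the permutations and `S`
  have e₁S : ∀ i, i ∉ J₀ → (∀ a ∈ J₀, j₁ a ≠ i) → ex J₀ j₁ i = i := fun i h h' => ex_out h h'
  have s₁ : ∀ i ∈ S, ex J₀ j₁ i = i := fun i hi =>
    ex_out (fun h => hJS i h hi) fun a _ h => m₁ a (h ▸ hi)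
  have s₂ : ∀ i ∈ S, ex J₀ j₂ i = i := fun i hi =>
    ex_out (fun h => hJS i h hi) fun a _ h => m₂ a (h ▸ hi)
  have hP₁S : ∀ x, ∀ i ∈ S, P₁ x i = x i := fun x i hi => by rw [hP₁, s₁ i hi]
  have hP₂S : ∀ x, ∀ i ∈ S, P₂ x i = x i := fun x i hi => by rw [hP₂, s₂ i hi]
  have bS₁ : ∀ i ∈ S, i ≠ b₁ := fun i hi h => m₁ β (by rw [← hb₁, ← h]; exact hi)
  have bS₂ : ∀ i ∈ S, i ≠ b₂ := fun i hi h => m₂ β (by rw [← hb₂, ← h]; exact hi)
  have bJ₁ : ∀ i ∈ J₀, i ≠ b₁ := fun i hi h => n₁ β hβJ (by rw [← hb₁, ← h]; exact hi)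
  have bJ₂ : ∀ i ∈ J₀, i ≠ b₂ := fun i hi h => n₂ β hβJ (by rw [← hb₂, ← h]; exact hi)
  -- amalgamation
  have hdS0 : Disjoint S J₀ := Set.disjoint_left.2 fun i h h' => hJS i h' h
  have hdS1 : Disjoint S (j₁ '' J₀) := Set.disjoint_left.2 (by
    rintro i h ⟨a, _, rfl⟩
    exact m₁ a h)
  have hdS2 : Disjoint S (j₂ '' J₀) := Set.disjoint_left.2 (by
    rintro i h ⟨a, _, rfl⟩
    exact m₂ a h)
  have hd01 : Disjoint J₀ (j₁ '' J₀) := Set.disjoint_left.2 (by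
    rintro i h ⟨a, ha, rfl⟩
    exact n₁ a ha h)
  have hd02 : Disjoint J₀ (j₂ '' J₀) := Set.disjoint_left.2 (by
    rintro i h ⟨a, ha, rfl⟩
    exact n₂ a ha h)
  have hd12 : Disjoint (j₁ '' J₀) (j₂ '' J₀) := Set.disjoint_left.2 (by
    rintro i ⟨b, hb, rfl⟩ ⟨a, ha, h⟩
    exact hne b a h.symm)
  have q₁ : r₀.1 ⊆ smP P₁.symm '' r₁.1 := by
    have h := smP_id hr₀ P₁ hP₁S
    calc r₀.1 = smP P₁.symm '' r₀.1 := h.symm
      _ ⊆ _ := Set.image_mono hle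
  have q₂ : r₀.1 ⊆ smP P₂.symm '' r₁.1 := by
    have h := smP_id hr₀ P₂ hP₂S
    calc r₀.1 = smP P₂.symm '' r₀.1 := h.symm
      _ ⊆ _ := Set.image_mono hle
  have sp₁ : Sp (S ∪ j₁ '' J₀) (smP P₁.symm '' r₁.1) := sp_comp hsp₁ P₁ (by
    rintro x y h i (hi | hi)
    · rw [hP₁S x i hi, hP₁S y i hi]
      exact h i (Or.inl hi)
    · rw [hP₁, hP₁, ex_mem hi]
      exact h _ (Or.inr ⟨i, hi, rfl⟩))
  have sp₂ : Sp (S ∪ j₂ '' J₀) (smP P₂.symm '' r₁.1) := sp_comp hsp₁ P₂ (by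
    rintro x y h i (hi | hi)
    · rw [hP₂S x i hi, hP₂S y i hi]
      exact h i (Or.inl hi)
    · rw [hP₂, hP₂, ex_mem hi]
      exact h _ (Or.inr ⟨i, hi, rfl⟩))
  have C01 : C2 Γ (r₁.1 ∪ smP P₁.symm '' r₁.1) := hAMA I Γ hΓ S J₀ (j₁ '' J₀) hS hJ₀c
    (hJ₀c.image _) hdS0 hdS1 hd01 r₀.1 _ _ hr₀ hTot hle q₁ r₁.2.1 (c2_homeo r₁.2.1 _) hsp₁ sp₁
  have C02 : C2 Γ (r₁.1 ∪ smP P₂.symm '' r₁.1) := hAMA I Γ hΓ S J₀ (j₂ '' J₀) hS hJ₀c
    (hJ₀c.image _) hdS0 hdS2 hd02 r₀.1 _ _ hr₀ hTot hle q₂ r₁.2.1 (c2_homeo r₁.2.1 _) hsp₁ sp₂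
  have C12 : C2 Γ (smP P₁.symm '' r₁.1 ∪ smP P₂.symm '' r₁.1) := hAMA I Γ hΓ S (j₁ '' J₀)
    (j₂ '' J₀) hS (hJ₀c.image _) (hJ₀c.image _) hdS1 hdS2 hd12 r₀.1 _ _ hr₀ hTot q₁ q₂
    (c2_homeo r₁.2.1 _) (c2_homeo r₁.2.1 _) sp₁ sp₂
  have hagree : ∀ x, ∀ i ∈ S ∪ J₀, (Z₀.trans P₂) x i = (Z₁.trans P₂) x i := by
    intro x i hi
    change P₂ (Z₀ x) i = P₂ (Z₁ x) i
    rw [hP₂, hP₂]
    rcases hi with hi | hi
    · have hiβ : i ≠ β := fun h => hβ (h ▸ hi)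
      rw [s₂ i hi, hZ₀ x i (bS₁ i hi) (bS₂ i hi), hZ₁ x i hiβ (bS₂ i hi)]
    · rw [ex_mem hi]
      by_cases hiβ : i = β
      · rw [hiβ, ← hb₂]
        funext n
        rw [hZ₀b, hZ₁b, Bool.xor_comm (x b₁ n)]
      · have k1 : j₂ i ≠ b₁ := by
          rw [hb₁]
          exact (hne β i).symm
        have k2 : j₂ i ≠ b₂ := by
          rw [hb₂]
          exact fun h => hiβ (i₂ hi hβJ h)
        have k3 : j₂ i ≠ β := fun h => n₂ i hi (h ▸ hβJ)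
        rw [hZ₀ x _ k1 k2, hZ₁ x _ k3 k2]
  have D0 : C2 Γ (r₁.1 ∪ smP (Z₀.trans P₂).symm '' r₁.1) := by
    have e1 : smP Z₀.symm '' r₁.1 = r₁.1 := smP_id hsp₁ Z₀ (by
      rintro x i (hi | hi)
      · exact hZ₀ x i (bS₁ i hi) (bS₂ i hi)
      · exact hZ₀ x i (bJ₁ i hi) (bJ₂ i hi))
    have e2 : r₁.1 ∪ smP (Z₀.trans P₂).symm '' r₁.1 =
        smP Z₀.symm '' (r₁.1 ∪ smP P₂.symm '' r₁.1) := by
      rw [Set.image_union, e1, smP_trans]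
    rw [e2]
    exact c2_homeo C02 _
  have D1 : C2 Γ (smP P₁.symm '' r₁.1 ∪ smP (Z₀.trans P₂).symm '' r₁.1) := by
    have e1 : smP Z₁.symm '' (smP P₁.symm '' r₁.1) = smP P₁.symm '' r₁.1 := smP_id sp₁ Z₁ (by
      rintro x i (hi | ⟨a, ha, rfl⟩)
      · exact hZ₁ x i (fun h => hβ (h ▸ hi)) (bS₂ i hi)
      · refine hZ₁ x _ (fun h => n₁ a ha (h ▸ hβJ)) ?_
        rw [hb₂]
        exact hne a β)
    have e2 : smP P₁.symm '' r₁.1 ∪ smP (Z₀.trans P₂).symm '' r₁.1 =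
        smP Z₁.symm '' (smP P₁.symm '' r₁.1 ∪ smP P₂.symm '' r₁.1) := by
      rw [Set.image_union, e1, smP_congr hsp₁ (Z₀.trans P₂) (Z₁.trans P₂) hagree, smP_trans]
    rw [e2]
    exact c2_homeo C12 _
  obtain ⟨T₁, hT₁, hT₁'⟩ := sp_homeo hS₁ hr₁ P₁.symm
  obtain ⟨T₂, hT₂, hT₂'⟩ := sp_homeo hS₁ hr₁ (Z₀.trans P₂).symm
  have hspU : Sp (S₁ ∪ T₁ ∪ T₂) (r₁.1 ∪ smP P₁.symm '' r₁.1 ∪ smP (Z₀.trans P₂).symm '' r₁.1) := by
    rintro t ((ht | ht) | ht)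
    · exact ⟨fun x y h => (hr₁ t ht).1 x y fun i hi => h i (Or.inl (Or.inl hi)),
        fun x y h => (hr₁ t ht).2 x y fun i hi => h i (Or.inl (Or.inl hi))⟩
    · exact ⟨fun x y h => (hT₁' t ht).1 x y fun i hi => h i (Or.inl (Or.inr hi)),
        fun x y h => (hT₁' t ht).2 x y fun i hi => h i (Or.inl (Or.inr hi))⟩
    · exact ⟨fun x y h => (hT₂' t ht).1 x y fun i hi => h i (Or.inr hi),
        fun x y h => (hT₂' t ht).2 x y fun i hi => h i (Or.inr hi)⟩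
  -- the open set
  obtain ⟨B, hB⟩ : ∃ B : Set (X I), B = {x | ∀ a ∈ insert β s, ∀ n < N, x a n = p a n} := ⟨_, rfl⟩
  have hBo : IsOpen B := by
    have h1 : B = ⋂ a ∈ insert β s, ⋂ n ∈ Finset.range N, {x : X I | x a n = p a n} := by
      rw [hB]
      ext x
      simp only [Set.mem_ofPred_eq, Set.mem_iInter, Finset.mem_range]
    rw [h1]
    refine isOpen_biInter_finset fun a _ => isOpen_biInter_finset fun n _ => ?_
    exact (isOpen_discrete ({p a n} : Set Bool)).preimage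
      (f := fun x : X I => x a n) (by fun_prop)
  have hBU : B ⊆ U₁.1 := by
    intro x hx
    rw [hB] at hx
    exact hs x fun a ha n hn => hx a (Finset.mem_insert_of_mem ha) n hn
  have nb₁ : ∀ a ∈ insert β s, ∀ b, j₁ b ≠ a := by
    intro a ha b h
    rcases Finset.mem_insert.1 ha with h1 | h1
    · exact w₁ b (Or.inl (Or.inr (by rw [h, h1]; exact hβJ)))
    · exact l₁ b (h ▸ h1)
  have nb₂ : ∀ a ∈ insert β s, ∀ b, j₂ b ≠ a := by
    intro a ha b h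
    rcases Finset.mem_insert.1 ha with h1 | h1
    · exact w₂ b (Or.inl (Or.inr (by rw [h, h1]; exact hβJ)))
    · exact l₂ b (h ▸ h1)
  obtain ⟨x, hx1, hx2, hx3⟩ : ∃ x : X I, (∀ a ∈ J₀, x (j₁ a) = p a) ∧ (∀ a ∈ J₀, x (j₂ a) = p a) ∧
      ∀ a ∈ insert β s, x a = p a := by
    refine ⟨fun a => if a ∈ j₁ '' J₀ then p (ex J₀ j₁ a) else if a ∈ j₂ '' J₀ then
      p (ex J₀ j₂ a) else p a, fun a ha => ?_, fun a ha => ?_, fun a ha => ?_⟩
    · simp only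
      rw [if_pos ⟨a, ha, rfl⟩, ex_img n₁ i₁ ha]
    · simp only
      rw [if_neg (by rintro ⟨b, _, h⟩; exact hne b a h), if_pos ⟨a, ha, rfl⟩, ex_img n₂ i₂ ha]
    · simp only
      rw [if_neg (by rintro ⟨b, _, h⟩; exact nb₁ a ha b h),
        if_neg (by rintro ⟨b, _, h⟩; exact nb₂ a ha b h)]
  have hxB : x ∈ B := by
    rw [hB]
    intro a ha n _
    rw [hx3 a ha]
  have hxB₁ : P₁ x ∈ B := by
    rw [hB]
    intro a ha n _
    rw [hP₁]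
    by_cases h : a ∈ J₀
    · rw [ex_mem h, hx1 a h]
    · rw [ex_out h fun b _ => nb₁ a ha b, hx3 a ha]
  have hxB₂ : (Z₀.trans P₂) x ∈ B := by
    rw [hB]
    intro a ha n hn
    change P₂ (Z₀ x) a n = _
    rw [hP₂]
    by_cases h : a ∈ J₀
    · rw [ex_mem h]
      by_cases haβ : a = β
      · rw [haβ, ← hb₂, hZ₀b, hb₁, hx1 β hβJ, hx3 β (Finset.mem_insert_self β s), hA, if_pos hn]
        cases p β n <;> rfl
      · have k1 : j₂ a ≠ b₁ := by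
          rw [hb₁]
          exact (hne β a).symm
        have k2 : j₂ a ≠ b₂ := by
          rw [hb₂]
          exact fun h' => haβ (i₂ h hβJ h')
        rw [hZ₀ x _ k1 k2, hx2 a h]
    · rw [ex_out h fun b _ => nb₂ a ha b,
        hZ₀ x a (by rw [hb₁]; exact (nb₁ a ha β).symm) (by rw [hb₂]; exact (nb₂ a ha β).symm),
        hx3 a ha]
  obtain ⟨V, hV⟩ : ∃ V : Set (X I), V = B ∩ P₁.symm '' B ∩ (Z₀.trans P₂).symm '' B := ⟨_, rfl⟩
  have hVo : IsOpen V := by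
    rw [hV]
    exact (hBo.inter (P₁.symm.isOpenMap _ hBo)).inter ((Z₀.trans P₂).symm.isOpenMap _ hBo)
  have hVn : V.Nonempty := by
    rw [hV]
    exact ⟨x, ⟨hxB, ⟨P₁ x, hxB₁, P₁.symm_apply_apply x⟩⟩,
      ⟨(Z₀.trans P₂) x, hxB₂, (Z₀.trans P₂).symm_apply_apply x⟩⟩
  have hP₁F : P₁ ∈ Fx S := hP₁S
  have hQF : Z₀.trans P₂ ∈ Fx S := by
    intro x i hi
    change P₂ (Z₀ x) i = x i
    rw [hP₂S _ i hi, hZ₀ x i (bS₁ i hi) (bS₂ i hi)]
  refine ⟨P₁.symm, (Fx S).inv_mem hP₁F, (Z₀.trans P₂).symm, (Fx S).inv_mem hQF,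
    (⟨r₁.1 ∪ smP P₁.symm '' r₁.1 ∪ smP (Z₀.trans P₂).symm '' r₁.1, c2_three C01 D0 D1,
      S₁ ∪ T₁ ∪ T₂, (hS₁.union hT₁).union hT₂, hspU⟩, ⟨V, hVo, hVn⟩), ?_, ?_, ?_, N, ?_⟩
  · refine ⟨fun t ht => Or.inl (Or.inl ht), fun y hy => ?_⟩
    change y ∈ V at hy
    rw [hV] at hy
    exact hBU hy.1.1
  · refine ⟨fun t ht => Or.inl (Or.inr ht), fun y hy => ?_⟩
    change y ∈ V at hy
    rw [hV] at hy
    exact Set.image_mono hBU hy.1.2
  · refine ⟨fun t ht => Or.inr ht, fun y hy => ?_⟩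
    change y ∈ V at hy
    rw [hV] at hy
    exact Set.image_mono hBU hy.2
  · intro x n hn
    change P₂ (Z₀ x) β n = ((x β n).xor (P₁ x β n)).xor e
    rw [hP₂, hP₁, ex_mem hβJ, ex_mem hβJ, ← hb₂, ← hb₁, hZ₀b, hA, if_neg (by omega),
      Bool.xor_comm (x b₁ n)]

end Pool.Agent.W910.BG.T_CONF
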