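import Pool.Agent.W910.BG.Stm2

/-!
# Two-colourings of Borel bipartite graphs without ultrafilters: distributivity
-/

set_option autoImplicit false

namespace Pool.Agent.W910.BG.T_DST

open Topology Filter

variable {I : Type} {Γ : SimpleGraph (ℕ → ℕ)}

/-- The cylinder given by finitely many conditions. -/
def cyl (c : Finset (I × ℕ × Bool)) : Set (X I) := {x | ∀ t ∈ c, x t.1 t.2.1 = t.2.2}

/-- The coordinates of a code. -/
def Co (c : Finset (I × ℕ × Bool)) (J : Set I) : Prop := ∀ t ∈ c, t.1 ∈ J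

theorem isOpen_cyl (c : Finset (I × ℕ × Bool)) : IsOpen (cyl c) := by
  have h : cyl c = ⋂ t ∈ c, (fun x : X I => x t.1 t.2.1) ⁻¹' {t.2.2} := by
    ext x
    simp [cyl]
  rw [h]
  refine isOpen_biInter_finset fun t _ => ?_
  exact (isOpen_discrete _).preimage ((continuous_apply t.2.1).comp (continuous_apply t.1))

theorem exists_cyl {U : Set (X I)} (hU : IsOpen U) {x : X I} (hx : x ∈ U) :
    ∃ c : Finset (I × ℕ × Bool), x ∈ cyl c ∧ cyl c ⊆ U := by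
  classical
  obtain ⟨s, u, h1, h2⟩ := isOpen_pi_iff.1 hU x hx
  have h3 : ∀ i : I, ∃ s' : Finset ℕ, i ∈ s → ∀ y : ℕ → Bool, (∀ n ∈ s', y n = x i n) →
      y ∈ u i := by
    intro i
    by_cases hi : i ∈ s
    · obtain ⟨s', v, h4, h5⟩ := isOpen_pi_iff.1 (h1 i hi).1 (x i) (h1 i hi).2
      refine ⟨s', fun _ y hy => h5 fun n hn => ?_⟩
      rw [hy n hn]
      exact (h4 n hn).2
    · exact ⟨∅, fun h => absurd h hi⟩
  choose s' hs' using h3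
  refine ⟨s.biUnion fun i => (s' i).image fun n => (i, n, x i n), ?_, ?_⟩
  · intro t ht
    simp only [Finset.mem_biUnion, Finset.mem_image] at ht
    obtain ⟨i, _, n, _, rfl⟩ := ht
    rfl
  · intro y hy
    refine h2 fun i hi => hs' i hi (y i) fun n hn => ?_
    exact hy (i, n, x i n) (Finset.mem_biUnion.2 ⟨i, hi, Finset.mem_image.2 ⟨n, hn, rfl⟩⟩)

/-- The cylinder as a condition. -/
def cU (c : Finset (I × ℕ × Bool)) (h : (cyl c).Nonempty) : U0 I := ⟨cyl c, isOpen_cyl c, h⟩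

theorem countable_Co {J : Set I} (hJ : J.Countable) :
    {c : Finset (I × ℕ × Bool) | Co c J}.Countable := by
  have h1 : (J ×ˢ (Set.univ : Set (ℕ × Bool))).Countable := hJ.prod Set.countable_univ
  have h2 := Set.countable_ofPred_finite_subset h1
  refine Set.Countable.mono ?_ (h2.preimage_of_injOn (f := fun c : Finset (I × ℕ × Bool) =>
    (c : Set (I × ℕ × Bool))) (Finset.coe_injective.injOn))
  intro c hc
  exact ⟨c.finite_toSet, fun t ht => ⟨hc t ht, trivial⟩⟩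

theorem lower (r : ℕ → D I Γ) (hr : ∀ n, r (n + 1) ≤ r n) : ∃ r' : D I Γ, ∀ n, r' ≤ r n := by
  have hm : ∀ m n, m ≤ n → (r m).1 ⊆ (r n).1 := by
    intro m n hmn
    induction hmn with
    | refl => exact subset_rfl
    | step _ ih => exact ih.trans (hr _)
  have hS := fun n => (r n).2.2
  choose S hS1 hS2 using hS
  refine ⟨⟨⋃ n, (r n).1, ?_, ⋃ n, S n, Set.countable_iUnion hS1, ?_⟩, fun n =>
    Set.subset_iUnion (fun n => (r n).1) n⟩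
  · intro t ht t' ht'
    obtain ⟨m, hm1⟩ := Set.mem_iUnion.1 ht
    obtain ⟨n, hn1⟩ := Set.mem_iUnion.1 ht'
    exact (r (max m n)).2.1 t (hm _ _ (le_max_left _ _) hm1) t' (hm _ _ (le_max_right _ _) hn1)
  · intro t ht
    obtain ⟨m, hm1⟩ := Set.mem_iUnion.1 ht
    exact ⟨fun x y h => (hS2 m t hm1).1 x y fun i hi => h i (Set.mem_iUnion.2 ⟨m, hi⟩),
      fun x y h => (hS2 m t hm1).2 x y fun i hi => h i (Set.mem_iUnion.2 ⟨m, hi⟩)⟩

section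

variable (E : ℕ → Set (Q I Γ)) (p₀ : Q I Γ)
  (hE : ∀ n, ∀ q ∈ E n, ∀ r ≤ q, r ∈ E n)
  (hD : ∀ n, ∀ q ≤ p₀, ∃ r ≤ q, r ∈ E n)

include hE hD

theorem one (r : D I Γ) (hr : r ≤ p₀.1) (n : ℕ) (c : Finset (I × ℕ × Bool))
    (hc : (cyl c).Nonempty) (hc' : cyl c ⊆ p₀.2.1) :
    ∃ r' ≤ r, ∃ c' : Finset (I × ℕ × Bool), ∃ h : (cyl c').Nonempty, cyl c' ⊆ cyl c ∧
      (r', cU c' h) ∈ E n := by
  obtain ⟨q, hq, hqE⟩ := hD n (r, cU c hc) ⟨hr, hc'⟩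
  obtain ⟨x, hx⟩ := q.2.2.2
  obtain ⟨c', h1, h2⟩ := exists_cyl q.2.2.1 hx
  exact ⟨q.1, hq.1, c', ⟨x, h1⟩, h2.trans hq.2, hE n q hqE _ ⟨le_refl _, h2⟩⟩

theorem two (r : D I Γ) (hr : r ≤ p₀.1) (J : Set I) (hJ : J.Countable) :
    ∃ r' ≤ r, ∃ J' : Set I, J ⊆ J' ∧ J'.Countable ∧ ∀ n, ∀ c : Finset (I × ℕ × Bool), Co c J →
      (cyl c).Nonempty → cyl c ⊆ p₀.2.1 → ∃ c' : Finset (I × ℕ × Bool), Co c' J' ∧
        ∃ h : (cyl c').Nonempty, cyl c' ⊆ cyl c ∧ (r', cU c' h) ∈ E n := by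
  classical
  have h1 : ({t : ℕ × Finset (I × ℕ × Bool) | Co t.2 J}).Countable := by
    refine ((Set.countable_univ (α := ℕ)).prod (countable_Co hJ)).mono ?_
    exact fun t ht => ⟨trivial, ht⟩
  obtain ⟨e, he⟩ := h1.exists_eq_range ⟨(0, ∅), fun t ht => absurd ht (Finset.notMem_empty t)⟩
  have h2 : ∀ (r : D I Γ) (t : ℕ × Finset (I × ℕ × Bool)), ∃ (r' : D I Γ)
      (c' : Finset (I × ℕ × Bool)), r' ≤ r ∧ (r ≤ p₀.1 → (cyl t.2).Nonempty → cyl t.2 ⊆ p₀.2.1 →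
        ∃ h : (cyl c').Nonempty, cyl c' ⊆ cyl t.2 ∧ (r', cU c' h) ∈ E t.1) := by
    intro r t
    by_cases hh : r ≤ p₀.1 ∧ (cyl t.2).Nonempty ∧ cyl t.2 ⊆ p₀.2.1
    · obtain ⟨r', h3, c', h4, h5, h6⟩ := one E p₀ hE hD r hh.1 t.1 t.2 hh.2.1 hh.2.2
      exact ⟨r', c', h3, fun _ _ _ => ⟨h4, h5, h6⟩⟩
    · exact ⟨r, ∅, le_refl _, fun h3 h4 h5 => absurd ⟨h3, h4, h5⟩ hh⟩
  choose R C hR hC using h2
  let ρ : ℕ → D I Γ := fun l => Nat.rec r (fun l s => R s (e l)) l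
  have hρ : ∀ l, ρ (l + 1) = R (ρ l) (e l) := fun l => rfl
  have hρ' : ∀ l, ρ (l + 1) ≤ ρ l := fun l => by rw [hρ]; exact hR _ _
  have hρr : ∀ l, ρ l ≤ r := by
    intro l
    induction l with
    | zero => exact le_refl _
    | succ l ih => exact (hρ' l).trans ih
  obtain ⟨r', hr'⟩ := lower ρ hρ'
  refine ⟨r', hr' 0, J ∪ ⋃ l, (fun t : I × ℕ × Bool => t.1) '' (C (ρ l) (e l) : Set _),
    Set.subset_union_left, hJ.union (Set.countable_iUnion fun l =>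
      ((C (ρ l) (e l)).finite_toSet.image _).countable), fun n c hc hc1 hc2 => ?_⟩
  obtain ⟨l, hl⟩ : (n, c) ∈ Set.range e := he ▸ (show (n, c) ∈ {t : ℕ × Finset (I × ℕ × Bool) |
    Co t.2 J} from hc)
  obtain ⟨h3, h4, h5⟩ := hC (ρ l) (e l) ((hρr l).trans hr) (by rw [hl]; exact hc1)
    (by rw [hl]; exact hc2)
  refine ⟨C (ρ l) (e l), fun t ht => Or.inr (Set.mem_iUnion.2 ⟨l, ⟨t, ht, rfl⟩⟩), h3, ?_, ?_⟩
  · rw [hl] at h4
    rw [hl]
    exact h4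
  · have h6 : (R (ρ l) (e l), cU _ h3) ∈ E n := by
      have h7 : (e l).1 = n := by rw [hl]
      rw [← h7]
      exact h5
    exact hE n _ h6 _ ⟨by rw [← hρ]; exact hr' (l + 1), le_refl _⟩

theorem three (J : Set I) (hJ : J.Countable) :
    ∃ r' ≤ p₀.1, ∃ J' : Set I, J ⊆ J' ∧ J'.Countable ∧ ∀ n, ∀ c : Finset (I × ℕ × Bool), Co c J' →
      (cyl c).Nonempty → cyl c ⊆ p₀.2.1 → ∃ c' : Finset (I × ℕ × Bool), Co c' J' ∧
        ∃ h : (cyl c').Nonempty, cyl c' ⊆ cyl c ∧ (r', cU c' h) ∈ E n := by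
  classical
  let St : Type := {t : D I Γ × Set I // t.1 ≤ p₀.1 ∧ t.2.Countable}
  have h1 : ∀ s : St, ∃ s' : St, s'.1.1 ≤ s.1.1 ∧ s.1.2 ⊆ s'.1.2 ∧
      ∀ n, ∀ c : Finset (I × ℕ × Bool), Co c s.1.2 →
      (cyl c).Nonempty → cyl c ⊆ p₀.2.1 → ∃ c' : Finset (I × ℕ × Bool), Co c' s'.1.2 ∧
        ∃ h : (cyl c').Nonempty, cyl c' ⊆ cyl c ∧ (s'.1.1, cU c' h) ∈ E n := by
    intro s
    obtain ⟨r', h2, J', h3, h4, h5⟩ := two E p₀ hE hD s.1.1 s.2.1 s.1.2 s.2.2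
    exact ⟨⟨(r', J'), h2.trans s.2.1, h4⟩, h2, h3, h5⟩
  choose F hF1 hF2 hF3 using h1
  let σ : ℕ → St := fun l => Nat.rec ⟨(p₀.1, J), le_refl _, hJ⟩ (fun _ s => F s) l
  have hσ : ∀ l, σ (l + 1) = F (σ l) := fun l => rfl
  have hm : ∀ m n, m ≤ n → (σ m).1.2 ⊆ (σ n).1.2 := by
    intro m n hmn
    induction hmn with
    | refl => exact subset_rfl
    | step _ ih => exact ih.trans (hF2 _)
  obtain ⟨r', hr'⟩ := lower (fun l => (σ l).1.1) fun l => hF1 _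
  refine ⟨r', hr' 0, ⋃ l, (σ l).1.2, Set.subset_iUnion (fun l => (σ l).1.2) 0,
    Set.countable_iUnion fun l => (σ l).2.2, fun n c hc hc1 hc2 => ?_⟩
  have h6 : ∃ l, Co c (σ l).1.2 := by
    have h7 : ∀ t : I × ℕ × Bool, ∃ l, t ∈ c → t.1 ∈ (σ l).1.2 := by
      intro t
      by_cases ht : t ∈ c
      · obtain ⟨l, hl⟩ := Set.mem_iUnion.1 (hc t ht)
        exact ⟨l, fun _ => hl⟩
      · exact ⟨0, fun h => absurd h ht⟩
    choose L hL using h7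
    exact ⟨c.sup L, fun t ht => hm _ _ (Finset.le_sup ht) (hL t ht)⟩
  obtain ⟨l, hl⟩ := h6
  obtain ⟨c', h8, h9, h10, h11⟩ := hF3 (σ l) n c hl hc1 hc2
  exact ⟨c', fun t ht => Set.mem_iUnion.2 ⟨l + 1, h8 t ht⟩, h9, h10,
    hE n _ h11 _ ⟨hr' (l + 1), le_refl _⟩⟩

end

theorem isClosed_cyl (c : Finset (I × ℕ × Bool)) : IsClosed (cyl c) := by
  have h : cyl c = ⋂ t ∈ c, (fun x : X I => x t.1 t.2.1) ⁻¹' {t.2.2} := by
    ext x
    simp [cyl]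
  rw [h]
  refine isClosed_biInter fun t _ => ?_
  exact (isClosed_discrete _).preimage ((continuous_apply t.2.1).comp (continuous_apply t.1))

theorem main2 : S_DS2 := by
  classical
  intro I Γ E p₀ hE hD
  obtain ⟨x₀, hx₀⟩ := p₀.2.2.2
  obtain ⟨c₀, h1, h2⟩ := exists_cyl p₀.2.2.1 hx₀
  obtain ⟨r', hr', J, hJ0, hJ, h3⟩ := three E p₀ hE hD ((fun t : I × ℕ × Bool => t.1) '' (c₀ : Set _))
    (c₀.finite_toSet.image _).countable
  have hc₀ : Co c₀ J := fun t ht => hJ0 ⟨t, ht, rfl⟩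
  have h4 : ∀ n, {c : Finset (I × ℕ × Bool) | Co c J ∧ ∃ h : (cyl c).Nonempty,
      (r', cU c h) ∈ E n}.Countable := fun n => (countable_Co hJ).mono fun c hc => hc.1
  have h5 : ∀ n, {c : Finset (I × ℕ × Bool) | Co c J ∧ ∃ h : (cyl c).Nonempty,
      (r', cU c h) ∈ E n}.Nonempty := by
    intro n
    obtain ⟨c', h6, h7, _, h8⟩ := h3 n c₀ hc₀ ⟨x₀, h1⟩ h2
    exact ⟨c', h6, h7, h8⟩
  have h6 := fun n => (h4 n).exists_eq_range (h5 n)
  choose f hf using h6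
  have h7 : ∀ n j, Co (f n j) J ∧ ∃ h : (cyl (f n j)).Nonempty, (r', cU (f n j) h) ∈ E n := by
    intro n j
    have h8 : f n j ∈ Set.range (f n) := ⟨j, rfl⟩
    rw [← hf n] at h8
    exact h8
  have hne : ∀ n j, (cyl (f n j)).Nonempty := fun n j => (h7 n j).2.choose
  refine ⟨(r', cU c₀ ⟨x₀, h1⟩), ⟨hr', h2⟩, J, hJ, fun n j => cU (f n j) (hne n j), ?_, ?_, ?_⟩
  · intro n j
    refine ⟨⟨isClosed_cyl _, isOpen_cyl _⟩, fun x y hxy => ?_⟩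
    have h8 : ∀ x y : X I, (∀ i ∈ J, x i = y i) → x ∈ cyl (f n j) → y ∈ cyl (f n j) := by
      intro x y hxy hx t ht
      rw [← hxy t.1 ((h7 n j).1 t ht)]
      exact hx t ht
    exact ⟨h8 x y hxy, h8 y x fun i hi => (hxy i hi).symm⟩
  · exact fun n j => (h7 n j).2.choose_spec
  · rintro n V hV
    obtain ⟨x, hx⟩ := V.2.2
    obtain ⟨c, h8, h9⟩ := exists_cyl V.2.1 hx
    have hxd : x ∈ cyl (c.filter (fun t => t.1 ∈ J) ∪ c₀) := by
      intro t ht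
      rcases Finset.mem_union.1 ht with h | h
      · exact h8 t (Finset.mem_filter.1 h).1
      · exact hV hx t h
    have hdc : cyl (c.filter (fun t => t.1 ∈ J) ∪ c₀) ⊆ cyl c₀ := fun y hy t ht =>
      hy t (Finset.mem_union_right _ ht)
    obtain ⟨c', h10, h11, h12, h13⟩ := h3 n (c.filter (fun t => t.1 ∈ J) ∪ c₀) (by
      intro t ht
      rcases Finset.mem_union.1 ht with h | h
      · exact (Finset.mem_filter.1 h).2
      · exact hc₀ t h) ⟨x, hxd⟩ (hdc.trans h2)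
    obtain ⟨j, hj⟩ : c' ∈ Set.range (f n) := by
      rw [← hf n]
      exact ⟨h10, h11, h13⟩
    obtain ⟨y, hy⟩ := h11
    have hz1 : mix J y x ∈ cyl c' := by
      intro t ht
      have h14 : mix J y x t.1 = y t.1 := if_pos (h10 t ht)
      rw [h14]
      exact hy t ht
    have hz2 : mix J y x ∈ V.1 := by
      refine h9 fun t ht => ?_
      by_cases htJ : t.1 ∈ J
      · exact h12 hz1 t (Finset.mem_union_left _ (Finset.mem_filter.2 ⟨ht, htJ⟩))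
      · have h14 : mix J y x t.1 = x t.1 := if_neg htJ
        rw [h14]
        exact h8 t ht
    refine ⟨j, mix J y x, hz2, ?_⟩
    change mix J y x ∈ cyl (f n j)
    rw [hj]
    exact hz1

theorem smD_top (θ : X I ≃ₜ X I) : smD θ (⊤ : D I Γ) = ⊤ :=
  Subtype.ext (Set.image_empty _)

theorem image_sup {J : Set I} {θ : X I ≃ₜ X I} (hθ : θ ∈ Fx J) {U : Set (X I)}
    (hU : ∀ x y : X I, (∀ i ∈ J, x i = y i) → (x ∈ U ↔ y ∈ U)) : θ '' U = U := by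
  ext x
  constructor
  · rintro ⟨y, hy, rfl⟩
    exact (hU _ _ (fun i hi => hθ y i hi)).2 hy
  · intro hx
    refine ⟨θ⁻¹ x, (hU _ _ fun i hi => (inv_mem hθ : θ⁻¹ ∈ Fx J) x i hi).2 hx, ?_⟩
    change (θ * θ⁻¹) x = x
    rw [mul_inv_cancel]
    rfl

theorem main : S_DST := by
  intro I Γ E p₀ hE hD
  obtain ⟨p', hp', J, hJ, U, h1, h2, h3⟩ := main2 I Γ E p₀ hE hD
  refine ⟨p', hp', Fx J, ⟨J, hJ, rfl⟩, fun n j => (⊤, U n j), fun n j => (p'.1, U n j), h2,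
    ?_, ?_, ?_⟩
  · intro n j θ hθ
    exact Prod.ext (smD_top θ) (Subtype.ext (image_sup hθ (h1 n j).2))
  · rintro n ⟨s, V⟩ ⟨hs, hV⟩
    obtain ⟨j, z, hz1, hz2⟩ := h3 n V hV
    exact ⟨(s, ⟨V.1 ∩ (U n j).1, V.2.1.inter (U n j).2.1, ⟨z, hz1, hz2⟩⟩),
      ⟨le_refl _, Set.inter_subset_left⟩, j, le_top, Set.inter_subset_right⟩
  · rintro n j ⟨s, V⟩ hq hq'
    exact ⟨hq.1, hq'.2⟩

end Pool.Agent.W910.BG.T_DST
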