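import Pool.Agent.W910.BG.Stm

/-!
# Extension of partial colourings of names
-/

set_option autoImplicit false

namespace Pool.Agent.W910.BG.T_EXT

open Topology Filter Pool.Agent.W910.BG

section walks

variable {Γ : SimpleGraph (ℕ → ℕ)}

theorem wp_refl (y : ℕ → ℕ) : WP Γ false y y := ⟨SimpleGraph.Walk.nil, by simp⟩

theorem wp_symm {i : Bool} {y z : ℕ → ℕ} (h : WP Γ i y z) : WP Γ i z y := by
  obtain ⟨w, hw⟩ := h
  exact ⟨w.reverse, by rw [SimpleGraph.Walk.length_reverse]; exact hw⟩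

theorem wp_trans {i j : Bool} {x y z : ℕ → ℕ} (h : WP Γ i x y) (h' : WP Γ j y z) :
    WP Γ (i.xor j) x z := by
  obtain ⟨w, hw⟩ := h
  obtain ⟨w', hw'⟩ := h'
  exact ⟨w.append w', by rw [SimpleGraph.Walk.length_append, Nat.bodd_add, hw, hw']⟩

theorem wp_unique (hΓ : ∀ y, ¬ WP Γ true y y) {i j : Bool} {y z : ℕ → ℕ} (h : WP Γ i y z)
    (h' : WP Γ j y z) : i = j := by
  by_contra hij
  have h1 := wp_trans h (wp_symm h')
  have h2 : i.xor j = true := by cases i <;> cases j <;> simp_all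
  rw [h2] at h1
  exact hΓ y h1

end walks

variable {I : Type}

/-- Nonempty open sets that depend only on the coordinates in `S`. -/
def OS (S : Set I) (V : Set (X I)) : Prop :=
  IsOpen V ∧ V.Nonempty ∧ ∀ x y : X I, (∀ i ∈ S, x i = y i) → x ∈ V → y ∈ V

theorem OS.inter {S : Set I} {V W : Set (X I)} (hV : OS S V) (hW : OS S W)
    (h : (V ∩ W).Nonempty) : OS S (V ∩ W) :=
  ⟨hV.1.inter hW.1, h, fun x y hxy hx => ⟨hV.2.2 x y hxy hx.1, hW.2.2 x y hxy hx.2⟩⟩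

theorem exists_box (S : Set I) {U : Set (X I)} (hU : IsOpen U) (hne : U.Nonempty) :
    ∃ BS BC : Set (X I), OS S BS ∧ OS Sᶜ BC ∧ BS ∩ BC ⊆ U := by
  obtain ⟨p, hp⟩ := hne
  obtain ⟨s, t, h1, h2⟩ := isOpen_pi_iff.1 hU p hp
  have hop : ∀ T : Set I, OS T {x : X I | ∀ i ∈ s, i ∈ T → x i ∈ t i} := by
    intro T
    refine ⟨?_, ⟨p, fun i hi _ => (h1 i hi).2⟩, fun x y hxy hx i hi hiT => ?_⟩
    · have : {x : X I | ∀ i ∈ s, i ∈ T → x i ∈ t i} =
          ⋂ i ∈ s, ⋂ (_ : i ∈ T), (fun x : X I => x i) ⁻¹' t i := by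
        ext x; simp
      rw [this]
      refine isOpen_biInter_finset fun i hi => ?_
      by_cases hT : i ∈ T
      · simp only [hT, Set.iInter_true]
        exact (h1 i hi).1.preimage (continuous_apply i)
      · simp only [hT, Set.iInter_false]
        exact isOpen_univ
    · rw [← hxy i hiT]
      exact hx i hi hiT
  refine ⟨_, _, hop S, hop Sᶜ, fun x hx => h2 fun i hi => ?_⟩
  by_cases hS : i ∈ S
  · exact hx.1 i hi hS
  · exact hx.2 i hi hS

theorem mix_mem {S : Set I} {V W : Set (X I)} (hV : OS S V) (hW : OS Sᶜ W) {x y : X I}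
    (hx : x ∈ V) (hy : y ∈ W) : mix S x y ∈ V ∩ W := by
  refine ⟨hV.2.2 x _ (fun i hi => ?_) hx, hW.2.2 y _ (fun i hi => ?_) hy⟩
  · simp [mix, hi]
  · have : i ∉ S := hi
    simp [mix, this]

theorem On.mono_set {U V : Set (X I)} {φ : X I → Prop} (h : On U φ) (hVU : V ⊆ U) : On V φ :=
  Filter.Eventually.mono h fun _ hx hV => hx (hVU hV)

theorem On.exists {U : Set (X I)} {φ : X I → Prop} (h : On U φ) (hU : IsOpen U)
    (hne : U.Nonempty) : ∃ x ∈ U, φ x := by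
  have h1 : Dense {x | x ∈ U → φ x} := dense_of_mem_residual h
  obtain ⟨x, hx, hx'⟩ := h1.inter_open_nonempty U hU hne
  exact ⟨x, hx, hx' hx⟩

theorem On.and {U : Set (X I)} {φ ψ : X I → Prop} (h : On U φ) (h' : On U ψ) :
    On U fun x => φ x ∧ ψ x := by
  unfold On at *
  filter_upwards [h, h'] with x hx hx' hU
  exact ⟨hx hU, hx' hU⟩

theorem On.mono' {U : Set (X I)} {φ ψ : X I → Prop} (h : On U φ) (h' : ∀ x, φ x → ψ x) :
    On U ψ :=
  Filter.Eventually.mono h fun x hx hV => h' x (hx hV)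

/-- Fact A -/
theorem factA (hKU : S_KU) {S : Set I} (hS : S.Countable) {α : Type*} {f g : X I → α}
    (hf : SupOn S f) (hg : SupOn S g) {BS BC : Set (X I)} (hBS : OS S BS) (hBC : OS Sᶜ BC)
    (φ : α → α → Prop) (h : On (BS ∩ BC) fun x => φ (f x) (g x)) :
    On BS fun x => φ (f x) (g x) := by
  have h1 := hKU I S hS _ h
  have h2 : ∃ y ∈ BC, ∀ᶠ x in residual (X I), mix S x y ∈ BS ∩ BC →
      φ (f (mix S x y)) (g (mix S x y)) := by
    have h3 : On BC fun y => ∀ᶠ x in residual (X I), mix S x y ∈ BS ∩ BC →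
      φ (f (mix S x y)) (g (mix S x y)) := Filter.Eventually.mono h1 fun y hy _ => hy
    exact On.exists h3 hBC.1 hBC.2.1
  obtain ⟨y, hy, h3⟩ := h2
  refine Filter.Eventually.mono h3 fun x hx hxB => ?_
  have h4 := hx (mix_mem hBS hBC hxB hy)
  have h5 : ∀ i ∈ S, mix S x y i = x i := by
    intro i hi
    simp [mix, hi]
  rwa [hf _ _ h5, hg _ _ h5] at h4

section leaders

variable {Γ : SimpleGraph (ℕ → ℕ)} (Γ) (S : Set I) (ρ : NR I → Ordinal.{0})

/-- `V` forces that there is a walk of parity `i` between `f` and `g`. -/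
def Fo (V : Set (X I)) (i : Bool) (f g : NR I) : Prop := On V fun x => WP Γ i (f.1 x) (g.1 x)

/-- stable sets -/
structure Stb (f : NR I) (V : Set (X I)) (g : NR I) (i : Bool) : Prop where
  os : OS S V
  sup : SupOn S g.1
  fo : Fo Γ V i f g
  min : ∀ W, OS S W → W ⊆ V → ∀ g' : NR I, SupOn S g'.1 → ∀ j, Fo Γ W j f g' → ¬ ρ g' < ρ g

variable {Γ S ρ}

theorem Stb.mono {f g : NR I} {V W : Set (X I)} {i : Bool} (h : Stb Γ S ρ f V g i)
    (hW : OS S W) (hWV : W ⊆ V) : Stb Γ S ρ f W g i :=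
  ⟨hW, h.sup, On.mono_set h.fo hWV, fun W' h1 h2 g' h3 j h4 =>
    h.min W' h1 (h2.trans hWV) g' h3 j h4⟩

theorem fo_refl (V : Set (X I)) (f : NR I) : Fo Γ V false f f :=
  Filter.Eventually.of_forall fun _ _ => wp_refl _

theorem Stb.exists {f : NR I} (hf : SupOn S f.1) {V : Set (X I)} (hV : OS S V) :
    ∃ W g i, W ⊆ V ∧ Stb Γ S ρ f W g i := by
  classical
  have h1 : {o : Ordinal.{0} | ∃ g : NR I, ρ g = o ∧ SupOn S g.1 ∧ ∃ W, OS S W ∧ W ⊆ V ∧
      ∃ i, Fo Γ W i f g}.Nonempty :=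
    ⟨ρ f, f, rfl, hf, V, hV, subset_rfl, false, fo_refl V f⟩
  obtain ⟨o, ⟨g, rfl, hg, W, hW, hWV, i, hi⟩, hmin⟩ := WellFounded.has_min
    (wellFounded_lt (α := Ordinal.{0})) _ h1
  refine ⟨W, g, i, hWV, hW, hg, hi, fun W' h2 h3 g' h4 j h5 h6 => ?_⟩
  exact hmin (ρ g') ⟨g', rfl, h4, W', h2, h3.trans hWV, j, h5⟩ h6

theorem Stb.unique (hΓ : ∀ y, ¬ WP Γ true y y) (hρ : Function.Injective ρ) {f g g' : NR I}
    {V V' : Set (X I)} {i i' : Bool} (h : Stb Γ S ρ f V g i) (h' : Stb Γ S ρ f V' g' i')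
    (hne : (V ∩ V').Nonempty) : g = g' ∧ i = i' := by
  have hY := h.os.inter h'.os hne
  have h1 := h.mono hY Set.inter_subset_left
  have h2 := h'.mono hY Set.inter_subset_right
  have h3 := h1.min _ hY subset_rfl g' h2.sup i' h2.fo
  have h4 := h2.min _ hY subset_rfl g h1.sup i h1.fo
  have h5 : g = g' := hρ (le_antisymm (not_lt.mp h3) (not_lt.mp h4))
  subst h5
  refine ⟨rfl, ?_⟩
  obtain ⟨x, -, hx, hx'⟩ := On.exists (On.and h1.fo h2.fo) hY.1 hY.2.1
  exact wp_unique hΓ hx hx'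

end leaders

theorem lc_open {α : Type*} (f : X I → α) : IsOpen {x | ∀ᶠ y in 𝓝 x, f y = f x} := by
  rw [isOpen_iff_mem_nhds]
  intro x hx
  have h1 : ∀ᶠ y in 𝓝 x, ∀ᶠ z in 𝓝 y, f z = f x := eventually_eventually_nhds.mpr hx
  filter_upwards [h1, hx] with y hy hyx
  refine Filter.Eventually.mono hy fun z hz => ?_
  rw [hz, hyx]

theorem exists_rank (old : NR I → Prop) : ∃ ρ : NR I → Ordinal.{0}, Function.Injective ρ ∧
    ∀ f g, old f → ρ g ≤ ρ f → old g := by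
  classical
  let τ : NR I → Ordinal.{0} := fun f => Ordinal.typein (WellOrderingRel : NR I → NR I → Prop) f
  let κ : Ordinal.{0} := Ordinal.type (WellOrderingRel : NR I → NR I → Prop)
  have h1 : ∀ f, τ f < κ := fun f => Ordinal.typein_lt_type _ f
  have h2 : Function.Injective τ := Ordinal.typein_injective _
  have h3 : ∀ f g, τ f < κ + τ g := fun f g => (h1 f).trans_le (le_self_add)
  refine ⟨fun f => if old f then τ f else κ + τ f, ?_, ?_⟩
  · intro f g hfg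
    simp only at hfg
    by_cases hf : old f <;> by_cases hg : old g
    · rw [if_pos hf, if_pos hg] at hfg; exact h2 hfg
    · rw [if_pos hf, if_neg hg] at hfg; exact absurd hfg (h3 f g).ne
    · rw [if_neg hf, if_pos hg] at hfg; exact absurd hfg.symm (h3 g f).ne
    · rw [if_neg hf, if_neg hg] at hfg
      exact h2 (add_left_cancel hfg)
  · intro f g hf hle
    by_contra hg
    simp only [if_pos hf, if_neg hg] at hle
    exact absurd hle (not_le.mpr (h3 f g))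

theorem main (hKU : S_KU) : S_EXT := by
  intro I Γ hΓ r S₀ hS₀
  classical
  obtain ⟨Sr, hSr, hSpr⟩ := r.2.2
  have hC2 := r.2.1
  obtain ⟨S, hSdef⟩ : ∃ S : Set I, S = S₀ ∪ Sr := ⟨_, rfl⟩
  have hS : S.Countable := by rw [hSdef]; exact hS₀.union hSr
  have hSrS : Sr ⊆ S := by rw [hSdef]; exact Set.subset_union_right
  have hSp : Sp S r.1 := fun t ht =>
    ⟨fun x y h => (hSpr t ht).1 x y fun i hi => h i (hSrS hi),
      fun x y h => (hSpr t ht).2 x y fun i hi => h i (hSrS hi)⟩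
  obtain ⟨ρ, hρ, hold⟩ := exists_rank (fun f : NR I => ∃ h, (f, h) ∈ r.1)
  -- colours of the leaders
  have hk : ∀ g : NR I, ∃ h : NC I, SupOn S h.1 ∧ ((∃ h', (g, h') ∈ r.1) → (g, h) ∈ r.1) := by
    intro g
    by_cases hg : ∃ h', (g, h') ∈ r.1
    · obtain ⟨h, hh⟩ := hg
      exact ⟨h, (hSp _ hh).2, fun _ => hh⟩
    · refine ⟨⟨fun _ => false, ⟨∅, Set.countable_empty, fun _ _ _ => rfl⟩, ?_⟩,
        fun _ _ _ => rfl, fun h => absurd h hg⟩
      unfold LC
      simp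
  choose k hksup hkold using hk
  -- the new colours
  let H : NR I → X I → Bool := fun f x =>
    decide (∃ V g i, Stb Γ S ρ f V g i ∧ x ∈ V ∧ (i.xor ((k g).1 x)) = true)
  have hH : ∀ (f g : NR I) (V : Set (X I)) (i : Bool), Stb Γ S ρ f V g i → ∀ x ∈ V,
      H f x = i.xor ((k g).1 x) := by
    intro f g V i hst x hx
    rcases h : i.xor ((k g).1 x) with _ | _
    · simp only [H, decide_eq_false_iff_not]
      rintro ⟨V', g', i', hst', hx', h'⟩
      obtain ⟨rfl, rfl⟩ := Stb.unique hΓ hρ hst hst' ⟨x, hx, hx'⟩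
      rw [h] at h'
      exact absurd h' (by simp)
    · simp only [H, decide_eq_true_eq]
      exact ⟨V, g, i, hst, hx, h⟩
  have hHsup : ∀ f, SupOn S (H f) := by
    intro f x y hxy
    have key : ∀ x y : X I, (∀ i ∈ S, x i = y i) →
        (∃ V g i, Stb Γ S ρ f V g i ∧ x ∈ V ∧ (i.xor ((k g).1 x)) = true) →
        (∃ V g i, Stb Γ S ρ f V g i ∧ y ∈ V ∧ (i.xor ((k g).1 y)) = true) := by
      rintro x y hxy ⟨V, g, i, hst, hx, h⟩
      exact ⟨V, g, i, hst, hst.os.2.2 x y hxy hx, by rw [← hksup g x y hxy]; exact h⟩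
    simp only [H, decide_eq_decide]
    exact ⟨key x y hxy, key y x fun i hi => (hxy i hi).symm⟩
  have hHlc : ∀ f : NR I, SupOn S f.1 → LC (H f) := by
    intro f hf
    unfold LC
    rw [dense_iff_inter_open]
    intro U hU hne
    obtain ⟨BS, BC, hBS, hBC, hsub⟩ := exists_box S hU hne
    obtain ⟨W, g, i, hWB, hst⟩ := Stb.exists (Γ := Γ) (ρ := ρ) hf hBS
    have hop : IsOpen (W ∩ BC) := hst.os.1.inter hBC.1
    have hne' : (W ∩ BC).Nonempty := by
      obtain ⟨x, hx⟩ := hst.os.2.1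
      obtain ⟨y, hy⟩ := hBC.2.1
      exact ⟨_, mix_mem hst.os hBC hx hy⟩
    obtain ⟨x, hx, hx'⟩ := (k g).2.2.inter_open_nonempty _ hop hne'
    refine ⟨x, hsub ⟨hWB hx.1, hx.2⟩, ?_⟩
    have hx'' : ∀ᶠ y in 𝓝 x, (k g).1 y = (k g).1 x := hx'
    change ∀ᶠ y in 𝓝 x, H f y = H f x
    filter_upwards [hx'', hst.os.1.mem_nhds hx.1] with y hy hyW
    rw [hH f g W i hst y hyW, hH f g W i hst x hx.1, hy]
  let HN : ∀ f : NR I, SupOn S f.1 → NC I := fun f hf => ⟨H f, ⟨S, hS, hHsup f⟩, hHlc f hf⟩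
  obtain ⟨r', hr'⟩ : ∃ r' : Set (NR I × NC I), r' = r.1 ∪ {t | ∃ hf : SupOn S t.1.1,
    t.2 = HN t.1 hf} := ⟨_, rfl⟩
  have hr'sp : Sp S r' := by
    intro t ht
    rw [hr'] at ht
    rcases ht with ht | ⟨hf, ht⟩
    · exact hSp t ht
    · refine ⟨hf, ?_⟩
      rw [ht]
      exact hHsup t.1
  -- claim (*)
  have hstar : ∀ t ∈ r', ∀ (V : Set (X I)) (g : NR I) (i : Bool), Stb Γ S ρ t.1 V g i →
      On V fun x => t.2.1 x = i.xor ((k g).1 x) := by
    intro t ht V g i hst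
    rw [hr'] at ht
    rcases ht with ht | ⟨hf, ht⟩
    · have hgold : ∃ h', (g, h') ∈ r.1 := by
        refine hold t.1 g ⟨t.2, ht⟩ ?_
        exact not_lt.mp (hst.min V hst.os subset_rfl t.1 (hSp t ht).1 false (fo_refl V t.1))
      have h1 := hC2 t ht (g, k g) (hkold g hgold) i V hst.os.1 hst.fo
      refine On.mono' h1 fun x hx => ?_
      rw [← hx]
      cases t.2.1 x <;> cases (k g).1 x <;> rfl
    · refine Filter.Eventually.of_forall fun x hx => ?_
      rw [ht]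
      exact hH t.1 g V i hst x hx
  have hC2' : C2 Γ r' := by
    intro t ht t' ht' i U hU hfo
    have hlc : ∀ᶠ x in residual (X I), (∀ᶠ y in 𝓝 x, t.2.1 y = t.2.1 x) ∧
        ∀ᶠ y in 𝓝 x, t'.2.1 y = t'.2.1 x := by
      have e1 : {x | ∀ᶠ y in 𝓝 x, t.2.1 y = t.2.1 x} ∈ residual (X I) :=
        residual_of_dense_open (lc_open _) t.2.2.2
      have e2 : {x | ∀ᶠ y in 𝓝 x, t'.2.1 y = t'.2.1 x} ∈ residual (X I) :=
        residual_of_dense_open (lc_open _) t'.2.2.2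
      filter_upwards [e1, e2] with x h1 h2
      exact ⟨h1, h2⟩
    refine Filter.Eventually.mono hlc fun x hx hxU => ?_
    by_contra hcon
    -- an open set on which the sum is constant
    have h1 : ∀ᶠ y in 𝓝 x, y ∈ U ∧ (t.2.1 y).xor (t'.2.1 y) ≠ i := by
      filter_upwards [hx.1, hx.2, hU.mem_nhds hxU] with y h1 h2 h3
      exact ⟨h3, by rw [h1, h2]; exact hcon⟩
    obtain ⟨W, hW1, hW2, hxW⟩ := eventually_nhds_iff.mp h1
    obtain ⟨BS, BC, hBS, hBC, hsub⟩ := exists_box S hW2 ⟨x, hxW⟩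
    have hA : On BS fun x => WP Γ i (t.1.1 x) (t'.1.1 x) :=
      factA hKU hS (hr'sp t ht).1 (hr'sp t' ht').1 hBS hBC (fun a b => WP Γ i a b)
        (On.mono_set hfo fun y hy => (hW1 y (hsub hy)).1)
    obtain ⟨V1, g1, i1, hV1, hst1⟩ := Stb.exists (Γ := Γ) (ρ := ρ) (hr'sp t ht).1 hBS
    obtain ⟨V2, g2, i2, hV2, hst2⟩ := Stb.exists (Γ := Γ) (ρ := ρ) (hr'sp t' ht').1 hst1.os
    have hst1' := hst1.mono hst2.os hV2
    have hA2 : On V2 fun x => WP Γ i (t.1.1 x) (t'.1.1 x) := On.mono_set hA (hV2.trans hV1)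
    have hl1 := hst2.min V2 hst2.os subset_rfl g1 hst1.sup (i.xor i1) (by
      refine On.mono' (On.and hA2 hst1'.fo) fun x hx => ?_
      exact wp_trans (wp_symm hx.1) hx.2)
    have hl2 := hst1'.min V2 hst2.os subset_rfl g2 hst2.sup (i.xor i2) (by
      refine On.mono' (On.and hA2 hst2.fo) fun x hx => ?_
      exact wp_trans hx.1 hx.2)
    have hg : g1 = g2 := hρ (le_antisymm (not_lt.mp hl2) (not_lt.mp hl1))
    subst hg
    have hi : i = i1.xor i2 := by
      obtain ⟨z, -, ⟨hz1, hz2⟩, hz3⟩ := On.exists (On.and (On.and hst1'.fo hst2.fo) hA2)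
        hst2.os.1 hst2.os.2.1
      exact wp_unique hΓ hz3 (wp_trans hz1 (wp_symm hz2))
    have hb := On.and (hstar t ht V2 g1 i1 hst1') (hstar t' ht' V2 g1 i2 hst2)
    have hne' : (V2 ∩ BC).Nonempty := by
      obtain ⟨x, hx⟩ := hst2.os.2.1
      obtain ⟨y, hy⟩ := hBC.2.1
      exact ⟨_, mix_mem hst2.os hBC hx hy⟩
    obtain ⟨z, hz, hz1, hz2⟩ := On.exists (On.mono_set hb Set.inter_subset_left)
      (hst2.os.1.inter hBC.1) hne'
    have hzW := (hW1 z (hsub ⟨hV1 (hV2 hz.1), hz.2⟩)).2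
    apply hzW
    rw [hz1, hz2, hi]
    cases i1 <;> cases i2 <;> cases (k g1).1 z <;> rfl
  refine ⟨⟨r', hC2', S, hS, hr'sp⟩, ?_, S, ?_, hS, hr'sp, ?_⟩
  · change r.1 ⊆ r'
    rw [hr']
    exact Set.subset_union_left
  · rw [hSdef]; exact Set.subset_union_left
  · intro f hf
    refine ⟨HN f hf, ?_⟩
    change (f, HN f hf) ∈ r'
    rw [hr']
    exact Or.inr ⟨hf, rfl⟩

end Pool.Agent.W910.BG.T_EXT
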