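import Pool.Agent.W910.BG.Stm

/-!
# A theorem of Kuratowski and Ulam for the space of sequences of elements of `2^ω`
-/

set_option autoImplicit false

namespace Pool.Agent.W910.BG.T_KU

open Topology Filter

variable {I : Type}

/-- Basic cylinder. -/
def cyl (s : Finset I) (N : ℕ) (p : X I) : Set (X I) := {x | ∀ i ∈ s, ∀ n < N, x i n = p i n}

theorem cyl_open (s : Finset I) (N : ℕ) (p : X I) : IsOpen (cyl s N p) := by
  have h : cyl s N p = ⋂ i ∈ s, ⋂ n ∈ Finset.range N, (fun x : X I => x i n) ⁻¹' {p i n} := by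
    ext x
    simp [cyl]
  rw [h]
  refine isOpen_biInter_finset fun i _ => isOpen_biInter_finset fun n _ => ?_
  exact (isOpen_discrete _).preimage ((continuous_apply n).comp (continuous_apply i))

theorem exists_cyl {V : Set (X I)} (hV : IsOpen V) {x : X I} (hx : x ∈ V) :
    ∃ (s : Finset I) (N : ℕ), cyl s N x ⊆ V := by
  classical
  obtain ⟨s, t, h1, h2⟩ := isOpen_pi_iff.1 hV x hx
  have h3 : ∀ i ∈ s, ∃ N : ℕ, ∀ z : ℕ → Bool, (∀ n < N, z n = x i n) → z ∈ t i := by
    intro i hi
    obtain ⟨u, w, h4, h5⟩ := isOpen_pi_iff.1 (h1 i hi).1 (x i) (h1 i hi).2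
    obtain ⟨N, hN⟩ : ∃ N : ℕ, ∀ n ∈ u, n < N := ⟨u.sup id + 1, fun n hn => Nat.lt_succ_of_le (Finset.le_sup (f := id) hn)⟩
    refine ⟨N, fun z hz => h5 ?_⟩
    intro n hn
    have := hz n (hN n hn)
    rw [this]
    exact (h4 n hn).2
  choose! N hN using h3
  refine ⟨s, s.sup N, fun y hy => h2 fun i hi => ?_⟩
  exact hN i hi _ fun n hn => hy i hi n (lt_of_lt_of_le hn (Finset.le_sup hi))

theorem mix_cont_left (T : Set I) (y : X I) : Continuous (fun x => mix T x y) := by
  refine continuous_pi fun i => ?_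
  by_cases h : i ∈ T
  · simp only [mix, if_pos h]; exact continuous_apply i
  · simp only [mix, if_neg h]; exact continuous_const

theorem mix_cont_right (T : Set I) (x : X I) : Continuous (fun y => mix T x y) := by
  refine continuous_pi fun i => ?_
  by_cases h : i ∈ T
  · simp only [mix, if_pos h]; exact continuous_const
  · simp only [mix, if_neg h]; exact continuous_apply i


/-- Cylinders over coordinates in `T`, with codes in a countable type. -/
def cc (T : Set I) (b : Finset T × ℕ × Finset (T × ℕ)) : Set (X I) :=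
  {x | ∀ i ∈ b.1, ∀ n < b.2.1, (x i n = true ↔ (i, n) ∈ b.2.2)}

theorem cc_open (T : Set I) (b : Finset T × ℕ × Finset (T × ℕ)) : IsOpen (cc T b) := by
  have h : cc T b = ⋂ i ∈ b.1, ⋂ n ∈ Finset.range b.2.1,
      (fun x : X I => x i n) ⁻¹' {c | c = true ↔ (i, n) ∈ b.2.2} := by
    ext x
    simp [cc]
  rw [h]
  refine isOpen_biInter_finset fun i _ => isOpen_biInter_finset fun n _ => ?_
  exact (isOpen_discrete _).preimage ((continuous_apply n).comp (continuous_apply _))

theorem cc_dep (T : Set I) (b : Finset T × ℕ × Finset (T × ℕ)) {x y : X I}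
    (h : ∀ i ∈ T, x i = y i) (hx : x ∈ cc T b) : y ∈ cc T b := by
  intro i hi n hn
  rw [← h i i.2]
  exact hx i hi n hn

theorem cc_nonempty (T : Set I) (b : Finset T × ℕ × Finset (T × ℕ)) : (cc T b).Nonempty := by
  classical
  refine ⟨fun i n => if h : i ∈ T then decide (((⟨i, h⟩ : T), n) ∈ b.2.2) else false, ?_⟩
  intro i _ n _
  simp

theorem mix_of_mem {T : Set I} {x y : X I} {i : I} (h : i ∈ T) : mix T x y i = x i := by
  simp [mix, h]

theorem mix_of_not_mem {T : Set I} {x y : X I} {i : I} (h : i ∉ T) : mix T x y i = y i := by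
  simp [mix, h]

theorem key {T : Set I} (hT : T.Countable) {O : Set (X I)} (hO : IsOpen O) (hO' : Dense O) :
    ∀ᶠ y in residual (X I), ∀ᶠ x in residual (X I), mix T x y ∈ O := by
  classical
  have hc : Countable T := hT.to_subtype
  have h1 : ∀ b : Finset T × ℕ × Finset (T × ℕ), ∀ᶠ y in residual (X I),
      ∃ x ∈ cc T b, mix T x y ∈ O := by
    intro b
    have ho : IsOpen {y | ∃ x ∈ cc T b, mix T x y ∈ O} := by
      have : {y | ∃ x ∈ cc T b, mix T x y ∈ O} = ⋃ x ∈ cc T b, (fun y => mix T x y) ⁻¹' O := by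
        ext y
        simp
      rw [this]
      exact isOpen_biUnion fun x _ => hO.preimage (mix_cont_right T x)
    refine residual_of_dense_open ho ?_
    rw [dense_iff_inter_open]
    rintro V hV ⟨p, hp⟩
    obtain ⟨s, N, hs⟩ := exists_cyl hV hp
    obtain ⟨b0, hb0⟩ := cc_nonempty T b
    have h2 : (cc T b ∩ cyl (s.filter (fun i => i ∉ T)) N p).Nonempty := by
      refine ⟨mix T b0 p, cc_dep T b (fun i hi => (mix_of_mem hi).symm) hb0, ?_⟩
      intro i hi n _
      rw [mix_of_not_mem (Finset.mem_filter.1 hi).2]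
    obtain ⟨z, ⟨hz1, hz2⟩, hz3⟩ := hO'.inter_open_nonempty _
      ((cc_open T b).inter (cyl_open _ N p)) h2
    refine ⟨mix T p z, hs ?_, z, hz1, ?_⟩
    · intro i hi n hn
      by_cases hiT : i ∈ T
      · rw [mix_of_mem hiT]
      · rw [mix_of_not_mem hiT]
        exact hz2 i (Finset.mem_filter.2 ⟨hi, hiT⟩) n hn
    · have h3 : mix T z (mix T p z) = z := by
        funext i
        by_cases hiT : i ∈ T
        · rw [mix_of_mem hiT]
        · rw [mix_of_not_mem hiT, mix_of_not_mem hiT]
      rwa [h3]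
  have h2 := eventually_countable_forall.2 h1
  refine h2.mono fun y hy => ?_
  refine residual_of_dense_open (hO.preimage (mix_cont_left T y)) ?_
  rw [dense_iff_inter_open]
  rintro V hV ⟨p, hp⟩
  obtain ⟨s, N, hs⟩ := exists_cyl hV hp
  let b : Finset T × ℕ × Finset (T × ℕ) := ⟨s.subtype (fun i => i ∈ T), N,
    ((s.subtype (fun i => i ∈ T)) ×ˢ Finset.range N).filter (fun t => p t.1 t.2 = true)⟩
  obtain ⟨x, hx1, hx2⟩ := hy b
  refine ⟨mix T x p, hs ?_, ?_⟩
  · intro i hi n hn
    by_cases hiT : i ∈ T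
    · rw [mix_of_mem hiT]
      have h4 := hx1 ⟨i, hiT⟩ (Finset.mem_subtype.2 hi) n hn
      have h5 : ((⟨i, hiT⟩ : T), n) ∈ b.2.2 ↔ p i n = true := by
        simp only [b, Finset.mem_filter, Finset.mem_product, Finset.mem_subtype,
          Finset.mem_range]
        constructor
        · exact fun h => h.2
        · exact fun h => ⟨⟨hi, hn⟩, h⟩
      rw [h5] at h4
      exact Bool.eq_iff_iff.2 h4
    · rw [mix_of_not_mem hiT]
  · have h3 : mix T (mix T x p) y = mix T x y := by
      funext i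
      by_cases hiT : i ∈ T
      · rw [mix_of_mem hiT, mix_of_mem hiT, mix_of_mem hiT]
      · rw [mix_of_not_mem hiT, mix_of_not_mem hiT]
    change mix T (mix T x p) y ∈ O
    rwa [h3]

theorem main : S_KU := by
  intro I T hT A hA
  obtain ⟨S, h1, h2, h3, h4⟩ := mem_residual_iff.1 hA
  have h5 : ∀ᶠ y in residual (X I), ∀ O ∈ S, ∀ᶠ x in residual (X I), mix T x y ∈ O :=
    (eventually_countable_ball h3).2 fun O hO => key hT (h1 O hO) (h2 O hO)
  refine h5.mono fun y hy => ?_
  have h6 : ∀ᶠ x in residual (X I), ∀ O ∈ S, mix T x y ∈ O := (eventually_countable_ball h3).2 hy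
  exact h6.mono fun x hx => h4 (Set.mem_sInter.2 hx)

end Pool.Agent.W910.BG.T_KU
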