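import Pool.Agent.W910.BG.Names

/-!
# Symmetry of the names (BG-NAM, by helper440)
-/

set_option autoImplicit false

namespace Pool.Agent.W910.BG.T_NAM

open Pool.Agent.W868 Pool.Agent.W868.PName Pool.Agent.W910.SY
open ZFSet (pair)

variable {I : Type} {Γ : SimpleGraph (ℕ → ℕ)}

theorem htop (θ : X I ≃ₜ X I) : (smQ θ : Q I Γ ≃o Q I Γ) ⊤ = ⊤ := (sys I Γ).top θ

theorem smQ_top (θ : X I ≃ₜ X I) (U : U0 I) :
    (smQ θ : Q I Γ ≃o Q I Γ) (⊤, U) = (⊤, smU θ U) :=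
  Prod.ext (Subtype.ext (Set.image_empty _)) rfl

theorem el_realN {f : NR I} {z : PName (Q I Γ)} {c : Q I Γ} : El (realN Γ f) z c ↔
    ∃ (n m : ℕ) (U : U0 I), (∀ x ∈ U.1, f.1 x n = m) ∧ z = check (pair (nat n) (nat m)) ∧
      c = (⊤, U) := by
  rw [realN, el_mk]
  constructor
  · rintro ⟨⟨⟨⟨n, m⟩, U⟩, h⟩, rfl, rfl⟩
    exact ⟨n, m, U, h, rfl, rfl⟩
  · rintro ⟨n, m, U, h, rfl, rfl⟩
    exact ⟨⟨⟨⟨n, m⟩, U⟩, h⟩, rfl, rfl⟩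

theorem el_setN {A : X I → ℕ → Bool} {z : PName (Q I Γ)} {c : Q I Γ} : El (setN Γ A) z c ↔
    ∃ (n : ℕ) (U : U0 I), (∀ x ∈ U.1, A x n = true) ∧ z = check (nat n) ∧ c = (⊤, U) := by
  rw [setN, el_mk]
  constructor
  · rintro ⟨⟨⟨n, U⟩, h⟩, rfl, rfl⟩
    exact ⟨n, U, h, rfl, rfl⟩
  · rintro ⟨n, U, h, rfl, rfl⟩
    exact ⟨⟨⟨n, U⟩, h⟩, rfl, rfl⟩

theorem el_colN {z : PName (Q I Γ)} {c : Q I Γ} : El (colN I Γ) z c ↔
    ∃ (f : NR I) (b : Bool), (∃ h : NC I, (f, h) ∈ c.1.1 ∧ ∀ x ∈ c.2.1, h.1 x = b) ∧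
      z = opN (realN Γ f) (check (bn b)) := by
  rw [colN, el_mk]
  constructor
  · rintro ⟨⟨⟨⟨f, b⟩, q⟩, h⟩, rfl, rfl⟩
    exact ⟨f, b, h, rfl⟩
  · rintro ⟨f, b, h, rfl⟩
    exact ⟨⟨⟨⟨f, b⟩, c⟩, h⟩, rfl, rfl⟩

theorem feq_act_realN (θ : X I ≃ₜ X I) (f : NR I) (p : Q I Γ) :
    Feq (act (smQ θ) (realN Γ f)) (realN Γ (smR θ f)) p := by
  refine feq_of_el fun z c => ?_
  rw [el_act, el_realN]
  constructor
  · rintro ⟨z', c', hz, rfl, rfl⟩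
    obtain ⟨n, m, U, h, rfl, rfl⟩ := el_realN.1 hz
    refine ⟨n, m, smU θ U, ?_, act_check (htop θ) _, smQ_top θ U⟩
    rintro _ ⟨x, hx, rfl⟩
    change f.1 (θ.symm (θ x)) n = m
    rw [θ.symm_apply_apply]
    exact h x hx
  · rintro ⟨n, m, U, h, rfl, rfl⟩
    refine ⟨_, _, el_realN.2 ⟨n, m, smU θ⁻¹ U, ?_, rfl, rfl⟩, (act_check (htop θ) _).symm, ?_⟩
    · rintro _ ⟨x, hx, rfl⟩
      exact h x hx
    · rw [smQ_top, ← smU_mul, mul_inv_cancel, smU_one]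

theorem feq_act_setN (θ : X I ≃ₜ X I) (A : X I → ℕ → Bool) (p : Q I Γ) :
    Feq (act (smQ θ) (setN Γ A)) (setN Γ fun x => A (θ.symm x)) p := by
  refine feq_of_el fun z c => ?_
  rw [el_act, el_setN]
  constructor
  · rintro ⟨z', c', hz, rfl, rfl⟩
    obtain ⟨n, U, h, rfl, rfl⟩ := el_setN.1 hz
    refine ⟨n, smU θ U, ?_, act_check (htop θ) _, smQ_top θ U⟩
    rintro _ ⟨x, hx, rfl⟩
    change A (θ.symm (θ x)) n = true
    rw [θ.symm_apply_apply]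
    exact h x hx
  · rintro ⟨n, U, h, rfl, rfl⟩
    refine ⟨_, _, el_setN.2 ⟨n, smU θ⁻¹ U, ?_, rfl, rfl⟩, (act_check (htop θ) _).symm, ?_⟩
    · rintro _ ⟨x, hx, rfl⟩
      exact h x hx
    · rw [smQ_top, ← smU_mul, mul_inv_cancel, smU_one]

theorem hs_realN (f : NR I) : (sys I Γ).HS (realN Γ f) := by
  refine (sys I Γ).hs_iff.2 ⟨?_, fun z c hz => ?_⟩
  · obtain ⟨S, hS, hf⟩ := f.2.1
    refine ⟨Fx S, ⟨S, hS, rfl⟩, fun θ hθ p => ?_⟩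
    have h1 : smR θ f = f := by
      refine Subtype.ext (funext fun x => hf _ _ fun i hi => ?_)
      have h2 : θ⁻¹ ∈ Fx S := (Fx S).inv_mem hθ
      exact h2 x i hi
    have h3 := feq_act_realN (Γ := Γ) θ f p
    rw [h1] at h3
    exact h3
  · obtain ⟨n, m, U, -, rfl, -⟩ := el_realN.1 hz
    exact (sys I Γ).hs_check _

theorem key (θ : X I ≃ₜ X I) {q : Q I Γ} {f : NR I} {b : Bool}
    (h : ∃ h : NC I, (f, h) ∈ q.1.1 ∧ ∀ x ∈ q.2.1, h.1 x = b) :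
    ∃ h : NC I, (smR θ f, h) ∈ ((smQ θ : Q I Γ ≃o Q I Γ) q).1.1 ∧
      ∀ x ∈ ((smQ θ : Q I Γ ≃o Q I Γ) q).2.1, h.1 x = b := by
  obtain ⟨g, h1, h2⟩ := h
  refine ⟨smC θ g, ⟨(f, g), h1, rfl⟩, ?_⟩
  rintro _ ⟨x, hx, rfl⟩
  change g.1 (θ.symm (θ x)) = b
  rw [θ.symm_apply_apply]
  exact h2 x hx

theorem hs_colN : (sys I Γ).HS (colN I Γ) := by
  refine (sys I Γ).hs_iff.2 ⟨?_, fun z c hz => ?_⟩
  · refine ⟨Fx ∅, ⟨∅, Set.countable_empty, rfl⟩, fun (θ : X I ≃ₜ X I) _ p => ?_⟩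
    change Feq (act (smQ θ) (colN I Γ)) (colN I Γ) p
    rw [feq_iff']
    constructor
    · intro z c hz q hq hqc
      obtain ⟨z', c', hz', rfl, rfl⟩ := el_act.1 hz
      obtain ⟨f, b, h, rfl⟩ := el_colN.1 hz'
      refine ⟨q, le_rfl, opN (realN Γ (smR θ f)) (check (bn b)), smQ θ c',
        el_colN.2 ⟨_, b, key θ h, rfl⟩, hqc, ?_⟩
      rw [act_opN (htop θ), act_check (htop θ)]
      exact feq_opN (feq_act_realN θ f q) (Feq.refl _ _)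
    · intro w d hw q hq hqd
      obtain ⟨f, b, h, rfl⟩ := el_colN.1 hw
      have h1 : (smQ θ : Q I Γ ≃o Q I Γ) (smQ θ⁻¹ d) = d := (smQ θ).toEquiv.right_inv d
      have h2 : smR θ (smR θ⁻¹ f) = f := by
        refine Subtype.ext (funext fun x => ?_)
        change f.1 (θ (θ.symm x)) = f.1 x
        rw [θ.apply_symm_apply]
      refine ⟨q, le_rfl, act (smQ θ) (opN (realN Γ (smR θ⁻¹ f)) (check (bn b))),
        smQ θ (smQ θ⁻¹ d), el_act.2 ⟨_, _, el_colN.2 ⟨_, b, key θ⁻¹ h, rfl⟩, rfl, rfl⟩, ?_, ?_⟩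
      · rw [h1]
        exact hqd
      · rw [act_opN (htop θ), act_check (htop θ)]
        have h3 := feq_act_realN (Γ := Γ) θ (smR θ⁻¹ f) q
        rw [h2] at h3
        exact feq_opN h3 (Feq.refl _ _)
  · obtain ⟨f, b, -, rfl⟩ := el_colN.1 hz
    exact (sys I Γ).hs_opN (hs_realN f) ((sys I Γ).hs_check _)

theorem main : S_NAM := fun _ _ =>
  ⟨fun f => hs_realN f, hs_colN, fun θ A p => feq_act_setN θ A p⟩

end Pool.Agent.W910.BG.T_NAM
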