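import Pool.Agent.W910.BG.Names

/-!
# Two-colourings of Borel bipartite graphs without ultrafilters: names for reals
-/

set_option autoImplicit false

namespace Pool.Agent.W910.BG.T_REAL

open Pool.Agent.W868 Pool.Agent.W868.PName Pool.Agent.W910.SY Pool.Agent.W910.BG
open ZFSet (pair)
open Topology Filter

variable {I : Type} {Γ : SimpleGraph (ℕ → ℕ)}

/-- `s'` is a name for a function on the natural numbers. -/
def FR {P : Type} [Preorder P] [OrderTop P] (s' : PName P) (π : Pkg P) : Prop :=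
  (∀ z ∈ π.val s', ∃ a ∈ π.hat ZFSet.omega, ∃ b ∈ π.hat ZFSet.omega, z = pair a b) ∧
  (∀ a ∈ π.hat ZFSet.omega, ∃ b ∈ π.hat ZFSet.omega, pair a b ∈ π.val s') ∧
  (∀ a ∈ π.hat ZFSet.omega, ∀ b ∈ π.hat ZFSet.omega, ∀ c ∈ π.hat ZFSet.omega,
    pair a b ∈ π.val s' → pair a c ∈ π.val s' → b = c)

theorem ndfn_FR {P : Type} [Preorder P] [OrderTop P] (s' : PName P) :
    NDfn ({s', check ZFSet.omega} : Set (PName P))
      (fun π (_ : Fin 0 → ZFSet.{0}) => FR s' π) := by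
  have hs : s' ∈ ({s', check ZFSet.omega} : Set (PName P)) := Or.inl rfl
  have ho : check ZFSet.omega ∈ ({s', check ZFSet.omega} : Set (PName P)) := Or.inr rfl
  unfold FR
  refine NDfn.and ?_ (NDfn.and ?_ ?_)
  · refine NDfn.ball (Q := fun π z _ => ∃ a ∈ π.hat ZFSet.omega, ∃ b ∈ π.hat ZFSet.omega,
      z = pair a b) (NDfnF.val hs) ?_
    refine NDfn.bex (Q := fun π a w => ∃ b ∈ π.hat ZFSet.omega, w 0 = pair a b)
      (NDfnF.hat ho) ?_
    refine NDfn.bex (Q := fun π b w => w 1 = pair (w 0) b) (NDfnF.hat ho) ?_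
    exact NDfn.eq (NDfnF.proj 2) ((NDfnF.proj 1).pair (NDfnF.proj 0))
  · refine NDfn.ball (Q := fun π a _ => ∃ b ∈ π.hat ZFSet.omega, pair a b ∈ π.val s')
      (NDfnF.hat ho) ?_
    refine NDfn.bex (Q := fun π b w => pair (w 0) b ∈ π.val s') (NDfnF.hat ho) ?_
    exact NDfn.mem ((NDfnF.proj 1).pair (NDfnF.proj 0)) (NDfnF.val hs)
  · refine NDfn.ball (Q := fun π a _ => ∀ b ∈ π.hat ZFSet.omega, ∀ c ∈ π.hat ZFSet.omega,
      pair a b ∈ π.val s' → pair a c ∈ π.val s' → b = c) (NDfnF.hat ho) ?_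
    refine NDfn.ball (Q := fun π b w => ∀ c ∈ π.hat ZFSet.omega,
      pair (w 0) b ∈ π.val s' → pair (w 0) c ∈ π.val s' → b = c) (NDfnF.hat ho) ?_
    refine NDfn.ball (Q := fun π c w =>
      pair (w 1) (w 0) ∈ π.val s' → pair (w 1) c ∈ π.val s' → w 0 = c) (NDfnF.hat ho) ?_
    refine NDfn.imp (NDfn.mem ((NDfnF.proj 2).pair (NDfnF.proj 1)) (NDfnF.val hs)) ?_
    refine NDfn.imp (NDfn.mem ((NDfnF.proj 2).pair (NDfnF.proj 0)) (NDfnF.val hs)) ?_
    exact NDfn.eq (NDfnF.proj 1) (NDfnF.proj 0)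

theorem val_check {P : Type} [Preorder P] [OrderTop P] (π : Pkg P) (n m : ℕ) :
    π.val (check (pair (nat n) (nat m))) = pair (nat n) (nat m) := by
  have h := π.hat_pair (π.nat_Z n) (π.nat_Z m)
  rw [π.hat_nat, π.hat_nat] at h
  exact h

theorem check_N {P : Type} [Preorder P] [OrderTop P] (π : Pkg P) (n m : ℕ) :
    (check (pair (nat n) (nat m)) : PName P) ∈ π.N :=
  π.pair_mem_Z (π.nat_Z n) (π.nat_Z m)

theorem nat_mem {P : Type} [Preorder P] [OrderTop P] (π : Pkg P) (n : ℕ) :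
    nat n ∈ π.hat ZFSet.omega := by
  rw [π.hat_omega]
  exact mem_omega_iff.2 ⟨n, rfl⟩

theorem of_mem {P : Type} [Preorder P] [OrderTop P] (π : Pkg P) {x : ZFSet.{0}}
    (h : x ∈ π.hat ZFSet.omega) : ∃ n, x = nat n := by
  rw [π.hat_omega] at h
  exact mem_omega_iff.1 h

theorem fr_of_isFunc {P : Type} [Preorder P] [OrderTop P] (s' : PName P) (π : Pkg P)
    (h : ZFSet.IsFunc ZFSet.omega ZFSet.omega (π.val s')) : FR s' π := by
  refine ⟨?_, ?_, ?_⟩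
  · intro z hz
    obtain ⟨a, ha, b, hb, hab⟩ := ZFSet.mem_prod.1 (h.1 hz)
    rw [π.hat_omega]
    exact ⟨a, ha, b, hb, hab⟩
  · intro a ha
    rw [π.hat_omega] at ha ⊢
    obtain ⟨b, hb, -⟩ := h.2 a ha
    exact ⟨b, (ZFSet.pair_mem_prod.1 (h.1 hb)).2, hb⟩
  · intro a ha b _ c _ hb hc
    rw [π.hat_omega] at ha
    obtain ⟨d, -, hd⟩ := h.2 a ha
    exact (hd b hb).trans (hd c hc).symm

/-- the first of the sets containing the point -/
def WW (U : ℕ → U0 I) (j : ℕ) : Set (X I) := {x | x ∈ (U j).1 ∧ ∀ i < j, x ∉ (U i).1}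

theorem isOpen_WW (U : ℕ → U0 I) (hU : ∀ j, IsClopen (U j).1) (j : ℕ) : IsOpen (WW U j) := by
  have h1 : WW U j = (U j).1 ∩ ⋂ i ∈ Finset.range j, ((U i).1)ᶜ := by
    ext x
    simp [WW]
  rw [h1]
  exact (U j).2.1.inter (isOpen_biInter_finset fun i _ => (hU i).1.isOpen_compl)

open Classical in
/-- the name of the real -/
noncomputable def ff (U : ℕ → ℕ → U0 I) (m : ℕ → ℕ → ℕ) (x : X I) (n : ℕ) : ℕ :=
  if h : ∃ j, x ∈ (U n j).1 then m n (Nat.find h) else 0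

theorem exists_WW {U : ℕ → U0 I} {x : X I} (h : ∃ j, x ∈ (U j).1) : ∃ j, x ∈ WW U j := by
  classical
  exact ⟨Nat.find h, Nat.find_spec h, fun i hi => Nat.find_min h hi⟩

theorem ff_eq {U : ℕ → ℕ → U0 I} {m : ℕ → ℕ → ℕ} {x : X I} {n j : ℕ} (h : x ∈ WW (U n) j) :
    ff U m x n = m n j := by
  classical
  have h1 : ∃ j, x ∈ (U n j).1 := ⟨j, h.1⟩
  unfold ff
  rw [dif_pos h1]
  congr 1
  exact (Nat.find_eq_iff h1).2 ⟨h.1, fun i hi => h.2 i hi⟩

theorem ff_zero {U : ℕ → ℕ → U0 I} {m : ℕ → ℕ → ℕ} {x : X I} {n : ℕ}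
    (h : ¬ ∃ j, x ∈ (U n j).1) : ff U m x n = 0 := by
  classical
  unfold ff
  rw [dif_neg h]

theorem ff_sup {U : ℕ → ℕ → U0 I} (m : ℕ → ℕ → ℕ) {J : Set I}
    (hU : ∀ n j, ∀ x y : X I, (∀ i ∈ J, x i = y i) → (x ∈ (U n j).1 ↔ y ∈ (U n j).1)) :
    SupOn J (ff U m) := by
  intro x y hxy
  funext n
  have h1 : ∀ j, x ∈ (U n j).1 ↔ y ∈ (U n j).1 := fun j => hU n j x y hxy
  by_cases h : ∃ j, x ∈ (U n j).1
  · obtain ⟨j, hj⟩ := exists_WW h
    rw [ff_eq hj, ff_eq (j := j) ⟨(h1 j).1 hj.1, fun i hi hy => hj.2 i hi ((h1 i).2 hy)⟩]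
  · rw [ff_zero h, ff_zero (fun ⟨j, hj⟩ => h ⟨j, (h1 j).2 hj⟩)]

theorem ff_lc {U : ℕ → ℕ → U0 I} (m : ℕ → ℕ → ℕ) (hU : ∀ n j, IsClopen (U n j).1) (n : ℕ) :
    LC (fun x => ff U m x n) := by
  unfold LC
  rw [dense_iff_inter_open]
  intro V hV hne
  by_cases h : ∃ x ∈ V, ∃ j, x ∈ (U n j).1
  · obtain ⟨x, hx, h⟩ := h
    obtain ⟨j, hj⟩ := exists_WW h
    refine ⟨x, hx, ?_⟩
    change ∀ᶠ y in 𝓝 x, ff U m y n = ff U m x n
    filter_upwards [(isOpen_WW (U n) (hU n) j).mem_nhds hj] with y hy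
    rw [ff_eq hy, ff_eq hj]
  · obtain ⟨x, hx⟩ := hne
    refine ⟨x, hx, ?_⟩
    change ∀ᶠ y in 𝓝 x, ff U m y n = ff U m x n
    filter_upwards [hV.mem_nhds hx] with y hy
    rw [ff_zero (fun h' => h ⟨y, hy, h'⟩), ff_zero (fun h' => h ⟨x, hx, h'⟩)]

theorem main (hDS : S_DS2) : S_REAL := by
  intro I Γ π hR s hs hfun
  obtain ⟨s', hs', rfl⟩ := hs
  have hT := r0_mem hR (show r0 _ ∈ ruR I Γ from Or.inl rfl) hs' 0
  obtain ⟨k, ⟨r, ⟨f, hf⟩, hkr⟩ | hk⟩ := gen_nm π hT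
  · have hkT : ∃ f : NR I, Feq s' (realN Γ f) (π.g k) := ⟨f, hf.mono hkr⟩
    have h1 := r0_mem hR (show r0 _ ∈ ruR I Γ from Or.inr (Or.inl rfl)) hs' k
    simp only [dif_pos hkT] at h1
    have h2 := r1_mem hR (show r1 _ ∈ ruR I Γ from Or.inr (Or.inr rfl)) (a := hkT.choose) h1 0
    exact ⟨hkT.choose, h1, (π.val_eq_iff hs' h2).2 ⟨k, hkT.choose_spec⟩⟩
  exfalso
  have hSN : ({s', check ZFSet.omega} : Set (PName (Q I Γ))) ⊆ π.N := by
    rintro x (rfl | rfl)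
    · exact hs'
    · exact π.om
  obtain ⟨k', hk'⟩ := forcing_theorem (ndfn_FR s') π hSN (fr_of_isFunc s' π hfun)
  set p0 := π.g (max k k') with hp0
  have hfr : ∀ π' : Pkg (Q I Γ), s' ∈ π'.N → π'.g 0 ≤ p0 → FR s' π' := by
    intro π' h1 h2
    refine hk' π' ?_ ⟨0, h2.trans (π.g_le_right k k')⟩
    rintro x (rfl | rfl)
    · exact h1
    · exact π'.om
  obtain ⟨p', hp', J, hJ, U, hU1, hU2, hU3⟩ := hDS I Γ
    (fun n => {r | ∃ m : ℕ, Fmem (check (pair (nat n) (nat m))) s' r}) p0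
    (by
      rintro n q ⟨m, hm⟩ r hr
      exact ⟨m, hm.mono hr⟩)
    (by
      intro n q hq
      obtain ⟨π', hN', hg'⟩ := exists_pkg' ({s'} : Set (PName (Q I Γ)))
        (Set.countable_singleton _) q
      have hsN : s' ∈ π'.N := hN' rfl
      obtain ⟨-, h2, -⟩ := hfr π' hsN (by rw [hg']; exact hq)
      obtain ⟨b, hb, hab⟩ := h2 (nat n) (nat_mem π' n)
      obtain ⟨m, rfl⟩ := of_mem π' hb
      rw [← val_check π' n m, π'.val_mem_iff (check_N π' n m) hsN] at hab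
      obtain ⟨i, hi⟩ := hab
      refine ⟨π'.g i, ?_, m, hi⟩
      rw [← hg']
      exact π'.g_anti (Nat.zero_le i))
  choose m hm using hU2
  have hcl : ∀ n j, IsClopen (U n j).1 := fun n j => (hU1 n j).1
  let F : NR I := ⟨ff U m, ⟨J, hJ, ff_sup m fun n j => (hU1 n j).2⟩, ff_lc m hcl⟩
  have claim : Feq s' (realN Γ F) p' := by
    refine feq_dense fun q hq => ?_
    obtain ⟨π', hN', hg'⟩ := exists_pkg' ({s', realN Γ F} ∪
      Set.range fun n : ℕ => Sys.nm (Q I Γ) {r | ∃ j, r.2.1 ⊆ WW (U n) j})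
      ((Set.toFinite _).countable.union (Set.countable_range _)) q
    have hsN : s' ∈ π'.N := hN' (Or.inl (Or.inl rfl))
    have hrN : realN Γ F ∈ π'.N := hN' (Or.inl (Or.inr rfl))
    obtain ⟨f1, f2, f3⟩ := hfr π' hsN (by rw [hg']; exact hq.trans hp')
    have hgq : ∀ i, π'.g i ≤ p' := fun i => (π'.g_anti (Nat.zero_le i)).trans (by rw [hg']; exact hq)
    -- genericity
    have key : ∀ n : ℕ, ∃ i j, (∀ x ∈ (π'.g i).2.1, ff U m x n = m n j) ∧
        pair (nat n) (nat (m n j)) ∈ π'.val s' ∧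
        pair (nat n) (nat (m n j)) ∈ π'.val (realN Γ F) := by
      intro n
      obtain ⟨i, -, j, hij⟩ := gen_dense' π' (m := 0)
        (A := {r | ∃ j, r.2.1 ⊆ WW (U n) j}) (hN' (Or.inr ⟨n, rfl⟩))
        (by
          rintro r ⟨j, hj⟩ q' hq'
          exact ⟨j, (show q'.2.1 ⊆ r.2.1 from hq'.2).trans hj⟩)
        (by
          intro q' hq'
          have h1 : q' ≤ p' := hq'.trans (hgq 0)
          obtain ⟨j, x, hxV, hxU⟩ := hU3 n q'.2 h1.2
          obtain ⟨j0, hj0⟩ := exists_WW (U := U n) ⟨j, hxU⟩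
          refine ⟨(q'.1, ⟨q'.2.1 ∩ WW (U n) j0, q'.2.2.1.inter (isOpen_WW (U n) (hcl n) j0),
            ⟨x, hxV, hj0⟩⟩), ⟨le_rfl, fun y hy => hy.1⟩, j0, fun y hy => hy.2⟩)
      have hfx : ∀ x ∈ (π'.g i).2.1, ff U m x n = m n j := fun x hx => ff_eq (hij hx)
      refine ⟨i, j, hfx, ?_, ?_⟩
      · rw [← val_check π' n (m n j), π'.val_mem_iff (check_N π' n (m n j)) hsN]
        refine ⟨i, (hm n j).mono ⟨(hgq i).1, ?_⟩⟩
        exact fun x hx => (hij hx).1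
      · rw [← val_check π' n (m n j)]
        refine π'.val_mem_val (c := (⊤, (π'.g i).2)) (n := i) (check_N π' n (m n j)) ?_ ?_
        · unfold realN
          rw [el_mk]
          exact ⟨⟨((n, m n j), (π'.g i).2), hfx⟩, rfl, rfl⟩
        · exact ⟨le_top, le_rfl⟩
    have heq : π'.val s' = π'.val (realN Γ F) := by
      ext z
      constructor
      · intro hz
        obtain ⟨a, ha, b, hb, rfl⟩ := f1 z hz
        obtain ⟨n, rfl⟩ := of_mem π' ha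
        obtain ⟨i, j, -, h2, h3⟩ := key n
        rw [f3 _ ha _ hb _ (nat_mem π' (m n j)) hz h2]
        exact h3
      · intro hz
        obtain ⟨y, hy, c, hc, ⟨i, hi⟩, rfl⟩ := π'.mem_val.1 hz
        unfold realN at hc
        rw [el_mk] at hc
        obtain ⟨⟨⟨⟨n, a⟩, V⟩, hV⟩, rfl, rfl⟩ := hc
        obtain ⟨i', j, h1, h2, -⟩ := key n
        obtain ⟨x, hx⟩ := (π'.g (max i i')).2.2.2
        have h3 : ff U m x n = m n j := h1 x ((π'.g_le_right i i').2 hx)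
        have h4 : ff U m x n = a := hV x ((show (π'.g i).2.1 ⊆ V.1 from hi.2)
          ((π'.g_le_left i i').2 hx))
        have h5 : pair (nat n) (nat a) ∈ π'.val s' := by
          rw [← h4, h3]
          exact h2
        rw [val_check]
        exact h5
    obtain ⟨i, hi⟩ := (π'.val_eq_iff hsN hrN).1 heq
    refine ⟨π'.g i, ?_, hi⟩
    rw [← hg']
    exact π'.g_anti (Nat.zero_le i)
  exact hk p' (hp'.trans (π.g_le_left k k')) ⟨F, claim⟩

end Pool.Agent.W910.BG.T_REAL
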