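import Pool.Agent.W910.BG.Names

/-!
# There is no nonprincipal ultrafilter in the symmetric submodel
-/

set_option autoImplicit false

namespace Pool.Agent.W910.BG.T_ULT

open Pool.Agent.W868 Pool.Agent.W868.PName Pool.Agent.W910.SY Pool.Agent.W910.BG
open ZFSet (pair)

section R

variable {P : Type} [Preorder P] [OrderTop P]

/-- The properties of the value of `U` that are used. -/
def RU (U : PName P) (π : Pkg P) : Prop :=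
  (∀ x ∈ π.val U, ∀ y ∈ π.val U, x ∩ y ∈ π.val U) ∧
  (∀ x ∈ π.val U, ∀ n ∈ ZFSet.omega, ¬ x ⊆ n) ∧
  (∀ x ∈ π.W, x ⊆ ZFSet.omega → x ∈ π.val U ∨ ZFSet.omega \ x ∈ π.val U)

theorem ndfn1 {S : Set (PName P)} {U : PName P} (hU : U ∈ S) :
    NDfn S fun π (_ : Fin 0 → ZFSet.{0}) =>
      ∀ x ∈ π.val U, ∀ y ∈ π.val U, x ∩ y ∈ π.val U := by
  have h1 : NDfn S fun π (_ : Fin 0 → ZFSet.{0}) => ∀ x ∈ π.val U, ∀ y ∈ π.val U,
      ∃ z ∈ π.val U, (∀ w ∈ z, w ∈ x ∧ w ∈ y) ∧ ∀ w ∈ x, w ∈ y → w ∈ z := by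
    refine NDfn.ball (Q := fun π x _ => ∀ y ∈ π.val U, ∃ z ∈ π.val U,
      (∀ w ∈ z, w ∈ x ∧ w ∈ y) ∧ ∀ w ∈ x, w ∈ y → w ∈ z) (NDfnF.val hU) ?_
    refine NDfn.ball (Q := fun π y v => ∃ z ∈ π.val U,
      (∀ w ∈ z, w ∈ v 0 ∧ w ∈ y) ∧ ∀ w ∈ v 0, w ∈ y → w ∈ z) (NDfnF.val hU) ?_
    refine NDfn.bex (Q := fun π z v => (∀ w ∈ z, w ∈ v 1 ∧ w ∈ v 0) ∧
      ∀ w ∈ v 1, w ∈ v 0 → w ∈ z) (NDfnF.val hU) ?_
    refine NDfn.and (NDfn.ball (Q := fun π u v => u ∈ v 2 ∧ u ∈ v 1) (NDfnF.proj 0) ?_)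
      (NDfn.ball (Q := fun π u v => u ∈ v 1 → u ∈ v 0) (NDfnF.proj 2) ?_)
    · exact (NDfn.mem (NDfnF.proj 0) (NDfnF.proj 3)).and (NDfn.mem (NDfnF.proj 0) (NDfnF.proj 2))
    · exact (NDfn.mem (NDfnF.proj 0) (NDfnF.proj 2)).imp (NDfn.mem (NDfnF.proj 0) (NDfnF.proj 1))
  refine h1.congr fun π _ v _ => forall₂_congr fun x hx => forall₂_congr fun y hy => ?_
  constructor
  · rintro ⟨z, hz, h2, h3⟩
    have h4 : x ∩ y = z := by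
      ext w
      rw [ZFSet.mem_inter]
      exact ⟨fun h => h3 w h.1 h.2, fun h => h2 w h⟩
    rwa [h4]
  · intro h
    exact ⟨_, h, fun w hw => ZFSet.mem_inter.1 hw, fun w h1 h2 => ZFSet.mem_inter.2 ⟨h1, h2⟩⟩

theorem ndfn2 {S : Set (PName P)} {U : PName P} (hU : U ∈ S) (hom : check ZFSet.omega ∈ S) :
    NDfn S fun π (_ : Fin 0 → ZFSet.{0}) =>
      ∀ x ∈ π.val U, ∀ n ∈ ZFSet.omega, ¬ x ⊆ n := by
  have h1 : NDfn S fun π (_ : Fin 0 → ZFSet.{0}) => ∀ x ∈ π.val U, ∀ n ∈ π.hat ZFSet.omega,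
      ¬ ∀ w ∈ x, w ∈ n := by
    refine NDfn.ball (Q := fun π x _ => ∀ n ∈ π.hat ZFSet.omega, ¬ ∀ w ∈ x, w ∈ n)
      (NDfnF.val hU) ?_
    refine NDfn.ball (Q := fun π n v => ¬ ∀ w ∈ v 0, w ∈ n) (NDfnF.hat hom) ?_
    refine NDfn.not (NDfn.ball (Q := fun π u v => u ∈ v 0) (NDfnF.proj 1) ?_)
    exact NDfn.mem (NDfnF.proj 0) (NDfnF.proj 1)
  refine h1.congr fun π _ v _ => ?_
  rw [π.hat_omega]
  exact Iff.rfl

theorem ndfn3 {S : Set (PName P)} {U : PName P} (hU : U ∈ S) (hom : check ZFSet.omega ∈ S) :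
    NDfn S fun π (_ : Fin 0 → ZFSet.{0}) =>
      ∀ x ∈ π.W, x ⊆ ZFSet.omega → x ∈ π.val U ∨ ZFSet.omega \ x ∈ π.val U := by
  have h1 : NDfn S fun π (_ : Fin 0 → ZFSet.{0}) => ∀ x ∈ π.W,
      (∀ w ∈ x, w ∈ π.hat ZFSet.omega) → x ∈ π.val U ∨
        ∃ z ∈ π.val U, (∀ w ∈ z, w ∈ π.hat ZFSet.omega ∧ ¬ w ∈ x) ∧
          ∀ w ∈ π.hat ZFSet.omega, ¬ w ∈ x → w ∈ z := by
    refine NDfn.all (Q := fun π x _ => (∀ w ∈ x, w ∈ π.hat ZFSet.omega) → x ∈ π.val U ∨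
        ∃ z ∈ π.val U, (∀ w ∈ z, w ∈ π.hat ZFSet.omega ∧ ¬ w ∈ x) ∧
          ∀ w ∈ π.hat ZFSet.omega, ¬ w ∈ x → w ∈ z) ?_
    refine NDfn.imp (NDfn.ball (Q := fun π u v => u ∈ π.hat ZFSet.omega) (NDfnF.proj 0) ?_)
      (NDfn.or ?_ (NDfn.bex (Q := fun π z v => (∀ w ∈ z, w ∈ π.hat ZFSet.omega ∧ ¬ w ∈ v 0) ∧
          ∀ w ∈ π.hat ZFSet.omega, ¬ w ∈ v 0 → w ∈ z) (NDfnF.val hU) ?_))
    · exact NDfn.mem (NDfnF.proj 0) (NDfnF.hat hom)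
    · exact NDfn.mem (NDfnF.proj 0) (NDfnF.val hU)
    · refine NDfn.and (NDfn.ball (Q := fun π u v => u ∈ π.hat ZFSet.omega ∧ ¬ u ∈ v 1)
        (NDfnF.proj 0) ?_)
        (NDfn.ball (Q := fun π u v => ¬ u ∈ v 1 → u ∈ v 0) (NDfnF.hat hom) ?_)
      · exact (NDfn.mem (NDfnF.proj 0) (NDfnF.hat hom)).and
          (NDfn.mem (NDfnF.proj 0) (NDfnF.proj 2)).not
      · exact (NDfn.mem (NDfnF.proj 0) (NDfnF.proj 2)).not.imp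
          (NDfn.mem (NDfnF.proj 0) (NDfnF.proj 1))
  refine h1.congr fun π _ v _ => forall₂_congr fun x hx => ?_
  rw [π.hat_omega]
  refine imp_congr Iff.rfl (or_congr Iff.rfl ?_)
  constructor
  · rintro ⟨z, hz, h2, h3⟩
    have h4 : ZFSet.omega \ x = z := by
      ext w
      rw [ZFSet.mem_sdiff]
      exact ⟨fun h => h3 w h.1 h.2, fun h => h2 w h⟩
    rwa [h4]
  · intro h
    exact ⟨_, h, fun w hw => ZFSet.mem_sdiff.1 hw, fun w h1 h2 => ZFSet.mem_sdiff.2 ⟨h1, h2⟩⟩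

theorem ndfn_R (U : PName P) :
    NDfn {U, check ZFSet.omega} fun π (_ : Fin 0 → ZFSet.{0}) => RU U π :=
  (ndfn1 (Or.inl rfl)).and ((ndfn2 (Or.inl rfl) (Or.inr rfl)).and
    (ndfn3 (Or.inl rfl) (Or.inr rfl)))

end R

theorem nat_mem_nat {m n : ℕ} : nat m ∈ nat n ↔ m < n := by
  rw [nat_eq, nat_eq, Ordinal.toZFSet_mem_toZFSet_iff, Nat.cast_lt]

variable {I : Type} {Γ : SimpleGraph (ℕ → ℕ)}

theorem el_setN {A : X I → ℕ → Bool} {z : PName (Q I Γ)} {c : Q I Γ} :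
    El (setN Γ A) z c ↔ ∃ (n : ℕ) (W : U0 I), (∀ x ∈ W.1, A x n = true) ∧
      z = check (nat n) ∧ c = (⊤, W) := by
  rw [setN, el_mk]
  constructor
  · rintro ⟨t, rfl, rfl⟩
    exact ⟨_, _, t.2, rfl, rfl⟩
  · rintro ⟨n, W, h, rfl, rfl⟩
    exact ⟨⟨(n, W), h⟩, rfl, rfl⟩

theorem mem_val_setN {A : X I → ℕ → Bool} (π : Pkg (Q I Γ)) {z : ZFSet.{0}} :
    z ∈ π.val (setN Γ A) ↔ ∃ n, z = nat n ∧ ∃ i, ∀ x ∈ (π.g i).2.1, A x n = true := by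
  rw [π.mem_val]
  constructor
  · rintro ⟨y, -, c, hc, ⟨i, hi⟩, rfl⟩
    obtain ⟨n, W, h, rfl, rfl⟩ := el_setN.1 hc
    exact ⟨n, π.hat_nat n, i, fun x hx => h x (hi.2 hx)⟩
  · rintro ⟨n, rfl, i, hi⟩
    exact ⟨check (nat n), π.nat_Z n, (⊤, (π.g i).2), el_setN.2 ⟨n, _, hi, rfl, rfl⟩,
      ⟨i, ⟨le_top, le_rfl⟩⟩, π.hat_nat n⟩

theorem val_setN_sub {A : X I → ℕ → Bool} (π : Pkg (Q I Γ)) :
    π.val (setN Γ A) ⊆ ZFSet.omega := by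
  intro z hz
  obtain ⟨n, rfl, -⟩ := (mem_val_setN π).1 hz
  exact mem_omega_iff.2 ⟨n, rfl⟩

theorem nat_mem_setN {A : X I → ℕ → Bool} (π : Pkg (Q I Γ)) {n i : ℕ} {c : Bool}
    (h : ∀ x ∈ (π.g i).2.1, A x n = c) : nat n ∈ π.val (setN Γ A) ↔ c = true := by
  rw [mem_val_setN]
  constructor
  · rintro ⟨m, hm, k, hk⟩
    obtain rfl := nat_injective hm
    obtain ⟨x, hx⟩ := (π.g (max i k)).2.2.2
    rw [← h x ((π.g_le_left i k).2 hx)]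
    exact hk x ((π.g_le_right i k).2 hx)
  · rintro rfl
    exact ⟨n, rfl, i, h⟩

/-- The conditions that decide the value of `B . n`. -/
def dn (Γ : SimpleGraph (ℕ → ℕ)) (B : X I → ℕ → Bool) (n : ℕ) : Set (Q I Γ) :=
  {r | ∃ c, ∀ x ∈ r.2.1, B x n = c}

theorem exists_const {B : X I → ℕ → Bool} (hB : ∀ n, Continuous fun x => B x n)
    (π : Pkg (Q I Γ)) (n m : ℕ) (h : Sys.nm (Q I Γ) (dn Γ B n) ∈ π.N) :
    ∃ k ≥ m, ∃ c, ∀ x ∈ (π.g k).2.1, B x n = c := by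
  refine gen_dense' π (A := dn Γ B n) h (m := m) ?_ ?_
  · rintro r ⟨c, hc⟩ q hq
    exact ⟨c, fun x hx => hc x (hq.2 hx)⟩
  · intro q _
    obtain ⟨x₀, hx₀⟩ := q.2.2.2
    have ho : IsOpen {x | B x n = B x₀ n} := (isOpen_discrete {B x₀ n}).preimage (hB n)
    refine ⟨(q.1, ⟨q.2.1 ∩ {x | B x n = B x₀ n}, q.2.2.1.inter ho, x₀, hx₀, rfl⟩),
      ⟨le_rfl, fun x hx => hx.1⟩, B x₀ n, fun x hx => hx.2⟩

/-- The combinatorial part of the argument. -/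
theorem no_three {π : Pkg (Q I Γ)} {U : PName (Q I Γ)} (hR : RU U π)
    {B₀ B₁ B₂ : X I → ℕ → Bool} (h₀ : ∀ n, Continuous fun x => B₀ x n)
    (h₁ : ∀ n, Continuous fun x => B₁ x n) (h₂ : ∀ n, Continuous fun x => B₂ x n)
    (k₀ : ∀ n, Sys.nm (Q I Γ) (dn Γ B₀ n) ∈ π.N) (k₁ : ∀ n, Sys.nm (Q I Γ) (dn Γ B₁ n) ∈ π.N)
    (k₂ : ∀ n, Sys.nm (Q I Γ) (dn Γ B₂ n) ∈ π.N) {N : ℕ} {e : Bool}
    (hN : ∀ x : X I, ∀ n ≥ N, B₂ x n = ((B₀ x n).xor (B₁ x n)).xor e)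
    {T₀ T₁ T₂ : ZFSet.{0}} (hT₀ : T₀ ∈ π.val U) (hT₁ : T₁ ∈ π.val U) (hT₂ : T₂ ∈ π.val U)
    (ho : T₀ ⊆ ZFSet.omega)
    (m₀ : ∀ n, nat n ∈ T₀ → (nat n ∈ π.val (setN Γ B₀) ↔ e = false))
    (m₁ : ∀ n, nat n ∈ T₁ → (nat n ∈ π.val (setN Γ B₁) ↔ e = false))
    (m₂ : ∀ n, nat n ∈ T₂ → (nat n ∈ π.val (setN Γ B₂) ↔ e = false)) : False := by
  refine hR.2.1 _ (hR.1 _ (hR.1 _ hT₀ _ hT₁) _ hT₂) (nat N) (mem_omega_iff.2 ⟨N, rfl⟩) ?_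
  intro z hz
  rw [ZFSet.mem_inter, ZFSet.mem_inter] at hz
  obtain ⟨⟨z₀, z₁⟩, z₂⟩ := hz
  obtain ⟨n, rfl⟩ := mem_omega_iff.1 (ho z₀)
  by_contra hn
  rw [nat_mem_nat, not_lt] at hn
  obtain ⟨i₀, -, c₀, hc₀⟩ := exists_const h₀ π n 0 (k₀ n)
  obtain ⟨i₁, hi₁, c₁, hc₁⟩ := exists_const h₁ π n i₀ (k₁ n)
  obtain ⟨i₂, hi₂, c₂, hc₂⟩ := exists_const h₂ π n i₁ (k₂ n)
  obtain ⟨x, hx⟩ := (π.g i₂).2.2.2
  have e₀ := hc₀ x ((π.g_anti (hi₁.trans hi₂)).2 hx)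
  have e₁ := hc₁ x ((π.g_anti hi₂).2 hx)
  have e₂ := hc₂ x hx
  have h3 := hN x n hn
  have f₀ := (nat_mem_setN π hc₀).symm.trans (m₀ n z₀)
  have f₁ := (nat_mem_setN π hc₁).symm.trans (m₁ n z₁)
  have f₂ := (nat_mem_setN π hc₂).symm.trans (m₂ n z₂)
  rw [e₀, e₁, e₂] at h3
  revert f₀ f₁ f₂ h3
  cases c₀ <;> cases c₁ <;> cases c₂ <;> cases e <;> simp

theorem main (hE : S_EXT) (hC : S_CONF) (hN : S_NAM) : S_ULT := by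
  intro I Γ hI hΓ π U hU hHS hult
  have hom : check ZFSet.omega ∈ π.N := π.om
  have hRπ : RU U π := ⟨hult.2.2.1, hult.2.1, hult.2.2.2.2⟩
  obtain ⟨k, hk⟩ := forcing_theorem (ndfn_R U) π (by
    rintro x (rfl | rfl)
    · exact hU
    · exact hom) hRπ
  obtain ⟨H, ⟨S, hS, rfl⟩, hfix⟩ := hHS.sym
  have hfix' : ∀ θ ∈ (Fx S : Subgroup (X I ≃ₜ X I)), ∀ p : Q I Γ, Feq (act (smQ θ) U) U p :=
    fun θ hθ p => hfix θ hθ p
  obtain ⟨r₀, hr₀, S₁, hS₁, hc₁, hsp, htot⟩ := hE I Γ hΓ (π.g k).1 S hS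
  have hb : ∃ b : I, b ∉ S₁ := by
    by_contra h
    push Not at h
    have h1 : (Set.univ : Set I).Countable := hc₁.mono fun b _ => h b
    exact hI.not_countable (Set.countable_univ_iff.1 h1)
  obtain ⟨b, hb⟩ := hb
  have hFx : ∀ θ ∈ (Fx S₁ : Subgroup (X I ≃ₜ X I)), θ ∈ (Fx S : Subgroup (X I ≃ₜ X I)) :=
    fun θ hθ x i hi => hθ x i (hS₁ hi)
  set A : X I → ℕ → Bool := fun x n => x b n with hA
  have key : ∀ (q₁ : Q I Γ), q₁ ≤ (r₀, (π.g k).2) → ∀ e : Bool,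
      (e = false → Fmem (setN Γ A) U q₁) →
      (e = true → ∀ q ≤ q₁, ¬ Fmem (setN Γ A) U q) → False := by
    intro q₁ hq₁ e he1 he2
    obtain ⟨θ₁, hθ₁, θ₂, hθ₂, q, hqq, hqq₁, hqq₂, N, hNN⟩ :=
      hC I Γ hI hΓ S₁ r₀ q₁.1 q₁.2 b e hc₁ hsp htot hq₁.1 hb
    have hcase : ∀ θ ∈ (Fx S₁ : Subgroup (X I ≃ₜ X I)), q ≤ smQ θ q₁ →
        (e = false → Fmem (setN Γ fun x => A (θ.symm x)) U q) ∧
        (e = true → ∀ r ≤ q, ¬ Fmem (setN Γ fun x => A (θ.symm x)) U r) := by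
      intro θ hθ hq
      constructor
      · intro h
        have h1 := (fmem_act' (e := smQ θ) (he1 h)).mono hq
        exact fmem_congr ((hN I Γ).2.2 θ A q) (hfix' θ (hFx θ hθ) q) h1
      · intro h r hr h1
        have h2 : Fmem (act (smQ θ) (setN Γ A)) (act (smQ θ) U) r :=
          fmem_congr ((hN I Γ).2.2 θ A r).symm (hfix' θ (hFx θ hθ) r).symm h1
        rw [← OrderIso.apply_symm_apply (smQ θ) r, fmem_act] at h2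
        exact he2 h _ ((OrderIso.symm_apply_le _).2 (hr.trans hq)) h2
    set B₁ : X I → ℕ → Bool := fun x => A (θ₁.symm x) with hB₁
    set B₂ : X I → ℕ → Bool := fun x => A (θ₂.symm x) with hB₂
    obtain ⟨π', hπ', h0⟩ := exists_pkg' (({U, setN Γ A, setN Γ B₁, setN Γ B₂} : Set (PName (Q I Γ))) ∪
      ((Set.range fun n => Sys.nm (Q I Γ) (dn Γ A n)) ∪
        ((Set.range fun n => Sys.nm (Q I Γ) (dn Γ B₁ n)) ∪
          (Set.range fun n => Sys.nm (Q I Γ) (dn Γ B₂ n)))))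
      ((Set.toFinite _).countable.union ((Set.countable_range _).union
        ((Set.countable_range _).union (Set.countable_range _)))) q
    have mU : U ∈ π'.N := hπ' (Or.inl (Or.inl rfl))
    have mA : setN Γ A ∈ π'.N := hπ' (Or.inl (Or.inr (Or.inl rfl)))
    have mB₁ : setN Γ B₁ ∈ π'.N := hπ' (Or.inl (Or.inr (Or.inr (Or.inl rfl))))
    have mB₂ : setN Γ B₂ ∈ π'.N := hπ' (Or.inl (Or.inr (Or.inr (Or.inr rfl))))
    have kA : ∀ n, Sys.nm (Q I Γ) (dn Γ A n) ∈ π'.N := fun n => hπ' (Or.inr (Or.inl ⟨n, rfl⟩))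
    have k₁ : ∀ n, Sys.nm (Q I Γ) (dn Γ B₁ n) ∈ π'.N :=
      fun n => hπ' (Or.inr (Or.inr (Or.inl ⟨n, rfl⟩)))
    have k₂ : ∀ n, Sys.nm (Q I Γ) (dn Γ B₂ n) ∈ π'.N :=
      fun n => hπ' (Or.inr (Or.inr (Or.inr ⟨n, rfl⟩)))
    have hR' : RU U π' := hk π' (by
      rintro x (rfl | rfl)
      · exact mU
      · exact π'.om) ⟨0, by
        rw [h0]
        exact hqq.trans (hq₁.trans ⟨hr₀, le_rfl⟩)⟩
    have cA : ∀ n, Continuous fun x => A x n := fun n =>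
      (continuous_apply n).comp (continuous_apply b)
    have c₁ : ∀ n, Continuous fun x => B₁ x n := fun n => (cA n).comp θ₁.symm.continuous
    have c₂ : ∀ n, Continuous fun x => B₂ x n := fun n => (cA n).comp θ₂.symm.continuous
    -- the three sets
    have hset : ∀ B : X I → ℕ → Bool, setN Γ B ∈ π'.N → (e = false → Fmem (setN Γ B) U q) →
        (e = true → ∀ r ≤ q, ¬ Fmem (setN Γ B) U r) →
        ∃ T ∈ π'.val U, T ⊆ ZFSet.omega ∧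
          ∀ n, nat n ∈ T → (nat n ∈ π'.val (setN Γ B) ↔ e = false) := by
      intro B hB h1 h2
      cases e with
      | false =>
        refine ⟨π'.val (setN Γ B), ?_, val_setN_sub π', fun n hn => ⟨fun _ => rfl, fun _ => hn⟩⟩
        rw [π'.val_mem_iff hB mU]
        refine ⟨0, ?_⟩
        rw [h0]
        exact h1 rfl
      | true =>
        have h3 : π'.val (setN Γ B) ∉ π'.val U := by
          rw [π'.val_mem_iff hB mU]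
          rintro ⟨m, hm⟩
          refine h2 rfl _ ?_ hm
          rw [← h0]
          exact π'.g_anti (Nat.zero_le m)
        refine ⟨ZFSet.omega \ π'.val (setN Γ B),
          (hR'.2.2 _ (π'.val_mem_W hB) (val_setN_sub π')).resolve_left h3,
          fun z hz => (ZFSet.mem_sdiff.1 hz).1, fun n hn => ?_⟩
        simp only [(ZFSet.mem_sdiff.1 hn).2, Bool.true_eq_false]
    obtain ⟨T₀, hT₀, ho, m₀⟩ := hset A mA (fun h => (he1 h).mono hqq)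
      (fun h r hr => he2 h r (hr.trans hqq))
    obtain ⟨T₁, hT₁, -, m₁⟩ := hset B₁ mB₁ (hcase θ₁ hθ₁ hqq₁).1 (hcase θ₁ hθ₁ hqq₁).2
    obtain ⟨T₂, hT₂, -, m₂⟩ := hset B₂ mB₂ (hcase θ₂ hθ₂ hqq₂).1 (hcase θ₂ hθ₂ hqq₂).2
    exact no_three hR' cA c₁ c₂ kA k₁ k₂ hNN hT₀ hT₁ hT₂ ho m₀ m₁ m₂
  by_cases hcase : ∃ q₁ ≤ ((r₀, (π.g k).2) : Q I Γ), Fmem (setN Γ A) U q₁
  · obtain ⟨q₁, hq₁, h1⟩ := hcase
    exact key q₁ hq₁ false (fun _ => h1) (fun h => by simp at h)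
  · push Not at hcase
    exact key _ le_rfl true (fun h => by simp at h) (fun _ => hcase)

end Pool.Agent.W910.BG.T_ULT
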