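import Pool.Agent.W910.BG.Col
import Pool.Agent.W910.BG.Bip
import Pool.Agent.W910.BG.T_KU
import Pool.Agent.W910.BG.T_EXT
import Pool.Agent.W910.BG.T_AMA
import Pool.Agent.W910.BG.T_CONF
import Pool.Agent.W910.BG.T_DST
import Pool.Agent.W910.BG.T_NAM
import Pool.Agent.W910.BG.T_REAL
import Pool.Agent.W910.BG.T_ULT
import Pool.Agent.W910.SY.T_DC
import Pool.Agent.W910.SY.T_ZF
import Pool.Agent.W910.SY.T_TRU
import Pool.Agent.W910.SY.T_SEP
import Pool.Agent.W654.SY.CLO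

/-!
# The model
-/

set_option autoImplicit false
set_option linter.unusedSectionVars false
set_option linter.unreachableTactic false
set_option linter.unusedTactic false

namespace Pool.Agent.W910.BG

open Pool.Agent.W868 Pool.Agent.W868.PName Pool.Agent.W910.SY Topology Filter
open ZFSet (pair)

/-- In the transitive class `M`, the set `c` is a function from the Baire space (that is, from the
set of the functions from `ω` to `ω` in `M`) to `2 = {0, 1}`, and for adjacent vertices `x`, `y`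
of the graph `Γ` on the set `X`, the functions `e x` and `e y` (if they are in `M`) do not have
the same value. -/
def IsCol (M : Set ZFSet.{0}) {X : Type} (Γ : SimpleGraph X) (e : X → ℕ → ℕ)
    (c : ZFSet.{0}) : Prop :=
  (∃ N ∈ M, (∀ y, y ∈ N ↔ y ∈ M ∧ ZFSet.IsFunc ZFSet.omega ZFSet.omega y) ∧
    ZFSet.IsFunc N (nat 2) c) ∧
  ∀ x y : X, Γ.Adj x y → ∀ i, ¬ (pair (code (e x)) i ∈ c ∧ pair (code (e y)) i ∈ c)

theorem isFunc_code (y : ℕ → ℕ) : ZFSet.IsFunc ZFSet.omega ZFSet.omega (code y) := by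
  constructor
  · intro z hz
    obtain ⟨n, rfl⟩ := mem_code.1 hz
    exact ZFSet.pair_mem_prod.2 ⟨mem_omega_iff.2 ⟨n, rfl⟩, mem_omega_iff.2 ⟨y n, rfl⟩⟩
  · intro z hz
    obtain ⟨n, rfl⟩ := mem_omega_iff.1 hz
    refine ⟨nat (y n), mem_code.2 ⟨n, rfl⟩, fun w hw => ?_⟩
    obtain ⟨m, hm⟩ := mem_code.1 hw
    obtain ⟨h1, h2⟩ := ZFSet.pair_inj.1 hm
    rw [h2, nat_injective h1]

theorem bn_injective : Function.Injective bn := by
  intro a b h
  have h1 := nat_injective h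
  cases a <;> cases b <;> simp_all

theorem bn_mem (b : Bool) : bn b ∈ nat 2 := by
  have h1 : nat 2 = insert (nat 1) (nat 1) := rfl
  cases b with
  | true =>
    rw [h1]
    exact ZFSet.mem_insert_iff.2 (Or.inl rfl)
  | false =>
    rw [h1]
    exact ZFSet.mem_insert_iff.2 (Or.inr (ZFSet.mem_insert_iff.2 (Or.inl rfl)))

/-- The constant name. -/
def cst (I : Type) (z : ℕ → ℕ) : NR I :=
  ⟨fun _ => z, ⟨∅, Set.countable_empty, fun _ _ _ => rfl⟩, fun n => by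
    have h1 : {x : X I | ∀ᶠ y in 𝓝 x, (fun _ : X I => z n) y = (fun _ : X I => z n) x} =
        Set.univ := Set.eq_univ_of_forall fun x => Filter.Eventually.of_forall fun _ => rfl
    change Dense {x : X I | ∀ᶠ y in 𝓝 x, (fun _ : X I => z n) y = (fun _ : X I => z n) x}
    rw [h1]
    exact dense_univ⟩

/-- If all sequences of natural numbers in `W` are in `M` then so are all sets of natural
numbers. -/
theorem sub_mem {M W : Set ZFSet.{0}} (hM : IsZF M) (hW : IsZF W)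
    (hclo : ∀ s ∈ W, ZFSet.IsFunc ZFSet.omega ZFSet.omega s → s ∈ M) {y : ZFSet.{0}}
    (hy : y ∈ W) (hyo : y ⊆ ZFSet.omega) : y ∈ M := by
  have hn0 := hW.nat_mem 0
  have hn1 := hW.nat_mem 1
  have hB := hW.base
  obtain ⟨s, hs, h1, h2⟩ := hW.rel_mem hW.infinity hW.infinity
    (Q := fun a b => (a ∈ y ∧ b = nat 1) ∨ (¬ a ∈ y ∧ b = nat 0)) (by
    (repeat' first
      | assumption
      | exact DfnF.proj _
      | exact DfnF.const (by assumption)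
      | exact DfnF.const' (by first | assumption | trivial) (by first | assumption | trivial)
      | exact Dfn.prop _
      | apply Dfn.not | apply Dfn.and | apply Dfn.or | apply Dfn.imp | apply Dfn.iff
      | apply hB.bex | apply hB.ball | apply Dfn.ex | apply Dfn.all
      | apply Dfn.eq | apply Dfn.mem | apply hB.pair'))
  have ho : ∀ n, nat n ∈ ZFSet.omega := fun n => mem_omega_iff.2 ⟨n, rfl⟩
  have h10 : nat 1 ≠ nat 0 := fun h => one_ne_zero (nat_injective h)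
  have hf : ZFSet.IsFunc ZFSet.omega ZFSet.omega s := by
    refine ⟨h1, fun z hz => ?_⟩
    by_cases hzy : z ∈ y
    · refine ⟨nat 1, (h2 _ _).2 ⟨hz, ho 1, Or.inl ⟨hzy, rfl⟩⟩, fun w hw => ?_⟩
      obtain ⟨-, -, ⟨-, h3⟩ | ⟨h3, -⟩⟩ := (h2 _ _).1 hw
      · exact h3
      · exact absurd hzy h3
    · refine ⟨nat 0, (h2 _ _).2 ⟨hz, ho 0, Or.inr ⟨hzy, rfl⟩⟩, fun w hw => ?_⟩
      obtain ⟨-, -, ⟨h3, -⟩ | ⟨-, h3⟩⟩ := (h2 _ _).1 hw
      · exact absurd h3 hzy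
      · exact h3
  have hsM := hclo s hs hf
  have hm1 := hM.nat_mem 1
  have hB' := hM.base
  have h3 := hM.sep_mem (Q := fun a => pair a (nat 1) ∈ s) (by
    (repeat' first
      | assumption
      | exact DfnF.proj _
      | exact DfnF.const (by assumption)
      | exact DfnF.const' (by first | assumption | trivial) (by first | assumption | trivial)
      | exact Dfn.prop _
      | apply Dfn.not | apply Dfn.and | apply Dfn.or | apply Dfn.imp | apply Dfn.iff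
      | apply hB'.bex | apply hB'.ball | apply Dfn.ex | apply Dfn.all
      | apply Dfn.eq | apply Dfn.mem | apply hB'.pair')) hM.infinity
  have h4 : ZFSet.sep (fun a => pair a (nat 1) ∈ s) ZFSet.omega = y := by
    ext a
    rw [ZFSet.mem_sep, h2]
    constructor
    · rintro ⟨-, -, -, ⟨h5, -⟩ | ⟨-, h5⟩⟩
      · exact h5
      · exact absurd h5 h10
    · intro h5
      exact ⟨hyo h5, hyo h5, ho 1, Or.inl ⟨h5, rfl⟩⟩
  rwa [h4] at h3

theorem isUlt_W {M W : Set ZFSet.{0}} {U : ZFSet.{0}}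
    (h : ∀ y ∈ W, y ⊆ ZFSet.omega → y ∈ M) (hU : IsUlt M U) : IsUlt W U := by
  obtain ⟨h1, h2, h3, h4, h5⟩ := hU
  exact ⟨h1, h2, h3, fun x hx y hy hyo hxy => h4 x hx y (h y hy hyo) hyo hxy,
    fun x hx hxo => h5 x (h x hx hxo) hxo⟩

theorem countable_rules (Γ : SimpleGraph (ℕ → ℕ)) :
    (((sys ℝ Γ).rules ∪ ruR ℝ Γ) ∪ (ruP ℝ Γ ∪ ruC ℝ Γ)).Countable := by
  refine ((Set.Finite.countable ?_).union (Set.Finite.countable ?_)).union
    (Set.Countable.union ?_ (Set.Finite.countable ?_))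
  · unfold Sys.rules
    exact Set.toFinite _
  · unfold ruR
    exact Set.toFinite _
  · unfold ruP
    exact ((Set.countable_singleton _).union (Set.countable_range _)).union
      (Set.countable_range _)
  · unfold ruC
    exact Set.toFinite _

/-- The model. -/
theorem model {V : Type} [MeasurableSpace V] [StandardBorelSpace V]
    (G : SimpleGraph V) (hG : MeasurableSet {p : V × V | G.Adj p.1 p.2})
    (hc : ∀ (x : V) (w : G.Walk x x), w.IsCycle → Even w.length)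
    (e : V → ℕ → ℕ) (he : Measurable e) (he' : Function.Injective e) (z : ℕ → ℕ) :
    ∃ M : Set ZFSet.{0}, M.Countable ∧ IsZF M ∧ DC M ∧ code z ∈ M ∧
      (∃ c ∈ M, IsCol M G e c) ∧ ¬ ∃ U ∈ M, IsUlt M U := by
  obtain ⟨Γ, hΓd⟩ : ∃ Γ, Γ = im G e he' := ⟨_, rfl⟩
  have hB : MeasurableSet {p : (ℕ → ℕ) × (ℕ → ℕ) | Γ.Adj p.1 p.2} := by
    rw [hΓd]
    exact im_borel hG he he'
  have hΓ : ∀ y, ¬ WP Γ true y y := by
    rw [hΓd]
    exact im_wp hc he'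
  have hadj : ∀ x y : V, G.Adj x y → Γ.Adj (e x) (e y) := by
    intro x y h
    rw [hΓd]
    exact im_adj he' h
  obtain ⟨π, hA, -, hcl⟩ := exists_pkg (((sys ℝ Γ).rules ∪ ruR ℝ Γ) ∪ (ruP ℝ Γ ∪ ruC ℝ Γ))
    (countable_rules Γ) {colN ℝ Γ, check (cd (cst ℝ z))} (Set.toFinite _).countable ⊤
  have hE : S_EXT := T_EXT.main T_KU.main
  have hCf : S_CONF := T_CONF.main (T_AMA.main T_KU.main)
  have hR : ClR (((sys ℝ Γ).rules ∪ ruR ℝ Γ) ∪ (ruP ℝ Γ ∪ ruC ℝ Γ)) π := hcl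
  have hP : ruP ℝ Γ ⊆ ((sys ℝ Γ).rules ∪ ruR ℝ Γ) ∪ (ruP ℝ Γ ∪ ruC ℝ Γ) :=
    fun _ h => Or.inr (Or.inl h)
  have hC : ruC ℝ Γ ⊆ ((sys ℝ Γ).rules ∪ ruR ℝ Γ) ∪ (ruP ℝ Γ ∪ ruC ℝ Γ) :=
    fun _ h => Or.inr (Or.inr h)
  have hCld : (sys ℝ Γ).Cld π := fun ρ hρ => hcl ρ (Or.inl (Or.inl hρ))
  have hM : IsZF ((sys ℝ Γ).Ms π) := SY.T_ZF.main SY.T_TRU.main SY.T_SEP.main _ _ π hCld
  have hclo := Pool.Agent.W654.SY.main _ (sys ℝ Γ) (T_DST.main ℝ Γ) π hCld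
  have hMW : (sys ℝ Γ).Ms π ⊆ π.W := by
    rintro _ ⟨x, ⟨hx, -⟩, rfl⟩
    exact π.val_mem_W hx
  have hDC : DC ((sys ℝ Γ).Ms π) := SY.T_DC.main _ _ π.isZFC_W hM hMW hclo
  obtain ⟨x, hx, hx'⟩ := point hR hP
  obtain ⟨hN1, hN2, -⟩ := T_NAM.main ℝ Γ
  have hrl : ∀ f : NR ℝ, Hul π f → code (f.1 x) ∈ (sys ℝ Γ).Ms π := by
    intro f hf
    have h1 : realN Γ f ∈ π.N := r1_mem hR (F := fun (f : NR ℝ) _ => realN Γ f)
      (hC (by simp [ruC])) hf 0
    exact ⟨realN Γ f, ⟨h1, hN1 f⟩, val_realN hR hP hx hf⟩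
  have hreal : ∀ s ∈ π.W, ZFSet.IsFunc ZFSet.omega ZFSet.omega s →
      ∃ f : NR ℝ, Hul π f ∧ s = code (f.1 x) := by
    intro s hs hsf
    obtain ⟨f, hf, h1⟩ := T_REAL.main T_DST.main2 ℝ Γ π
      (fun ρ hρ => hcl ρ (Or.inl (Or.inr hρ))) s hs hsf
    exact ⟨f, hf, h1.trans (val_realN hR hP hx hf)⟩
  have hcN : colN ℝ Γ ∈ π.N := hA (Or.inl rfl)
  refine ⟨(sys ℝ Γ).Ms π, (π.cnt.mono fun _ h => h.1).image _, hM, hDC, ?_,
    ⟨π.val (colN ℝ Γ), ⟨colN ℝ Γ, ⟨hcN, hN2⟩, rfl⟩, ?_, ?_⟩, ?_⟩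
  · exact hrl (cst ℝ z) (hA (Or.inr rfl))
  · -- the colouring is a function
    have hM' := hM
    obtain ⟨Pw, hPw, hPw'⟩ := hM.power _ (hM.prod_mem hM.infinity hM.infinity)
    have hom := hM.infinity
    have h1 : Dfn ((sys ℝ Γ).Ms π) ((sys ℝ Γ).Ms π)
        fun w : Fin 1 → ZFSet.{0} => ZFSet.IsFunc ZFSet.omega ZFSet.omega (w 0) :=
      hM.base.isFunc' (DfnF.const hom) (DfnF.const hom) (DfnF.proj 0)
    have h2 := hM.sep_mem (Q := fun y => ZFSet.IsFunc ZFSet.omega ZFSet.omega y) h1 hPw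
    have h3 : ∀ y, y ∈ ZFSet.sep (fun y => ZFSet.IsFunc ZFSet.omega ZFSet.omega y) Pw ↔
        y ∈ (sys ℝ Γ).Ms π ∧ ZFSet.IsFunc ZFSet.omega ZFSet.omega y := by
      intro y
      rw [ZFSet.mem_sep, hPw']
      exact ⟨fun h => ⟨h.1.1, h.2⟩, fun h => ⟨⟨h.1, h.2.1⟩, h.2⟩⟩
    refine ⟨_, h2, h3, fun t ht => ?_, fun y hy => ?_⟩
    · obtain ⟨f, b, hf, rfl, -⟩ := of_col hR hP hC hx hx' ht
      exact ZFSet.pair_mem_prod.2 ⟨(h3 _).2 ⟨hrl f hf, isFunc_code _⟩, bn_mem b⟩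
    · obtain ⟨h4, h5⟩ := (h3 y).1 hy
      obtain ⟨f, hf, rfl⟩ := hreal y (hMW h4) h5
      obtain ⟨h, k, hh, hfh⟩ := exists_col hR hP hC hx hx' hE hΓ hf
      refine ⟨bn (h.1 x), col_mem hR hP hC hx hx' hf hh hfh, fun w hw => ?_⟩
      obtain ⟨f', b, hf', h6, h7⟩ := of_col hR hP hC hx hx' hw
      obtain ⟨h8, h9⟩ := ZFSet.pair_inj.1 h6
      obtain ⟨j, k', hj, hfj⟩ := exists_col hR hP hC hx hx' hE hΓ hf'
      have h10 := col_eq hR hP hC hx hx' hf hf' hh hj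
        ((π.g_anti (le_max_left k k')).1 hfh) ((π.g_anti (le_max_right k k')).1 hfj)
        (code_injective h8)
      rw [h9, h10, h7 j k' hj hfj]
  · -- the colouring is proper
    rintro a b hab i ⟨h1, h2⟩
    obtain ⟨f, b1, hf, h3, h4⟩ := of_col hR hP hC hx hx' h1
    obtain ⟨f', b2, hf', h5, h6⟩ := of_col hR hP hC hx hx' h2
    obtain ⟨h7, h8⟩ := ZFSet.pair_inj.1 h3
    obtain ⟨h9, h10⟩ := ZFSet.pair_inj.1 h5
    obtain ⟨h, k, hh, hfh⟩ := exists_col hR hP hC hx hx' hE hΓ hf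
    obtain ⟨j, k', hj, hfj⟩ := exists_col hR hP hC hx hx' hE hΓ hf'
    refine col_ne hR hP hC hx hx' hB hf hf' hh hj
      ((π.g_anti (le_max_left k k')).1 hfh) ((π.g_anti (le_max_right k k')).1 hfj) ?_ ?_
    · rw [← code_injective h7, ← code_injective h9]
      exact hadj a b hab
    · rw [h4 h k hh hfh, h6 j k' hj hfj]
      exact bn_injective (h8.symm.trans h10)
  · rintro ⟨_, ⟨U, ⟨hUN, hUH⟩, rfl⟩, hUlt⟩
    have hZ := π.isZFC_W.toIsZF
    exact T_ULT.main hE hCf T_NAM.main ℝ Γ inferInstance hΓ π U hUN hUH (isUlt_W (fun y hy hyo =>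
      sub_mem hM hZ (fun s hs hsf => hclo _ hM.infinity s hs hsf) hy hyo) hUlt)

end Pool.Agent.W910.BG
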