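import Pool.Agent.W910.BG.Stm2
import Pool.Agent.W910.SY.Hul

/-!
# Two-colourings of Borel bipartite graphs without ultrafilters: names
-/

set_option autoImplicit false

namespace Pool.Agent.W910.BG

open Pool.Agent.W868 Pool.Agent.W868.PName Pool.Agent.W910.SY
open ZFSet (pair)

variable {I : Type} {Γ : SimpleGraph (ℕ → ℕ)}

/-- A Boolean value as a natural number of set theory. -/
noncomputable def bn (b : Bool) : ZFSet.{0} := nat (cond b 1 0)

variable (Γ) in
/-- The name for the element of the Baire space given by `f`. -/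
noncomputable def realN (f : NR I) : PName (Q I Γ) :=
  PName.mk {t : (ℕ × ℕ) × U0 I // ∀ x ∈ t.2.1, f.1 x t.1.1 = t.1.2}
    (fun t => check (pair (nat t.1.1.1) (nat t.1.1.2))) (fun t => (⊤, t.1.2))

variable (Γ) in
/-- The name for the set of natural numbers given by `A`. -/
noncomputable def setN (A : X I → ℕ → Bool) : PName (Q I Γ) :=
  PName.mk {t : ℕ × U0 I // ∀ x ∈ t.2.1, A x t.1 = true}
    (fun t => check (nat t.1.1)) (fun t => (⊤, t.1.2))

variable (I Γ) in
/-- The name for the generic colouring. -/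
noncomputable def colN : PName (Q I Γ) :=
  PName.mk {t : (NR I × Bool) × Q I Γ // ∃ h : NC I, (t.1.1, h) ∈ t.2.1.1 ∧
      ∀ x ∈ t.2.2.1, h.1 x = t.1.2}
    (fun t => opN (realN Γ t.1.1.1) (check (bn t.1.1.2))) (fun t => t.1.2)

variable (I Γ) in
open Classical in
/-- Rules for the elements of the Baire space. -/
noncomputable def ruR : Set (Rule (Q I Γ)) :=
  {r0 (fun x _ => Sys.nm (Q I Γ) {q | ∃ f : NR I, Feq x (realN Γ f) q}),
   r0 (fun x p => if h : ∃ f : NR I, Feq x (realN Γ f) p then check (cd h.choose) else emp),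
   r1 (fun (f : NR I) _ => realN Γ f)}

/-- `U` is a nonprincipal ultrafilter on the natural numbers in the transitive class `M`: it is a
set of subsets of `ω`; none of its elements is bounded in `ω` (that is, finite); it is closed
under intersections and, in `M`, under supersets; and for every subset `x` of `ω` in `M`, the
set `x` or its complement is in `U`. -/
def IsUlt (M : Set ZFSet.{0}) (U : ZFSet.{0}) : Prop :=
  (∀ x ∈ U, x ⊆ ZFSet.omega) ∧ (∀ x ∈ U, ∀ n ∈ ZFSet.omega, ¬ x ⊆ n) ∧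
  (∀ x ∈ U, ∀ y ∈ U, x ∩ y ∈ U) ∧ (∀ x ∈ U, ∀ y ∈ M, y ⊆ ZFSet.omega → x ⊆ y → y ∈ U) ∧
  (∀ x ∈ M, x ⊆ ZFSet.omega → x ∈ U ∨ ZFSet.omega \ x ∈ U)

/-- Symmetry of the names. -/
def S_NAM : Prop := ∀ (I : Type) (Γ : SimpleGraph (ℕ → ℕ)),
  (∀ f : NR I, (sys I Γ).HS (realN Γ f)) ∧ (sys I Γ).HS (colN I Γ) ∧
  ∀ (θ : X I ≃ₜ X I) (A : X I → ℕ → Bool) (p : Q I Γ),
    Feq (act (smQ θ) (setN Γ A)) (setN Γ fun x => A (θ.symm x)) p

/-- All elements of the Baire space have simple names. -/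
def S_REAL : Prop := ∀ (I : Type) (Γ : SimpleGraph (ℕ → ℕ)) (π : Pkg (Q I Γ)),
  ClR (ruR I Γ) π → ∀ s ∈ π.W, ZFSet.IsFunc ZFSet.omega ZFSet.omega s →
    ∃ f : NR I, Hul π f ∧ s = π.val (realN Γ f)

/-- There is no ultrafilter. -/
def S_ULT : Prop := ∀ (I : Type) (Γ : SimpleGraph (ℕ → ℕ)), Uncountable I →
  (∀ y, ¬ WP Γ true y y) → ∀ π : Pkg (Q I Γ), ∀ U ∈ π.N, (sys I Γ).HS U →
    ¬ IsUlt π.W (π.val U)

end Pool.Agent.W910.BG
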