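import Pool.Agent.W910.BG.Names

/-!
# The generic point
-/

set_option autoImplicit false
set_option linter.unusedSectionVars false

namespace Pool.Agent.W910.BG

open Pool.Agent.W868 Pool.Agent.W868.PName Pool.Agent.W910.SY Topology Filter
open ZFSet (pair)

variable {I : Type} {Γ : SimpleGraph (ℕ → ℕ)}

theorem exists_od (A : Set (X I)) : ∃ O : ℕ → Set (X I), (∀ m, IsOpen (O m) ∧ Dense (O m)) ∧
    (A ∈ residual (X I) → ⋂ m, O m ⊆ A) := by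
  by_cases hA : A ∈ residual (X I)
  · obtain ⟨S, h1, h2, h3, h4⟩ := mem_residual_iff.1 hA
    rcases S.eq_empty_or_nonempty with rfl | hne
    · refine ⟨fun _ => Set.univ, fun _ => ⟨isOpen_univ, dense_univ⟩, fun _ => ?_⟩
      simpa using h4
    · obtain ⟨O, hO⟩ := h3.exists_eq_range hne
      refine ⟨O, fun m => ⟨h1 _ (hO ▸ ⟨m, rfl⟩), h2 _ (hO ▸ ⟨m, rfl⟩)⟩, fun _ => ?_⟩
      rw [hO, Set.sInter_range] at h4
      exact h4
  · exact ⟨fun _ => Set.univ, fun _ => ⟨isOpen_univ, dense_univ⟩, fun h => absurd h hA⟩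

/-- Dense open sets whose intersection is contained in a residual set. -/
noncomputable def Od (A : Set (X I)) : ℕ → Set (X I) := (exists_od A).choose

theorem od_spec (A : Set (X I)) : (∀ m, IsOpen (Od A m) ∧ Dense (Od A m)) ∧
    (A ∈ residual (X I) → ⋂ m, Od A m ⊆ A) := (exists_od A).choose_spec

variable (I Γ) in
/-- Rules for the generic point. -/
noncomputable def ruP : Set (Rule (Q I Γ)) :=
  {r0 (fun _ p => Sys.nm (Q I Γ) {r | closure r.2.1 ⊆ p.2.1})} ∪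
  (Set.range fun m : ℕ => r1 (fun (A : Set (X I)) _ => Sys.nm (Q I Γ) {r | r.2.1 ⊆ Od A m})) ∪
  (Set.range fun n : ℕ => r1 (fun (f : NR I) _ =>
    Sys.nm (Q I Γ) {r | ∃ m, ∀ x ∈ r.2.1, f.1 x n = m}))

theorem exists_sub {U V : Set (X I)} (hU : IsOpen U) (hV : IsOpen V) (h : (U ∩ V).Nonempty) :
    ∃ W : U0 I, W.1 ⊆ U ∧ W.1 ⊆ V :=
  ⟨⟨U ∩ V, hU.inter hV, h⟩, Set.inter_subset_left, Set.inter_subset_right⟩

/-- The condition with a smaller open set. -/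
def cut (q : Q I Γ) (W : U0 I) : Q I Γ := (q.1, W)

theorem cut_le {q : Q I Γ} {W : U0 I} (h : W.1 ⊆ q.2.1) : cut q W ≤ q := ⟨le_rfl, h⟩

/-- The generic point. -/
theorem point {π : Pkg (Q I Γ)} {R : Set (Rule (Q I Γ))} (hR : ClR R π) (hP : ruP I Γ ⊆ R) :
    ∃ x : X I, (∀ k, x ∈ (π.g k).2.1) ∧ ∀ A : Set (X I), Hul π A → A ∈ residual (X I) →
      x ∈ A := by
  have hom : (check ZFSet.omega : PName (Q I Γ)) ∈ π.N := π.om
  have h1 : ∀ k, ∃ k' ≥ k, closure (π.g k').2.1 ⊆ (π.g k).2.1 := by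
    intro k
    have h2 := r0_mem hR (hP (Or.inl (Or.inl rfl))) hom k
    refine gen_dense' π h2 (fun r hr q hq => (closure_mono hq.2).trans hr) fun q hq => ?_
    obtain ⟨y, hy⟩ := q.2.2.2
    obtain ⟨t, ht, htc, hts⟩ := exists_mem_nhds_isClosed_subset (q.2.2.1.mem_nhds hy)
    obtain ⟨V, hVt, hV, hyV⟩ := mem_nhds_iff.1 ht
    exact ⟨cut q ⟨V, hV, y, hyV⟩, cut_le (hVt.trans hts),
      ((closure_minimal hVt htc).trans hts).trans hq.2⟩
  have hmono : ∀ k, (π.g (k + 1)).2.1 ⊆ (π.g k).2.1 := fun k => (π.anti k).2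
  obtain ⟨x, hx⟩ := IsCompact.nonempty_iInter_of_sequence_nonempty_isCompact_isClosed
    (fun k => closure (π.g k).2.1) (fun k => closure_mono (hmono k))
    (fun k => (π.g k).2.2.2.closure) isClosed_closure.isCompact fun k => isClosed_closure
  rw [Set.mem_iInter] at hx
  have hx1 : ∀ k, x ∈ (π.g k).2.1 := by
    intro k
    obtain ⟨k', -, h2⟩ := h1 k
    exact h2 (hx k')
  refine ⟨x, hx1, fun A hA hr => ?_⟩
  obtain ⟨h2, h3⟩ := od_spec A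
  refine h3 hr (Set.mem_iInter.2 fun m => ?_)
  have h4 := r1_mem hR (hP (Or.inl (Or.inr ⟨m, rfl⟩))) hA 0
  obtain ⟨k, -, h5⟩ := gen_dense' π (m := 0) h4
    (fun r hr q hq => Set.Subset.trans (show q.2.1 ⊆ r.2.1 from hq.2) hr) (by
    intro q _
    obtain ⟨W, hW1, hW2⟩ := exists_sub q.2.2.1 (h2 m).1
      ((h2 m).2.inter_open_nonempty _ q.2.2.1 q.2.2.2)
    exact ⟨cut q W, cut_le hW1, hW2⟩)
  exact h5 (hx1 k)

/-- The function `y` as a set. -/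
noncomputable def code (y : ℕ → ℕ) : ZFSet.{0} := ZFSet.range fun n : ℕ => pair (nat n) (nat (y n))

theorem mem_code {y : ℕ → ℕ} {z : ZFSet.{0}} : z ∈ code y ↔ ∃ n, z = pair (nat n) (nat (y n)) := by
  rw [code, ZFSet.mem_range]
  exact ⟨fun ⟨n, h⟩ => ⟨n, h.symm⟩, fun ⟨n, h⟩ => ⟨n, h.symm⟩⟩

theorem code_injective : Function.Injective code := by
  intro y z h
  funext n
  have h1 : pair (nat n) (nat (y n)) ∈ code z := h ▸ mem_code.2 ⟨n, rfl⟩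
  obtain ⟨m, hm⟩ := mem_code.1 h1
  obtain ⟨h2, h3⟩ := ZFSet.pair_inj.1 hm
  rw [nat_injective h3, nat_injective h2]

theorem lc_dense {n : ℕ} (f : NR I) (q : Q I Γ) :
    ∃ r ≤ q, r ∈ {r : Q I Γ | ∃ m, ∀ x ∈ r.2.1, f.1 x n = m} := by
  obtain ⟨y, hyq, hy⟩ := (f.2.2 n).inter_open_nonempty _ q.2.2.1 q.2.2.2
  obtain ⟨V, hV, hVo, hyV⟩ := eventually_nhds_iff.1 (show ∀ᶠ z in 𝓝 y, f.1 z n = f.1 y n from hy)
  obtain ⟨W, hW1, hW2⟩ := exists_sub q.2.2.1 hVo ⟨y, hyq, hyV⟩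
  exact ⟨cut q W, cut_le hW1, f.1 y n, fun z hz => hV z (hW2 hz)⟩

theorem val_realN {π : Pkg (Q I Γ)} {R : Set (Rule (Q I Γ))} (hR : ClR R π)
    (hP : ruP I Γ ⊆ R) {x : X I} (hx : ∀ k, x ∈ (π.g k).2.1) {f : NR I} (hf : Hul π f) :
    π.val (realN Γ f) = code (f.1 x) := by
  ext z
  rw [π.mem_val, mem_code]
  constructor
  · rintro ⟨w, hw, c, ⟨⟨⟨⟨n, m⟩, U⟩, hU⟩, rfl, rfl⟩, ⟨k, hk⟩, rfl⟩
    refine ⟨n, ?_⟩
    have h1 := hU x (hk.2 (hx k))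
    change π.hat (pair (nat n) (nat m)) = _
    rw [π.hat_pair (π.nat_Z n) (π.nat_Z m), π.hat_nat, π.hat_nat]
    exact congrArg (fun t => pair (nat n) (nat t)) h1.symm
  · rintro ⟨n, rfl⟩
    have h1 := r1_mem hR (hP (Or.inr ⟨n, rfl⟩)) hf 0
    obtain ⟨k, -, m, hm⟩ := gen_dense' π (m := 0) h1
      (fun r ⟨m, hm⟩ q hq => ⟨m, fun y hy => hm y (hq.2 hy)⟩) (fun q _ => lc_dense f q)
    have h2 := hm x (hx k)
    refine ⟨check (pair (nat n) (nat m)), π.pair_mem_Z (π.nat_Z n) (π.nat_Z m),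
      (⊤, (π.g k).2), ⟨⟨((n, m), (π.g k).2), hm⟩, rfl, rfl⟩, ⟨k, le_top, le_rfl⟩, ?_⟩
    change π.hat (pair (nat n) (nat m)) = _
    rw [π.hat_pair (π.nat_Z n) (π.nat_Z m), π.hat_nat, π.hat_nat, h2]

end Pool.Agent.W910.BG
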