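import Pool.Agent.W910.BG.Defs

/-!
# Two-colourings of Borel bipartite graphs without ultrafilters: the combinatorial steps
-/

set_option autoImplicit false

namespace Pool.Agent.W910.BG

open Topology Filter

open Classical in
/-- The point with the coordinates of `x` in `T` and the coordinates of `y` outside of `T`. -/
noncomputable def mix {I : Type} (T : Set I) (x y : X I) : X I := fun i => if i ∈ T then x i else y i

/-- A theorem of Kuratowski and Ulam. -/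
def S_KU : Prop := ∀ (I : Type) (T : Set I), T.Countable → ∀ A ∈ residual (X I),
  ∀ᶠ y in residual (X I), ∀ᶠ x in residual (X I), mix T x y ∈ A

/-- Extension of colourings. -/
def S_EXT : Prop := ∀ (I : Type) (Γ : SimpleGraph (ℕ → ℕ)), (∀ y, ¬ WP Γ true y y) →
  ∀ (r : D I Γ) (S₀ : Set I), S₀.Countable →
    ∃ r' : D I Γ, r' ≤ r ∧ ∃ S : Set I, S₀ ⊆ S ∧ S.Countable ∧ Sp S r'.1 ∧ Tot S r'.1

/-- Amalgamation of colourings. -/
def S_AMA : Prop := ∀ (I : Type) (Γ : SimpleGraph (ℕ → ℕ)), (∀ y, ¬ WP Γ true y y) →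
  ∀ (S J₀ J₁ : Set I), S.Countable → J₀.Countable → J₁.Countable → Disjoint S J₀ →
    Disjoint S J₁ → Disjoint J₀ J₁ → ∀ r₀ r₁ r₂ : Set (NR I × NC I), Sp S r₀ → Tot S r₀ →
      r₀ ⊆ r₁ → r₀ ⊆ r₂ → C2 Γ r₁ → C2 Γ r₂ → Sp (S ∪ J₀) r₁ → Sp (S ∪ J₁) r₂ →
        C2 Γ (r₁ ∪ r₂)

/-- Three copies of a condition. -/
def S_CONF : Prop := ∀ (I : Type) (Γ : SimpleGraph (ℕ → ℕ)), Uncountable I →
  (∀ y, ¬ WP Γ true y y) → ∀ (S : Set I) (r₀ r₁ : D I Γ) (U₁ : U0 I) (β : I) (e : Bool),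
    S.Countable → Sp S r₀.1 → Tot S r₀.1 → r₁ ≤ r₀ → β ∉ S →
      ∃ θ₁ ∈ Fx S, ∃ θ₂ ∈ Fx S, ∃ q : Q I Γ, q ≤ (r₁, U₁) ∧ q ≤ smQ θ₁ (r₁, U₁) ∧
        q ≤ smQ θ₂ (r₁, U₁) ∧ ∃ N : ℕ, ∀ x : X I, ∀ n ≥ N,
          θ₂.symm x β n = ((x β n).xor (θ₁.symm x β n)).xor e

/-- Distributivity. -/
def S_DST : Prop := ∀ (I : Type) (Γ : SimpleGraph (ℕ → ℕ)), (sys I Γ).Dst

end Pool.Agent.W910.BG
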