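import Pool.Agent.W910.BG.Stm

/-!
# A concrete form of the distributivity
-/

set_option autoImplicit false

namespace Pool.Agent.W910.BG

/-- Distributivity, with cylinders: the conditions `a n j` of `Sys.Dst` can be taken to be
`(⊤, U n j)` and `m n j = (p'.1, U n j)`, with clopen sets `U n j` that depend only on countably
many coordinates. -/
def S_DS2 : Prop := ∀ (I : Type) (Γ : SimpleGraph (ℕ → ℕ)) (E : ℕ → Set (Q I Γ)) (p₀ : Q I Γ),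
  (∀ n, ∀ q ∈ E n, ∀ r ≤ q, r ∈ E n) → (∀ n, ∀ q ≤ p₀, ∃ r ≤ q, r ∈ E n) →
    ∃ p' ≤ p₀, ∃ J : Set I, J.Countable ∧ ∃ U : ℕ → ℕ → U0 I,
      (∀ n j, IsClopen (U n j).1 ∧ ∀ x y : X I, (∀ i ∈ J, x i = y i) →
        (x ∈ (U n j).1 ↔ y ∈ (U n j).1)) ∧
      (∀ n j, ((p'.1, U n j) : Q I Γ) ∈ E n) ∧
      ∀ n, ∀ V : U0 I, V ≤ p'.2 → ∃ j, (V.1 ∩ (U n j).1).Nonempty

end Pool.Agent.W910.BG
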